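import Pool.Agent.W_MP_93b186_an_helper62.NormPent

/-!
# Final assembly
-/

namespace SympB

theorem affine_sum_iff (Φ : (ℝ × ℝ) ≃ᵃ[ℝ] (ℝ × ℝ)) (a b c d : ℝ × ℝ) :
    Φ a + Φ b = Φ c + Φ d ↔ a + b = c + d := by
  have h : ∀ u v : ℝ × ℝ, Φ u - Φ v = Φ.linear (u - v) := by
    intro u v
    have := Φ.map_vadd v (u - v)
    rw [vadd_eq_add, sub_add_cancel, vadd_eq_add] at this
    rw [this]; ring_nf
  have e1 : Φ a + Φ b = Φ c + Φ d ↔ Φ a - Φ c = Φ d - Φ b := by
    constructor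
    · intro h1
      rw [sub_eq_sub_iff_add_eq_add, h1, add_comm]
    · intro h1
      rw [sub_eq_sub_iff_add_eq_add] at h1
      rw [h1, add_comm]
  have e2 : a + b = c + d ↔ a - c = d - b := by
    constructor
    · intro h1
      rw [sub_eq_sub_iff_add_eq_add, h1, add_comm]
    · intro h1
      rw [sub_eq_sub_iff_add_eq_add] at h1
      rw [h1, add_comm]
  rw [e1, e2, h, h]
  exact Φ.linear.injective.eq_iff

theorem centrallySymmetric_iff {v : ZMod 6 → ℝ × ℝ} {p q r t : ℝ}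
    (h : AffinelyEquivalent v (hexV p q r t)) : t = 0 ↔ CentrallySymmetric v := by
  obtain ⟨Φ, k, h⟩ := h
  constructor
  · rintro rfl
    refine ⟨v (0 + k) + v (3 + k), fun i => ?_⟩
    have hi : v i = Φ (hexV p q r 0 (i - k)) := by rw [← h]; congr 1; ring
    have hi3 : v (i + 3) = Φ (hexV p q r 0 (i - k + 3)) := by rw [← h]; congr 1; ring
    rw [hi, hi3, h 0, h 3, affine_sum_iff]
    have : ∀ j : ZMod 6, hexV p q r 0 j + hexV p q r 0 (j + 3) = (q + r, p + r) := by
      intro j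
      rcases zmod6 j with rfl | rfl | rfl | rfl | rfl | rfl
      · rw [show (0 : ZMod 6) + 3 = 3 by decide, hexV0, hexV3]
        apply Prod.ext <;> simp; ring
      · rw [show (1 : ZMod 6) + 3 = 4 by decide, hexV1, hexV4]
        apply Prod.ext <;> simp
      · rw [show (2 : ZMod 6) + 3 = 5 by decide, hexV2, hexV5]
        apply Prod.ext <;> simp
      · rw [show (3 : ZMod 6) + 3 = 0 by decide, hexV3, hexV0]
        apply Prod.ext <;> simp
      · rw [show (4 : ZMod 6) + 3 = 1 by decide, hexV4, hexV1]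
        apply Prod.ext <;> simp
      · rw [show (5 : ZMod 6) + 3 = 2 by decide, hexV5, hexV2]
        apply Prod.ext <;> simp; ring
    have h0 := this 0
    rw [show (0 : ZMod 6) + 3 = 3 by decide] at h0
    rw [this, h0]
  · rintro ⟨c, hc⟩
    have h0 := hc (0 + k)
    have h1 := hc (1 + k)
    have e0 : (0 : ZMod 6) + k + 3 = 3 + k := by ring
    have e1 : (1 : ZMod 6) + k + 3 = 4 + k := by ring
    rw [e0, h, h] at h0
    rw [e1, h, h, ← h0, affine_sum_iff, hexV0, hexV1, hexV3, hexV4] at h1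
    have := congrArg Prod.fst h1
    simp at this
    linarith

theorem hexagons (v : ZMod 6 → ℝ × ℝ) (hv : IsConvexPolygon v) (hd : AtMostThreeDirections v) :
    (∃ p q r t : ℝ, 0 < p ∧ 0 < q ∧ 0 < r ∧ 0 ≤ t ∧ AffinelyEquivalent v (hexV p q r t)) ∧
    ∀ p q r t : ℝ, 0 < p → 0 < q → 0 < r → 0 ≤ t → AffinelyEquivalent v (hexV p q r t) →
      (t = 0 ↔ CentrallySymmetric v) ∧
      (0 < t → ∃ y, Relation.ReflTransGen (RStep t) (p, q, r) y ∧ Stuck t y) ∧
      ∀ y, Relation.ReflTransGen (RStep t) (p, q, r) y → Stuck t y →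
        (0 < t ∨ StrictTriangle y) → (AP v ↔ (Long y ∨ Commens y)) := by
  refine ⟨hex_norm hv hd, fun p q r t hp hq hr ht haff => ⟨centrallySymmetric_iff haff, ?_, ?_⟩⟩
  · intro ht
    obtain ⟨N, hN⟩ := exists_nat_ge ((p + q + r) / t)
    exact exists_stuck N (p, q, r) ⟨hp, hq, hr⟩ (by rwa [div_le_iff₀ ht] at hN)
  · intro y hy hs hstr
    rw [haff.ap_iff]
    exact hex_iff hp hq hr ht hy hs hstr

theorem pentagons (v : ZMod 5 → ℝ × ℝ) (hv : IsConvexPolygon v) (hd : AtMostThreeDirections v) :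
    AP v := by
  obtain ⟨p, q, t, hp, hq, ht, haff⟩ := pent_norm hv hd
  rw [haff.ap_iff]
  exact pent_ap hp hq ht

end SympB
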