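import Pool.Agent.W_MP_93b186_an_helper62.Defs

/-!
# Invariance of (AP) under affine maps and cyclic relabelling
-/

namespace SympB

theorem cross_linear (L : (ℝ × ℝ) →ₗ[ℝ] (ℝ × ℝ)) (u w : ℝ × ℝ) :
    cross (L u) (L w) = cross (L (1, 0)) (L (0, 1)) * cross u w := by
  have h : ∀ x : ℝ × ℝ, L x = x.1 • L (1, 0) + x.2 • L (0, 1) := by
    intro x
    have e : x = x.1 • ((1, 0) : ℝ × ℝ) + x.2 • ((0, 1) : ℝ × ℝ) := by
      apply Prod.ext <;> simp
    conv_lhs => rw [e]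
    rw [map_add, map_smul, map_smul]
  rw [h u, h w]
  simp only [cross, Prod.fst_add, Prod.snd_add, Prod.smul_fst, Prod.smul_snd, smul_eq_mul]
  ring

theorem cross_linearEquiv_ne (L : (ℝ × ℝ) ≃ₗ[ℝ] (ℝ × ℝ)) :
    cross (L (1, 0)) (L (0, 1)) ≠ 0 := by
  intro h
  have h1 : ∀ x : ℝ × ℝ, L x = x.1 • L (1, 0) + x.2 • L (0, 1) := by
    intro x
    have e : x = x.1 • ((1, 0) : ℝ × ℝ) + x.2 • ((0, 1) : ℝ × ℝ) := by
      apply Prod.ext <;> simp
    conv_lhs => rw [e]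
    rw [map_add, map_smul, map_smul]
  obtain ⟨a, ha⟩ : ∃ a, L (1, 0) = a := ⟨_, rfl⟩
  obtain ⟨c, hc⟩ : ∃ c, L (0, 1) = c := ⟨_, rfl⟩
  rw [ha, hc] at h h1
  have h2 : L (c.2, -a.2) = 0 := by
    rw [h1]
    simp only [cross] at h
    apply Prod.ext
    · simp; linarith
    · simp; ring
  have h3 : L (c.1, -a.1) = 0 := by
    rw [h1]
    simp only [cross] at h
    apply Prod.ext
    · simp; ring
    · simp; linarith
  have h4 := (LinearEquiv.map_eq_zero_iff L).1 h2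
  have h5 := (LinearEquiv.map_eq_zero_iff L).1 h3
  have h6 : a = 0 := by
    apply Prod.ext
    · have := congrArg Prod.snd h5; simpa using this
    · have := congrArg Prod.snd h4; simpa using this
  rw [h6] at ha
  have := (LinearEquiv.map_eq_zero_iff L).1 ha
  exact one_ne_zero (congrArg Prod.fst this)

theorem cross_affine_iff (Φ : (ℝ × ℝ) ≃ᵃ[ℝ] (ℝ × ℝ)) (a b x w : ℝ × ℝ) :
    cross (Φ b - Φ a) (Φ w - Φ x) = 0 ↔ cross (b - a) (w - x) = 0 := by
  have h : ∀ u v : ℝ × ℝ, Φ u - Φ v = Φ.linear (u - v) := by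
    intro u v
    have := Φ.map_vadd v (u - v)
    rw [vadd_eq_add, sub_add_cancel, vadd_eq_add] at this
    rw [this]; ring_nf
  rw [h, h]
  have := cross_linear (Φ.linear : (ℝ × ℝ) →ₗ[ℝ] (ℝ × ℝ)) (b - a) (w - x)
  have h2 := cross_linearEquiv_ne Φ.linear
  simp only [LinearEquiv.coe_coe] at this
  rw [this]
  simp [h2]

variable {n : ℕ}

theorem image_seg (Φ : (ℝ × ℝ) ≃ᵃ[ℝ] (ℝ × ℝ)) (a b z : ℝ × ℝ) :
    Φ z ∈ segment ℝ (Φ a) (Φ b) ↔ z ∈ segment ℝ a b := by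
  have h := image_segment ℝ (Φ : (ℝ × ℝ) →ᵃ[ℝ] (ℝ × ℝ)) a b
  simp only [AffineEquiv.coe_toAffineMap] at h
  rw [← h]
  exact Φ.injective.mem_set_image

theorem image_openSeg (Φ : (ℝ × ℝ) ≃ᵃ[ℝ] (ℝ × ℝ)) (a b z : ℝ × ℝ) :
    Φ z ∈ openSegment ℝ (Φ a) (Φ b) ↔ z ∈ openSegment ℝ a b := by
  have h := image_openSegment ℝ (Φ : (ℝ × ℝ) →ᵃ[ℝ] (ℝ × ℝ)) a b
  simp only [AffineEquiv.coe_toAffineMap] at h
  rw [← h]
  exact Φ.injective.mem_set_image

theorem bdry_affine (Φ : (ℝ × ℝ) ≃ᵃ[ℝ] (ℝ × ℝ)) (v : ZMod n → ℝ × ℝ) (z : ℝ × ℝ) :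
    Φ z ∈ bdry (fun i => Φ (v i)) ↔ z ∈ bdry v := by
  simp only [bdry, Set.mem_iUnion, image_seg]

theorem step_affine (Φ : (ℝ × ℝ) ≃ᵃ[ℝ] (ℝ × ℝ)) (v : ZMod n → ℝ × ℝ) (x y z : ℝ × ℝ) :
    Step (fun i => Φ (v i)) (Φ x) (Φ y) (Φ z) ↔ Step v x y z := by
  unfold Step
  refine exists_congr fun i => ?_
  rw [image_openSeg, bdry_affine, image_seg, Φ.injective.ne_iff]
  refine and_congr_right fun _ => and_congr_right fun _ => and_congr_right fun _ =>
    and_congr_right fun _ => ?_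
  constructor
  · intro h
    ext w
    have := Set.ext_iff.1 h (Φ w)
    simp only [Set.mem_ofPred_eq, Set.mem_insert_iff, Set.mem_singleton_iff, bdry_affine,
      cross_affine_iff, Φ.injective.eq_iff] at this ⊢
    exact this
  · intro h
    ext w
    obtain ⟨w, rfl⟩ := Φ.surjective w
    have := Set.ext_iff.1 h w
    simp only [Set.mem_ofPred_eq, Set.mem_insert_iff, Set.mem_singleton_iff, bdry_affine,
      cross_affine_iff, Φ.injective.eq_iff] at this ⊢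
    exact this

theorem ap_affine (Φ : (ℝ × ℝ) ≃ᵃ[ℝ] (ℝ × ℝ)) (v : ZMod n → ℝ × ℝ) :
    AP (fun i => Φ (v i)) ↔ AP v := by
  constructor
  · intro h x hx
    obtain ⟨m, hm, h1, h2⟩ := h (fun k => Φ (x k)) (fun k => (step_affine Φ v _ _ _).2 (hx k))
    exact ⟨m, hm, Φ.injective h1, Φ.injective h2⟩
  · intro h x hx
    obtain ⟨m, hm, h1, h2⟩ := h (fun k => Φ.symm (x k)) (fun k => by
      rw [← step_affine Φ v]
      simp only [AffineEquiv.apply_symm_apply]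
      exact hx k)
    exact ⟨m, hm, Φ.symm.injective h1, Φ.symm.injective h2⟩

theorem bdry_shift (v : ZMod n → ℝ × ℝ) (k : ZMod n) : bdry (fun i => v (i + k)) = bdry v := by
  ext z
  simp only [bdry, Set.mem_iUnion]
  constructor
  · rintro ⟨i, hi⟩
    refine ⟨i + k, ?_⟩
    rwa [show i + 1 + k = i + k + 1 by ring] at hi
  · rintro ⟨i, hi⟩
    refine ⟨i - k, ?_⟩
    rw [sub_add_cancel, show i - k + 1 + k = i + 1 by ring]
    exact hi

theorem step_shift (v : ZMod n → ℝ × ℝ) (k : ZMod n) (x y z : ℝ × ℝ) :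
    Step (fun i => v (i + k)) x y z ↔ Step v x y z := by
  unfold Step
  rw [bdry_shift]
  constructor
  · rintro ⟨i, hi⟩
    refine ⟨i + k, ?_⟩
    beta_reduce at hi
    rwa [show i + 1 + k = i + k + 1 by ring] at hi
  · rintro ⟨i, hi⟩
    refine ⟨i - k, ?_⟩
    beta_reduce
    rw [sub_add_cancel, show i - k + 1 + k = i + 1 by ring]
    exact hi

theorem ap_shift (v : ZMod n → ℝ × ℝ) (k : ZMod n) : AP (fun i => v (i + k)) ↔ AP v := by
  unfold AP IsOrbit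
  simp only [step_shift]

end SympB
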