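import Mathlib

/-!
# Polygonal symplectic billiards: definitions
-/

namespace SympB

/-- The cross product (determinant) of two vectors of the plane. -/
def cross (u w : ℝ × ℝ) : ℝ := u.1 * w.2 - u.2 * w.1

/-- `v 0, v 1, …, v (n-1)` (indices modulo `n`) are the vertices of a convex polygon with `n ≥ 3`
sides, listed counterclockwise: for every side from `v i` to `v (i+1)`, all other vertices lie
strictly to the left of it. -/
def IsConvexPolygon {n : ℕ} (v : ZMod n → ℝ × ℝ) : Prop :=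
  3 ≤ n ∧ ∀ i j : ZMod n, j ≠ i → j ≠ i + 1 → 0 < cross (v (i + 1) - v i) (v j - v i)

/-- The boundary of the polygon: the union of its closed sides. -/
def bdry {n : ℕ} (v : ZMod n → ℝ × ℝ) : Set (ℝ × ℝ) := ⋃ i : ZMod n, segment ℝ (v i) (v (i + 1))

/-- `Step v x y z`: the pair `(x, y)` lies in the phase space and the symplectic billiard map
sends it to `(y, z)`.  That is: `y` is in the relative interior of a side `S`, the point `x` is on
the boundary but not on `S`, and the line through `x` parallel to `S` meets the boundary exactly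
in `x` and in a second point `z ≠ x`. -/
def Step {n : ℕ} (v : ZMod n → ℝ × ℝ) (x y z : ℝ × ℝ) : Prop :=
  ∃ i : ZMod n, y ∈ openSegment ℝ (v i) (v (i + 1)) ∧ x ∈ bdry v ∧
    x ∉ segment ℝ (v i) (v (i + 1)) ∧ z ≠ x ∧
    {w : ℝ × ℝ | w ∈ bdry v ∧ cross (v (i + 1) - v i) (w - x) = 0} = {x, z}

/-- A symplectic billiard orbit that is defined for all (forward and backward) times: the
successive pairs are `(x k, x (k+1))`, `k ∈ ℤ`. -/
def IsOrbit {n : ℕ} (v : ZMod n → ℝ × ℝ) (x : ℤ → ℝ × ℝ) : Prop :=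
  ∀ k : ℤ, Step v (x k) (x (k + 1)) (x (k + 2))

/-- Property (AP): every orbit defined for all times is periodic. -/
def AP {n : ℕ} (v : ZMod n → ℝ × ℝ) : Prop :=
  ∀ x : ℤ → ℝ × ℝ, IsOrbit v x → ∃ m : ℕ, 1 ≤ m ∧ x m = x 0 ∧ x (m + 1) = x 1

/-- The sides of the polygon have at most three directions. -/
def AtMostThreeDirections {n : ℕ} (v : ZMod n → ℝ × ℝ) : Prop :=
  ∃ d : Fin 3 → ℝ × ℝ, ∀ i : ZMod n, ∃ k, d k ≠ 0 ∧ cross (d k) (v (i + 1) - v i) = 0

/-- One reduction step for a triple of side lengths (`t` is fixed): an entry that exceeds `t` plus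
the sum of the two other entries is decreased by this amount. -/
inductive RStep (t : ℝ) : ℝ × ℝ × ℝ → ℝ × ℝ × ℝ → Prop
  | one (p q r : ℝ) (h : t + q + r < p) : RStep t (p, q, r) (p - (t + q + r), q, r)
  | two (p q r : ℝ) (h : t + p + r < q) : RStep t (p, q, r) (p, q - (t + p + r), r)
  | three (p q r : ℝ) (h : t + p + q < r) : RStep t (p, q, r) (p, q, r - (t + p + q))

/-- No reduction step is possible. -/
def Stuck (t : ℝ) (x : ℝ × ℝ × ℝ) : Prop :=
  x.1 ≤ t + x.2.1 + x.2.2 ∧ x.2.1 ≤ t + x.1 + x.2.2 ∧ x.2.2 ≤ t + x.1 + x.2.1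

/-- The pairwise differences of the three entries are commensurable (integer multiples of one
real number). -/
def Commens (x : ℝ × ℝ × ℝ) : Prop :=
  ∃ g : ℝ, ∃ m n : ℤ, x.1 - x.2.1 = m * g ∧ x.1 - x.2.2 = n * g

/-- One of the three entries is larger than the sum of the two others. -/
def Long (x : ℝ × ℝ × ℝ) : Prop :=
  x.2.1 + x.2.2 < x.1 ∨ x.1 + x.2.2 < x.2.1 ∨ x.1 + x.2.1 < x.2.2

/-- The strict triangle inequalities for the three entries. -/
def StrictTriangle (x : ℝ × ℝ × ℝ) : Prop :=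
  x.1 < x.2.1 + x.2.2 ∧ x.2.1 < x.1 + x.2.2 ∧ x.2.2 < x.1 + x.2.1

/-- Affine equivalence of polygons: equality of the vertex lists up to an invertible affine map of
the plane and a cyclic relabelling. -/
def AffinelyEquivalent {n : ℕ} (v v' : ZMod n → ℝ × ℝ) : Prop :=
  ∃ (Φ : (ℝ × ℝ) ≃ᵃ[ℝ] (ℝ × ℝ)) (k : ZMod n), ∀ i, v (i + k) = Φ (v' i)

/-- The vertices of the hexagon `{0 ≤ x ≤ q+r+t, 0 ≤ y ≤ p+r+t, r ≤ x+y ≤ p+q+r+t}`. Its sides are,
in this order, `(q+t)(1,0)`, `p(0,1)`, `(r+t)(-1,1)`, `q(-1,0)`, `(p+t)(0,-1)`, `r(1,-1)`. -/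
def hexV (p q r t : ℝ) : ZMod 6 → ℝ × ℝ :=
  (![(r, 0), (q + r + t, 0), (q + r + t, p), (q, p + r + t), (0, p + r + t), (0, r)] :
    Fin 6 → ℝ × ℝ)

/-- A hexagon that is centrally symmetric: `v i` and `v (i+3)` are exchanged by a point
reflection. -/
def CentrallySymmetric (v : ZMod 6 → ℝ × ℝ) : Prop :=
  ∃ c : ℝ × ℝ, ∀ i : ZMod 6, v i + v (i + 3) = c

end SympB
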