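import Pool.Agent.W_MP_93b186_an_helper62.Inf
import Pool.Agent.W_MP_93b186_an_helper62.Defs

/-!
# The reduction algorithm
-/

namespace SympB

theorem Commens.swap12 {p q r : ℝ} (h : Commens (p, q, r)) : Commens (q, p, r) := by
  obtain ⟨g, m, n, h1, h2⟩ := h
  simp only at h1 h2
  refine ⟨g, -m, n - m, ?_, ?_⟩
  · push_cast; linarith
  · push_cast; linarith

theorem Commens.swap23 {p q r : ℝ} (h : Commens (p, q, r)) : Commens (p, r, q) := by
  obtain ⟨g, m, n, h1, h2⟩ := h
  exact ⟨g, n, m, h2, h1⟩

theorem incomm_of_not_commens {p q r : ℝ} (h : ¬ Commens (p, q, r)) : Incomm p q r := by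
  intro m n hmn
  by_contra hne
  apply h
  by_cases hm : m = 0
  · have hn : n ≠ 0 := fun hn => hne ⟨hm, hn⟩
    subst hm
    have : (n : ℝ) * (p - r) = 0 := by rw [← hmn]; simp
    have h2 : p - r = 0 := by
      rcases mul_eq_zero.1 this with h | h
      · exact absurd (by exact_mod_cast h) hn
      · exact h
    exact ⟨p - q, 1, 0, by simp, by simp [h2]⟩
  · have hm' : (m : ℝ) ≠ 0 := by exact_mod_cast hm
    refine ⟨(p - r) / m, n, m, ?_, ?_⟩
    · simp only
      field_simp
      linarith
    · simp only
      field_simp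

/-- sum of the entries plus `t` -/
def len (t : ℝ) (x : ℝ × ℝ × ℝ) : ℝ := x.1 + x.2.1 + x.2.2 + t

def Pos3 (x : ℝ × ℝ × ℝ) : Prop := 0 < x.1 ∧ 0 < x.2.1 ∧ 0 < x.2.2

theorem RStep.pos {t : ℝ} {x y : ℝ × ℝ × ℝ} (h : RStep t x y) (hx : Pos3 x) : Pos3 y := by
  obtain ⟨h1, h2, h3⟩ := hx
  cases h with
  | one p q r h => exact ⟨by simp only at *; linarith, h2, h3⟩
  | two p q r h => exact ⟨h1, by simp only at *; linarith, h3⟩
  | three p q r h => exact ⟨h1, h2, by simp only at *; linarith⟩

theorem Reach.pos {t : ℝ} {x y : ℝ × ℝ × ℝ} (h : Relation.ReflTransGen (RStep t) x y)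
    (hx : Pos3 x) : Pos3 y := by
  induction h with
  | refl => exact hx
  | tail _ hb ih => exact hb.pos ih

theorem RStep.fin {t : ℝ} (ht : 0 ≤ t) {x y : ℝ × ℝ × ℝ} (h : RStep t x y) (hx : Pos3 x)
    (hf : FinL (len t y) y.1 y.2.1 y.2.2) : FinL (len t x) x.1 x.2.1 x.2.2 := by
  obtain ⟨h1, h2, h3⟩ := hx
  cases h with
  | one p q r h =>
    simp only [len] at *
    refine FinL.R1 h2.le h3.le (by linarith) (by linarith) (by linarith) ?_
    have e1 : p - (t + q + r) + q + r + t = p := by ring
    have e2 : p - (t + q + r) = 2 * p - (p + q + r + t) := by ring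
    rwa [e1, e2] at hf
  | two p q r h =>
    simp only [len] at *
    refine FinL.swapAB (FinL.R1 h1.le h3.le (by linarith) (by linarith) (by linarith) ?_)
    have e1 : p + (q - (t + p + r)) + r + t = q := by ring
    have e2 : q - (t + p + r) = 2 * q - (p + q + r + t) := by ring
    rw [e1, e2] at hf
    exact hf.swapAB
  | three p q r h =>
    simp only [len] at *
    refine FinL.swapBC (FinL.swapAB
      (FinL.R1 h1.le h2.le (by linarith) (by linarith) (by linarith) ?_))
    have e1 : p + q + (r - (t + p + q)) + t = r := by ring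
    have e2 : r - (t + p + q) = 2 * r - (p + q + r + t) := by ring
    rw [e1, e2] at hf
    exact hf.swapBC.swapAB

theorem RStep.odd {t : ℝ} (ht : 0 ≤ t) {x y : ℝ × ℝ × ℝ} (h : RStep t x y) (hx : Pos3 x)
    (hf : OddFam (len t y) y.1 y.2.1 y.2.2) : OddFam (len t x) x.1 x.2.1 x.2.2 := by
  obtain ⟨h1, h2, h3⟩ := hx
  cases h with
  | one p q r h =>
    simp only [len] at *
    refine OddFam.R1 h3.le (by linarith) (by linarith) (by linarith) ?_
    have e1 : p - (t + q + r) + q + r + t = p := by ring
    have e2 : p - (t + q + r) = 2 * p - (p + q + r + t) := by ring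
    rwa [e1, e2] at hf
  | two p q r h =>
    simp only [len] at *
    refine OddFam.swapAB (OddFam.R1 h3.le (by linarith) (by linarith) (by linarith) ?_)
    have e1 : p + (q - (t + p + r)) + r + t = q := by ring
    have e2 : q - (t + p + r) = 2 * q - (p + q + r + t) := by ring
    rw [e1, e2] at hf
    exact hf.swapAB
  | three p q r h =>
    simp only [len] at *
    refine OddFam.swapBC (OddFam.swapAB
      (OddFam.R1 h2.le (by linarith) (by linarith) (by linarith) ?_))
    have e1 : p + q + (r - (t + p + q)) + t = r := by ring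
    have e2 : r - (t + p + q) = 2 * r - (p + q + r + t) := by ring
    rw [e1, e2] at hf
    exact hf.swapBC.swapAB

theorem RStep.inf {t : ℝ} (ht : 0 ≤ t) {x y : ℝ × ℝ × ℝ} (h : RStep t x y) (hx : Pos3 x)
    (hf : InfFam (len t y) y.1 y.2.1 y.2.2) : InfFam (len t x) x.1 x.2.1 x.2.2 := by
  obtain ⟨h1, h2, h3⟩ := hx
  cases h with
  | one p q r h =>
    simp only [len] at *
    refine InfFam.R1 h2.le h3.le (by linarith) (by linarith) (by linarith) ?_
    have e1 : p - (t + q + r) + q + r + t = p := by ring
    have e2 : p - (t + q + r) = 2 * p - (p + q + r + t) := by ring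
    rwa [e1, e2] at hf
  | two p q r h =>
    simp only [len] at *
    refine InfFam.swapAB (InfFam.R1 h1.le h3.le (by linarith) (by linarith) (by linarith) ?_)
    have e1 : p + (q - (t + p + r)) + r + t = q := by ring
    have e2 : q - (t + p + r) = 2 * q - (p + q + r + t) := by ring
    rw [e1, e2] at hf
    exact hf.swapAB
  | three p q r h =>
    simp only [len] at *
    refine InfFam.swapBC (InfFam.swapAB
      (InfFam.R1 h1.le h2.le (by linarith) (by linarith) (by linarith) ?_))
    have e1 : p + q + (r - (t + p + q)) + t = r := by ring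
    have e2 : r - (t + p + q) = 2 * r - (p + q + r + t) := by ring
    rw [e1, e2] at hf
    exact hf.swapBC.swapAB

theorem Reach.fin {t : ℝ} (ht : 0 ≤ t) {x y : ℝ × ℝ × ℝ}
    (h : Relation.ReflTransGen (RStep t) x y) (hx : Pos3 x)
    (hf : FinL (len t y) y.1 y.2.1 y.2.2) : FinL (len t x) x.1 x.2.1 x.2.2 := by
  induction h using Relation.ReflTransGen.head_induction_on with
  | refl => exact hf
  | head hab _ ih => exact hab.fin ht hx (ih (hab.pos hx))

theorem Reach.odd {t : ℝ} (ht : 0 ≤ t) {x y : ℝ × ℝ × ℝ}
    (h : Relation.ReflTransGen (RStep t) x y) (hx : Pos3 x)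
    (hf : OddFam (len t y) y.1 y.2.1 y.2.2) : OddFam (len t x) x.1 x.2.1 x.2.2 := by
  induction h using Relation.ReflTransGen.head_induction_on with
  | refl => exact hf
  | head hab _ ih => exact hab.odd ht hx (ih (hab.pos hx))

theorem Reach.inf {t : ℝ} (ht : 0 ≤ t) {x y : ℝ × ℝ × ℝ}
    (h : Relation.ReflTransGen (RStep t) x y) (hx : Pos3 x)
    (hf : InfFam (len t y) y.1 y.2.1 y.2.2) : InfFam (len t x) x.1 x.2.1 x.2.2 := by
  induction h using Relation.ReflTransGen.head_induction_on with
  | refl => exact hf
  | head hab _ ih => exact hab.inf ht hx (ih (hab.pos hx))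

/-- a terminal triple with commensurable differences or with a long side has finite leaves;
version with `p` the largest entry. -/
theorem fin_terminal_aux {t p q r : ℝ} (ht : 0 ≤ t) (hq : 0 < q) (hr : 0 < r)
    (hs : p ≤ t + q + r) (hqp : q ≤ p) (hrp : r ≤ p)
    (h : q + r < p ∨ Commens (p, q, r)) : FinL (p + q + r + t) p q r := by
  rcases h with h | ⟨g, m, n, h1, h2⟩
  · exact FinL.R2 hq.le hr.le (by linarith) (by linarith) h
  · simp only at h1 h2
    rcases lt_trichotomy g 0 with hg | hg | hg
    · exact FinL.comm (g := -g) (m := -m) (n := -n) hq.le hr.le hqp hrp (by linarith)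
        (by linarith) (by linarith) (by push_cast; linarith) (Or.inr (by push_cast; linarith))
    · subst hg
      exact FinL.comm (g := 1) (m := 0) (n := 0) hq.le hr.le hqp hrp (by linarith)
        (by linarith) one_pos (by rw [h1]; simp) (Or.inr (by rw [h2]; simp))
    · exact FinL.comm (g := g) (m := m) (n := n) hq.le hr.le hqp hrp (by linarith)
        (by linarith) hg h1 (Or.inr h2)

theorem fin_terminal {t : ℝ} (ht : 0 ≤ t) {x : ℝ × ℝ × ℝ} (hx : Pos3 x) (hs : Stuck t x)
    (h : Long x ∨ Commens x) : FinL (len t x) x.1 x.2.1 x.2.2 := by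
  obtain ⟨p, q, r⟩ := x
  obtain ⟨hp, hq, hr⟩ := hx
  obtain ⟨s1, s2, s3⟩ := hs
  simp only [len, Long] at *
  rcases le_total q p with h1 | h1
  · rcases le_total r p with h2 | h2
    · refine fin_terminal_aux ht hq hr s1 h1 h2 ?_
      rcases h with (h | h | h) | h
      · exact Or.inl h
      · exfalso; linarith
      · exfalso; linarith
      · exact Or.inr h
    · -- `r` largest
      have := fin_terminal_aux (t := t) (p := r) (q := p) (r := q) ht hp hq
        (by linarith) (by linarith) (by linarith) (by
          rcases h with (h | h | h) | h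
          · exfalso; linarith
          · exfalso; linarith
          · exact Or.inl h
          · exact Or.inr h.swap23.swap12)
      have e : r + p + q + t = p + q + r + t := by ring
      rw [e] at this
      exact this.swapAB.swapBC
  · rcases le_total r q with h2 | h2
    · have := fin_terminal_aux (t := t) (p := q) (q := p) (r := r) ht hp hr
        (by linarith) (by linarith) (by linarith) (by
          rcases h with (h | h | h) | h
          · exfalso; linarith
          · exact Or.inl h
          · exfalso; linarith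
          · exact Or.inr h.swap12)
      have e : q + p + r + t = p + q + r + t := by ring
      rw [e] at this
      exact this.swapAB
    · have := fin_terminal_aux (t := t) (p := r) (q := p) (r := q) ht hp hq
        (by linarith) (by linarith) (by linarith) (by
          rcases h with (h | h | h) | h
          · exfalso; linarith
          · exfalso; linarith
          · exact Or.inl h
          · exact Or.inr h.swap23.swap12)
      have e : r + p + q + t = p + q + r + t := by ring
      rw [e] at this
      exact this.swapAB.swapBC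

theorem odd_terminal {t : ℝ} (ht : 0 ≤ t) {x : ℝ × ℝ × ℝ} (hx : Pos3 x)
    (hs : x.1 < t + x.2.1 + x.2.2 ∧ x.2.1 < t + x.1 + x.2.2 ∧ x.2.2 < t + x.1 + x.2.1) :
    OddFam (len t x) x.1 x.2.1 x.2.2 := by
  obtain ⟨p, q, r⟩ := x
  obtain ⟨hp, hq, hr⟩ := hx
  obtain ⟨s1, s2, s3⟩ := hs
  simp only [len] at *
  exact OddFam.core (by linarith) (by linarith) (by linarith) (by linarith)

theorem inf_terminal {t : ℝ} (ht : 0 ≤ t) {x : ℝ × ℝ × ℝ} (hx : Pos3 x)
    (h : ¬ Long x) (h' : ¬ Commens x) : InfFam (len t x) x.1 x.2.1 x.2.2 := by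
  obtain ⟨p, q, r⟩ := x
  obtain ⟨hp, hq, hr⟩ := hx
  simp only [Long, not_or, not_lt] at h
  obtain ⟨s1, s2, s3⟩ := h
  simp only [len] at *
  rcases le_total q p with h1 | h1
  · rcases le_total r p with h2 | h2
    · exact InfFam.term hq.le hr.le s1 h1 h2 (by linarith) (incomm_of_not_commens h')
    · have := InfFam.term (l := p + q + r + t) (p := r) (q := p) (r := q) hp.le hq.le
        (by linarith) (by linarith) (by linarith) (by linarith)
        (incomm_of_not_commens fun h => h' h.swap12.swap23)
      exact this.swapAB.swapBC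
  · rcases le_total r q with h2 | h2
    · have := InfFam.term (l := p + q + r + t) (p := q) (q := p) (r := r) hp.le hr.le
        (by linarith) (by linarith) (by linarith) (by linarith)
        (incomm_of_not_commens fun h => h' h.swap12)
      exact this.swapAB
    · have := InfFam.term (l := p + q + r + t) (p := r) (q := p) (r := q) hp.le hq.le
        (by linarith) (by linarith) (by linarith) (by linarith)
        (incomm_of_not_commens fun h => h' h.swap12.swap23)
      exact this.swapAB.swapBC

/-- The reduction terminates if `t > 0`. -/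
theorem exists_stuck {t : ℝ} : ∀ N : ℕ, ∀ x : ℝ × ℝ × ℝ, Pos3 x →
    x.1 + x.2.1 + x.2.2 ≤ N * t → ∃ y, Relation.ReflTransGen (RStep t) x y ∧ Stuck t y := by
  intro N
  induction N with
  | zero =>
    intro x hx h
    obtain ⟨h1, h2, h3⟩ := hx
    simp only [Nat.cast_zero, zero_mul] at h
    exfalso; linarith
  | succ N ih =>
    intro x hx h
    obtain ⟨p, q, r⟩ := x
    by_cases hs : Stuck t (p, q, r)
    · exact ⟨_, Relation.ReflTransGen.refl, hs⟩
    · have hx' := hx
      obtain ⟨h1, h2, h3⟩ := hx'
      push_cast at h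
      simp only [Stuck, not_and_or, not_le] at hs
      simp only at h h1 h2 h3
      rcases hs with hs | hs | hs
      · have hst := RStep.one (t := t) p q r hs
        obtain ⟨y, hy1, hy2⟩ := ih _ (hst.pos hx) (by simp only; linarith)
        exact ⟨y, Relation.ReflTransGen.head hst hy1, hy2⟩
      · have hst := RStep.two (t := t) p q r hs
        obtain ⟨y, hy1, hy2⟩ := ih _ (hst.pos hx) (by simp only; linarith)
        exact ⟨y, Relation.ReflTransGen.head hst hy1, hy2⟩
      · have hst := RStep.three (t := t) p q r hs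
        obtain ⟨y, hy1, hy2⟩ := ih _ (hst.pos hx) (by simp only; linarith)
        exact ⟨y, Relation.ReflTransGen.head hst hy1, hy2⟩

end SympB
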