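import Mathlib

/-!
# Chord families of a polygon with three side directions

The polygon is `{(a,b,c) : a+b+c = l, 0 ≤ a ≤ l-p, 0 ≤ b ≤ l-q, 0 ≤ c ≤ l-r}`.
A chord is a pair (letter, value).  A family `(A, B, C)` of sets of chord values is closed if,
at every boundary point in the relative interior of a side, one of the two chords through that
point (parallel to the two other directions) belongs to the family iff the other one does.
-/

namespace SympB

/-- Closedness of a chord family. -/
structure Closed (l p q r : ℝ) (A B C : Set ℝ) : Prop where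
  s1 : ∀ a, 0 < a → a < r → (a ∈ A ↔ r - a ∈ B)
  s2 : ∀ a, r < a → a < l - p → (a ∈ A ↔ l - a ∈ C)
  s3 : ∀ a, q < a → a < l - p → (a ∈ A ↔ l - a ∈ B)
  s4 : ∀ a, 0 < a → a < q → (a ∈ A ↔ q - a ∈ C)
  s5 : ∀ b, r < b → b < l - q → (b ∈ B ↔ l - b ∈ C)
  s6 : ∀ b, 0 < b → b < p → (b ∈ B ↔ p - b ∈ C)

namespace Closed

variable {l p q r : ℝ} {A B C A' B' C' : Set ℝ}

theorem swapBC (h : Closed l p q r A B C) : Closed l p r q A C B where
  s1 := h.s4
  s2 := h.s3
  s3 := h.s2
  s4 := h.s1
  s5 := fun c h1 h2 => by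
    have := h.s5 (l - c) (by linarith) (by linarith)
    rw [this, sub_sub_cancel]
  s6 := fun c h1 h2 => by
    have := h.s6 (p - c) (by linarith) (by linarith)
    rw [this, sub_sub_cancel]

theorem swapAB (h : Closed l p q r A B C) : Closed l q p r B A C where
  s1 := fun b h1 h2 => by
    have := h.s1 (r - b) (by linarith) (by linarith)
    rw [this, sub_sub_cancel]
  s2 := h.s5
  s3 := fun b h1 h2 => by
    have := h.s3 (l - b) (by linarith) (by linarith)
    rw [this, sub_sub_cancel]
  s4 := h.s6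
  s5 := h.s2
  s6 := h.s4

theorem union (h : Closed l p q r A B C) (h' : Closed l p q r A' B' C') :
    Closed l p q r (A ∪ A') (B ∪ B') (C ∪ C') where
  s1 := fun a h1 h2 => or_congr (h.s1 a h1 h2) (h'.s1 a h1 h2)
  s2 := fun a h1 h2 => or_congr (h.s2 a h1 h2) (h'.s2 a h1 h2)
  s3 := fun a h1 h2 => or_congr (h.s3 a h1 h2) (h'.s3 a h1 h2)
  s4 := fun a h1 h2 => or_congr (h.s4 a h1 h2) (h'.s4 a h1 h2)
  s5 := fun a h1 h2 => or_congr (h.s5 a h1 h2) (h'.s5 a h1 h2)
  s6 := fun a h1 h2 => or_congr (h.s6 a h1 h2) (h'.s6 a h1 h2)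

theorem congr (hp : 0 ≤ p) (hq : 0 ≤ q) (hr : 0 ≤ r) (hl : p + q + r ≤ l)
    (h : Closed l p q r A B C)
    (hA : ∀ x, 0 < x → x < l - p → (x ∈ A ↔ x ∈ A'))
    (hB : ∀ x, 0 < x → x < l - q → (x ∈ B ↔ x ∈ B'))
    (hC : ∀ x, 0 < x → x < l - r → (x ∈ C ↔ x ∈ C')) : Closed l p q r A' B' C' where
  s1 := fun a h1 h2 => by
    rw [← hA a (by linarith) (by linarith), ← hB _ (by linarith) (by linarith)]
    exact h.s1 a h1 h2
  s2 := fun a h1 h2 => by
    rw [← hA a (by linarith) (by linarith), ← hC _ (by linarith) (by linarith)]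
    exact h.s2 a h1 h2
  s3 := fun a h1 h2 => by
    rw [← hA a (by linarith) (by linarith), ← hB _ (by linarith) (by linarith)]
    exact h.s3 a h1 h2
  s4 := fun a h1 h2 => by
    rw [← hA a (by linarith) (by linarith), ← hC _ (by linarith) (by linarith)]
    exact h.s4 a h1 h2
  s5 := fun a h1 h2 => by
    rw [← hB a (by linarith) (by linarith), ← hC _ (by linarith) (by linarith)]
    exact h.s5 a h1 h2
  s6 := fun a h1 h2 => by
    rw [← hB a (by linarith) (by linarith), ← hC _ (by linarith) (by linarith)]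
    exact h.s6 a h1 h2

end Closed

/-- Every finite set of chords is contained in a finite closed family. -/
def FinL (l p q r : ℝ) : Prop :=
  ∀ F : Set ℝ, F.Finite → ∃ A B C : Set ℝ, A.Finite ∧ B.Finite ∧ C.Finite ∧
    Closed l p q r A B C ∧ F ⊆ A ∧ F ⊆ B ∧ F ⊆ C

/-- weak form: one chord at a time, in range only. -/
theorem FinL.of_weak {l p q r : ℝ} (hp : 0 ≤ p) (hq : 0 ≤ q) (hr : 0 ≤ r) (hl : p + q + r ≤ l)
    (h : ∀ x, ∃ A B C : Set ℝ, A.Finite ∧ B.Finite ∧ C.Finite ∧ Closed l p q r A B C ∧
      (0 < x → x < l - p → x ∈ A) ∧ (0 < x → x < l - q → x ∈ B) ∧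
      (0 < x → x < l - r → x ∈ C)) : FinL l p q r := by
  intro F hF
  induction F, hF using Set.Finite.induction_on with
  | empty =>
    refine ⟨∅, ∅, ∅, Set.finite_empty, Set.finite_empty, Set.finite_empty, ?_, ?_, ?_, ?_⟩
    · constructor <;> intros <;> simp
    all_goals exact Set.empty_subset _
  | @insert x F hx hF ih =>
    obtain ⟨A, B, C, fA, fB, fC, hcl, iA, iB, iC⟩ := ih
    obtain ⟨A', B', C', fA', fB', fC', hcl', iA', iB', iC'⟩ := h x
    refine ⟨(A ∪ A') ∪ {x}, (B ∪ B') ∪ {x}, (C ∪ C') ∪ {x}, ?_, ?_, ?_, ?_, ?_, ?_, ?_⟩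
    · exact (fA.union fA').union (Set.finite_singleton x)
    · exact (fB.union fB').union (Set.finite_singleton x)
    · exact (fC.union fC').union (Set.finite_singleton x)
    · refine Closed.congr hp hq hr hl (hcl.union hcl') ?_ ?_ ?_
      · intro y h1 h2
        constructor
        · intro h; exact Or.inl h
        · rintro (h | h)
          · exact h
          · have h' : y = x := h
            subst h'
            exact Or.inr (iA' h1 h2)
      · intro y h1 h2
        constructor
        · intro h; exact Or.inl h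
        · rintro (h | h)
          · exact h
          · have h' : y = x := h
            subst h'
            exact Or.inr (iB' h1 h2)
      · intro y h1 h2
        constructor
        · intro h; exact Or.inl h
        · rintro (h | h)
          · exact h
          · have h' : y = x := h
            subst h'
            exact Or.inr (iC' h1 h2)
    · intro y hy
      rcases hy with rfl | hy
      · exact Or.inr rfl
      · exact Or.inl (Or.inl (iA hy))
    · intro y hy
      rcases hy with rfl | hy
      · exact Or.inr rfl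
      · exact Or.inl (Or.inl (iB hy))
    · intro y hy
      rcases hy with rfl | hy
      · exact Or.inr rfl
      · exact Or.inl (Or.inl (iC hy))

theorem FinL.swapBC {l p q r : ℝ} (h : FinL l p q r) : FinL l p r q := by
  intro F hF
  obtain ⟨A, B, C, fA, fB, fC, hcl, iA, iB, iC⟩ := h F hF
  exact ⟨A, C, B, fA, fC, fB, hcl.swapBC, iA, iC, iB⟩

theorem FinL.swapAB {l p q r : ℝ} (h : FinL l p q r) : FinL l q p r := by
  intro F hF
  obtain ⟨A, B, C, fA, fB, fC, hcl, iA, iB, iC⟩ := h F hF
  exact ⟨B, A, C, fB, fA, fC, hcl.swapAB, iB, iA, iC⟩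

end SympB
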