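import Pool.Agent.W_MP_93b186_an_helper62.Geo

/-!
# From chord families to the dynamics of the billiard map
-/

namespace SympB

/-- The polygon `v` is described by the parameters `l, p, q, r`. -/
structure IsModel {n : ℕ} (v : ZMod n → ℝ × ℝ) (l p q r : ℝ) : Prop where
  side : ∀ i : ZMod n, ∃ k : Fin 3,
    (∀ z ∈ openSegment ℝ (v i) (v (i + 1)), Bd l ![p, q, r] k z) ∧
    (∀ x w : ℝ × ℝ, cross (v (i + 1) - v i) (w - x) = 0 ↔ co l k w = co l k x) ∧
    (∀ z ∈ segment ℝ (v i) (v (i + 1)), co l k z = 0 ∨ co l k z = l - (![p, q, r] : Fin 3 → ℝ) k)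
  cover : ∀ (k : Fin 3) (z : ℝ × ℝ), Bd l ![p, q, r] k z →
    ∃ i : ZMod n, z ∈ openSegment ℝ (v i) (v (i + 1))
  isB : ∀ z ∈ bdry v, IsB l ![p, q, r] z

section
variable {n : ℕ} {v : ZMod n → ℝ × ℝ} {l p q r : ℝ}

theorem exists_co_ne (l : ℝ) (k : Fin 3) : ∃ x w : ℝ × ℝ, co l k w ≠ co l k x := by
  fin_cases k
  · exact ⟨(0, 0), (1, 0), by simp⟩
  · exact ⟨(0, 0), (0, 1), by simp⟩
  · exact ⟨(0, 0), (0, 1), by simp⟩

theorem cross_zero_left (u : ℝ × ℝ) : cross 0 u = 0 := by simp [cross]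

theorem IsModel.ne (hm : IsModel v l p q r) (i : ZMod n) : v i ≠ v (i + 1) := by
  intro h
  obtain ⟨k, _, h2, _⟩ := hm.side i
  obtain ⟨x, w, hxw⟩ := exists_co_ne l k
  apply hxw
  rw [← h2 x w, ← h, sub_self, cross_zero_left]

theorem mem_bdry_of_segment {i : ZMod n} {z : ℝ × ℝ} (hz : z ∈ segment ℝ (v i) (v (i + 1))) :
    z ∈ bdry v := Set.mem_iUnion.2 ⟨i, hz⟩

theorem IsModel.bdry_of_Bd (hm : IsModel v l p q r) {k : Fin 3} {z : ℝ × ℝ}
    (hz : Bd l ![p, q, r] k z) : z ∈ bdry v := by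
  obtain ⟨i, hi⟩ := hm.cover k z hz
  exact mem_bdry_of_segment (openSegment_subset_segment ℝ _ _ hi)

/-- two boundary points on a chord determine all -/
theorem two_points (k : Fin 3) {x z w : ℝ × ℝ}
    (hx : IsB l ![p, q, r] x) (hz : IsB l ![p, q, r] z) (hw : IsB l ![p, q, r] w)
    (h0 : 0 < co l k x) (h1 : co l k x < l - (![p, q, r] : Fin 3 → ℝ) k)
    (hzx : co l k z = co l k x) (hwx : co l k w = co l k x) (hne : z ≠ x) : w = x ∨ w = z := by
  have hx' := eq_E1_or_E2 k hx h0 h1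
  have hz' := eq_E1_or_E2 k hz (by rw [hzx]; exact h0) (by rw [hzx]; exact h1)
  have hw' := eq_E1_or_E2 k hw (by rw [hwx]; exact h0) (by rw [hwx]; exact h1)
  rw [hzx] at hz'
  rw [hwx] at hw'
  rcases hx' with hx' | hx' <;> rcases hz' with hz' | hz' <;> rcases hw' with hw' | hw'
  · exact absurd (hz'.trans hx'.symm) hne
  · exact absurd (hz'.trans hx'.symm) hne
  · exact Or.inl (hw'.trans hx'.symm)
  · exact Or.inr (hw'.trans hz'.symm)
  · exact Or.inr (hw'.trans hz'.symm)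
  · exact Or.inl (hw'.trans hx'.symm)
  · exact absurd (hz'.trans hx'.symm) hne
  · exact absurd (hz'.trans hx'.symm) hne

theorem Par.le {l p q r : ℝ} (hpar : Par l p q r) (k : Fin 3) :
    (![p, q, r] : Fin 3 → ℝ) k ≤ l := by
  fin_cases k
  · exact hpar.lp.le
  · exact hpar.lq.le
  · exact hpar.lr.le

theorem IsModel.step_mk (hm : IsModel v l p q r) (hpar : Par l p q r) {i j k : Fin 3}
    {x y z : ℝ × ℝ}
    (hx : Bd l ![p, q, r] i x) (hy : Bd l ![p, q, r] k y) (hz : Bd l ![p, q, r] j z)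
    (hik : i ≠ k) (hco : co l k z = co l k x) (hne : z ≠ x) : Step v x y z := by
  obtain ⟨s, hs⟩ := hm.cover k y hy
  obtain ⟨k', h1, h2, h3⟩ := hm.side s
  have hk : k' = k := (h1 y hs).unique hy
  subst hk
  have hxr := hx.2 k' (Ne.symm hik)
  refine ⟨s, hs, hm.bdry_of_Bd hx, ?_, hne, ?_⟩
  · intro hxs
    rcases h3 x hxs with h | h <;> linarith
  · ext w
    simp only [Set.mem_ofPred_eq, Set.mem_insert_iff, Set.mem_singleton_iff]
    constructor
    · rintro ⟨hw1, hw2⟩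
      rw [h2] at hw2
      exact two_points k' (hx.isB (hpar.le i)) (hz.isB (hpar.le j)) (hm.isB w hw1) hxr.1 hxr.2
        hco hw2 hne
    · rintro (rfl | rfl)
      · exact ⟨hm.bdry_of_Bd hx, by rw [h2]⟩
      · exact ⟨hm.bdry_of_Bd hz, by rw [h2]; exact hco⟩

theorem cross_smul_self (c : ℝ) (u : ℝ × ℝ) : cross u (c • u) = 0 := by
  simp [cross]; ring

theorem cross_of_segment {a b x w : ℝ × ℝ} (hx : x ∈ segment ℝ a b) (hw : w ∈ segment ℝ a b) :
    cross (b - a) (w - x) = 0 := by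
  rw [segment_eq_image_lineMap] at hx hw
  obtain ⟨s, _, rfl⟩ := hx
  obtain ⟨t, _, rfl⟩ := hw
  simp only [AffineMap.lineMap_apply_module']
  have e : t • (b - a) + a - (s • (b - a) + a) = (t - s) • (b - a) := by
    rw [sub_smul]; abel
  rw [e, cross_smul_self]

/-- Elimination for a step between points in relative interiors of sides. -/
theorem IsModel.step_elim (hm : IsModel v l p q r) {i j : Fin 3}
    {x y z : ℝ × ℝ} (hx : Bd l ![p, q, r] i x) (hz : Bd l ![p, q, r] j z)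
    (h : Step v x y z) : ∃ k, Bd l ![p, q, r] k y ∧ i ≠ k ∧ j ≠ k ∧ co l k z = co l k x ∧
      z ≠ x := by
  obtain ⟨s, hs, hxb, hxs, hne, hset⟩ := h
  obtain ⟨k, h1, h2, h3⟩ := hm.side s
  have hz1 : z ∈ {w : ℝ × ℝ | w ∈ bdry v ∧ cross (v (s + 1) - v s) (w - x) = 0} := by
    rw [hset]; exact Or.inr rfl
  have hco : co l k z = co l k x := by rw [← h2]; exact hz1.2
  have hik : i ≠ k := by
    rintro rfl
    obtain ⟨u, hu⟩ := hm.cover i x hx
    obtain ⟨k', g1, g2, g3⟩ := hm.side u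
    have hk : k' = i := (g1 x hu).unique hx
    subst hk
    have hxu := openSegment_subset_segment ℝ _ _ hu
    have ha : v u ∈ ({x, z} : Set (ℝ × ℝ)) := by
      rw [← hset]
      refine ⟨mem_bdry_of_segment (left_mem_segment ℝ _ _), ?_⟩
      rw [h2, ← g2]
      exact cross_of_segment hxu (left_mem_segment ℝ _ _)
    have hb : v (u + 1) ∈ ({x, z} : Set (ℝ × ℝ)) := by
      rw [← hset]
      refine ⟨mem_bdry_of_segment (right_mem_segment ℝ _ _), ?_⟩
      rw [h2, ← g2]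
      exact cross_of_segment hxu (right_mem_segment ℝ _ _)
    have hax : v u ≠ x := by
      rintro rfl
      exact hm.ne u (left_mem_openSegment_iff.1 hu)
    have hbx : v (u + 1) ≠ x := by
      rintro rfl
      exact hm.ne u (right_mem_openSegment_iff.1 hu)
    have ha' : v u = z := by
      rcases ha with h | h
      · exact absurd h hax
      · exact h
    have hb' : v (u + 1) = z := by
      rcases hb with h | h
      · exact absurd h hbx
      · exact h
    exact hm.ne u (ha'.trans hb'.symm)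
  refine ⟨k, h1 y hs, hik, ?_, hco, hne⟩
  rintro rfl
  have hxr := hx.2 j (Ne.symm hik)
  rcases hz.1 with h | h <;> linarith

/-- the map is injective -/
theorem IsModel.step_inj (hm : IsModel v l p q r) {x x' y z : ℝ × ℝ}
    (h : Step v x y z) (h' : Step v x' y z) : x = x' := by
  obtain ⟨s, hs, hxb, hxs, hne, hset⟩ := h
  obtain ⟨s', hs', hxb', hxs', hne', hset'⟩ := h'
  obtain ⟨k, h1, h2, h3⟩ := hm.side s
  obtain ⟨k', h1', h2', h3'⟩ := hm.side s'
  have hk : k' = k := (h1' y hs').unique (h1 y hs)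
  subst hk
  have hz1 : z ∈ {w : ℝ × ℝ | w ∈ bdry v ∧ cross (v (s + 1) - v s) (w - x) = 0} := by
    rw [hset]; exact Or.inr rfl
  have hz2 : z ∈ {w : ℝ × ℝ | w ∈ bdry v ∧ cross (v (s' + 1) - v s') (w - x') = 0} := by
    rw [hset']; exact Or.inr rfl
  have e1 : co l k' z = co l k' x := by rw [← h2]; exact hz1.2
  have e2 : co l k' z = co l k' x' := by rw [← h2']; exact hz2.2
  have hx1 : x' ∈ ({x, z} : Set (ℝ × ℝ)) := by
    rw [← hset]
    exact ⟨hxb', by rw [h2, ← e2, e1]⟩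
  rcases hx1 with h | h
  · exact h.symm
  · exact absurd h.symm hne'

/-- the map is a function -/
theorem IsModel.step_fun (hm : IsModel v l p q r) {x y z z' : ℝ × ℝ}
    (h : Step v x y z) (h' : Step v x y z') : z = z' := by
  obtain ⟨s, hs, hxb, hxs, hne, hset⟩ := h
  obtain ⟨s', hs', hxb', hxs', hne', hset'⟩ := h'
  obtain ⟨k, h1, h2, h3⟩ := hm.side s
  obtain ⟨k', h1', h2', h3'⟩ := hm.side s'
  have hk : k' = k := (h1' y hs').unique (h1 y hs)
  subst hk
  have hz2 : z' ∈ {w : ℝ × ℝ | w ∈ bdry v ∧ cross (v (s' + 1) - v s') (w - x) = 0} := by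
    rw [hset']; exact Or.inr rfl
  have hx1 : z' ∈ ({x, z} : Set (ℝ × ℝ)) := by
    rw [← hset]
    refine ⟨hz2.1, ?_⟩
    have := hz2.2
    rw [h2'] at this
    rw [h2]; exact this
  rcases hx1 with h | h
  · exact absurd h hne'
  · exact h.symm

/-- the finite set of boundary points carried by finite chord families -/
theorem finite_pts {S : Fin 3 → Set ℝ} (hS : ∀ j, (S j).Finite) (P : Fin 3 → ℝ) :
    {z : ℝ × ℝ | ∃ k, Bd l P k z ∧ ∀ j, j ≠ k → co l j z ∈ S j}.Finite := by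
  have h : {z : ℝ × ℝ | ∃ k, Bd l P k z ∧ ∀ j, j ≠ k → co l j z ∈ S j} ⊆
      (((S 1) ×ˢ (S 2)).image (fun x : ℝ × ℝ => (l - x.1 - x.2, x.1))) ∪
      (((S 0) ×ˢ (S 2)).image (fun x : ℝ × ℝ => (x.1, l - x.1 - x.2))) ∪
      ((S 0) ×ˢ (S 1)) := by
    rintro z ⟨k, _, hk⟩
    fin_cases k
    · refine Or.inl (Or.inl ⟨(z.2, l - z.1 - z.2), ⟨hk 1 (by decide), hk 2 (by decide)⟩, ?_⟩)
      apply Prod.ext
      · show l - z.2 - (l - z.1 - z.2) = z.1
        ring
      · rfl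
    · refine Or.inl (Or.inr ⟨(z.1, l - z.1 - z.2), ⟨hk 0 (by decide), hk 2 (by decide)⟩, ?_⟩)
      apply Prod.ext
      · rfl
      · show l - z.1 - (l - z.1 - z.2) = z.2
        ring
    · exact Or.inr ⟨hk 0 (by decide), hk 1 (by decide)⟩
  exact ((((hS 1).prod (hS 2)).image _).union (((hS 0).prod (hS 2)).image _)).union
    ((hS 0).prod (hS 1)) |>.subset h

/-- If all chord leaves are finite, then property (AP) holds. -/
theorem IsModel.ap_of_fin (hm : IsModel v l p q r) (hfin : FinL l p q r) : AP v := by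
  intro x hx
  -- all points are in the relative interior of a side
  have hB : ∀ k : ℤ, ∃ d : Fin 3, Bd l ![p, q, r] d (x k) := by
    intro k
    obtain ⟨s, hs, _⟩ := hx (k - 1)
    obtain ⟨d, h1, _⟩ := hm.side s
    have e : k - 1 + 1 = k := by ring
    rw [e] at hs
    exact ⟨d, h1 _ hs⟩
  choose d hd using hB
  have hstep : ∀ k : ℤ, d k ≠ d (k + 1) ∧ d (k + 2) ≠ d (k + 1) ∧
      co l (d (k + 1)) (x (k + 2)) = co l (d (k + 1)) (x k) := by
    intro k
    obtain ⟨e, h1, h2, h3, h4, _⟩ := hm.step_elim (hd k) (hd (k + 2)) (hx k)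
    have : e = d (k + 1) := h1.unique (hd (k + 1))
    subst this
    exact ⟨h2, h3, h4⟩
  obtain ⟨A, B, C, fA, fB, fC, hcl, iA, iB, iC⟩ := hfin
    ((Set.range (fun j : Fin 3 => co l j (x 0))) ∪ (Set.range (fun j : Fin 3 => co l j (x 1))))
    ((Set.finite_range _).union (Set.finite_range _))
  set S : Fin 3 → Set ℝ := ![A, B, C] with hS
  have hSfin : ∀ j, (S j).Finite := by
    intro j; fin_cases j
    · exact fA
    · exact fB
    · exact fC
  have hinit : ∀ j : Fin 3, co l j (x 0) ∈ S j ∧ co l j (x 1) ∈ S j := by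
    intro j
    fin_cases j
    · exact ⟨iA (Or.inl ⟨0, rfl⟩), iA (Or.inr ⟨0, rfl⟩)⟩
    · exact ⟨iB (Or.inl ⟨1, rfl⟩), iB (Or.inr ⟨1, rfl⟩)⟩
    · exact ⟨iC (Or.inl ⟨2, rfl⟩), iC (Or.inr ⟨2, rfl⟩)⟩
  have hmem : ∀ m : ℕ, (∀ j, j ≠ d (m : ℤ) → co l j (x m) ∈ S j) ∧
      (∀ j, j ≠ d ((m : ℤ) + 1) → co l j (x (m + 1)) ∈ S j) := by
    intro m
    induction m with
    | zero =>
      refine ⟨fun j _ => ?_, fun j _ => ?_⟩
      · simpa using (hinit j).1
      · simpa using (hinit j).2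
    | succ m ih =>
      obtain ⟨ih1, ih2⟩ := ih
      obtain ⟨s1, s2, s3⟩ := hstep m
      refine ⟨?_, ?_⟩
      · push_cast; exact ih2
      · have e : ((m + 1 : ℕ) : ℤ) + 1 = (m : ℤ) + 2 := by push_cast; ring
        rw [e]
        have h1 : co l (d ((m : ℤ) + 1)) (x ((m : ℤ) + 2)) ∈ S (d ((m : ℤ) + 1)) := by
          rw [s3]; exact ih1 _ (Ne.symm s1)
        intro j hj
        by_cases hjj : j = d ((m : ℤ) + 1)
        · rw [hjj]; exact h1
        · exact hcl.pt (hd ((m : ℤ) + 2)) (Ne.symm s2) hj (Ne.symm hjj) h1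
  -- pigeonhole
  set Z : Set (ℝ × ℝ) := {z : ℝ × ℝ | ∃ k, Bd l ![p, q, r] k z ∧ ∀ j, j ≠ k → co l j z ∈ S j}
  have hZ : Z.Finite := finite_pts hSfin _
  have hxZ : ∀ m : ℕ, x m ∈ Z := fun m => ⟨d m, hd m, (hmem m).1⟩
  have hfinZ : Finite (Z ×ˢ Z : Set ((ℝ × ℝ) × (ℝ × ℝ))) := (hZ.prod hZ).to_subtype
  let f : ℕ → (Z ×ˢ Z : Set ((ℝ × ℝ) × (ℝ × ℝ))) := fun m =>
    ⟨(x m, x (m + 1)), hxZ m, by have := hxZ (m + 1); push_cast at this; exact this⟩
  obtain ⟨m1, m2, hne, heq⟩ := Finite.exists_ne_map_eq_of_infinite f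
  -- wlog m1 < m2
  have main : ∀ m1 m2 : ℕ, m1 < m2 → x m1 = x m2 → x (m1 + 1) = x (m2 + 1) →
      ∃ m : ℕ, 1 ≤ m ∧ x m = x 0 ∧ x (m + 1) = x 1 := by
    intro m1
    induction m1 with
    | zero =>
      intro m2 hlt h1 h2
      refine ⟨m2, hlt, ?_, ?_⟩
      · simpa using h1.symm
      · simpa using h2.symm
    | succ m1 ih =>
      intro m2 hlt h1 h2
      obtain ⟨m3, rfl⟩ : ∃ m3, m2 = m3 + 1 := ⟨m2 - 1, by omega⟩
      push_cast at h1 h2
      have s1 := hx (m1 : ℤ)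
      have s2 := hx (m3 : ℤ)
      have e1 : (m1 : ℤ) + 1 + 1 = m1 + 2 := by ring
      have e2 : (m3 : ℤ) + 1 + 1 = m3 + 2 := by ring
      rw [e1, e2] at h2
      rw [h1, h2] at s1
      exact ih m3 (by omega) (hm.step_inj s1 s2) h1
  have heq1 : x m1 = x m2 := congrArg (fun u => u.1.1) heq
  have heq2 : x (m1 + 1) = x (m2 + 1) := congrArg (fun u => u.1.2) heq
  rcases lt_or_gt_of_ne hne with h | h
  · exact main m1 m2 h heq1 heq2
  · exact main m2 m1 h heq1.symm heq2.symm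

end

end SympB
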