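import Pool.Agent.W_MP_93b186_an_helper62.Fin

/-!
# Odd closed leaves and infinite leaves
-/

namespace SympB

/-- All chords of the family are non-degenerate and avoid the vertices. -/
structure Reg (l p q r : ℝ) (A B C : Set ℝ) : Prop where
  a : ∀ x ∈ A, 0 < x ∧ x < l - p ∧ x ≠ q ∧ x ≠ r
  b : ∀ x ∈ B, 0 < x ∧ x < l - q ∧ x ≠ p ∧ x ≠ r
  c : ∀ x ∈ C, 0 < x ∧ x < l - r ∧ x ≠ p ∧ x ≠ q

/-- There is a finite regular closed family with an odd number of chords. -/
def OddFam (l p q r : ℝ) : Prop :=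
  ∃ A B C : Set ℝ, A.Finite ∧ B.Finite ∧ C.Finite ∧ Closed l p q r A B C ∧ Reg l p q r A B C ∧
    Odd (A.ncard + B.ncard + C.ncard)

/-- There is a regular closed family that is disjoint from all finite closed families. -/
def InfFam (l p q r : ℝ) : Prop :=
  ∃ A B C : Set ℝ, Closed l p q r A B C ∧ Reg l p q r A B C ∧ (A ∪ B ∪ C).Nonempty ∧
    ∀ A1 B1 C1 : Set ℝ, A1.Finite → B1.Finite → C1.Finite → Closed l p q r A1 B1 C1 →
      (∀ x ∈ A, x ∉ A1) ∧ (∀ x ∈ B, x ∉ B1) ∧ (∀ x ∈ C, x ∉ C1)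

section
variable {l p q r : ℝ}

theorem Reg.swapBC {A B C : Set ℝ} (h : Reg l p q r A B C) : Reg l p r q A C B where
  a := fun x hx => let ⟨h1, h2, h3, h4⟩ := h.a x hx; ⟨h1, h2, h4, h3⟩
  b := h.c
  c := h.b

theorem Reg.swapAB {A B C : Set ℝ} (h : Reg l p q r A B C) : Reg l q p r B A C where
  a := h.b
  b := h.a
  c := fun x hx => let ⟨h1, h2, h3, h4⟩ := h.c x hx; ⟨h1, h2, h4, h3⟩

theorem OddFam.swapBC (h : OddFam l p q r) : OddFam l p r q := by
  obtain ⟨A, B, C, fA, fB, fC, hcl, hreg, hodd⟩ := h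
  refine ⟨A, C, B, fA, fC, fB, hcl.swapBC, hreg.swapBC, ?_⟩
  rwa [add_right_comm] at hodd

theorem OddFam.swapAB (h : OddFam l p q r) : OddFam l q p r := by
  obtain ⟨A, B, C, fA, fB, fC, hcl, hreg, hodd⟩ := h
  refine ⟨B, A, C, fB, fA, fC, hcl.swapAB, hreg.swapAB, ?_⟩
  rwa [add_comm A.ncard] at hodd

theorem InfFam.swapBC (h : InfFam l p q r) : InfFam l p r q := by
  obtain ⟨A, B, C, hcl, hreg, hne, hdis⟩ := h
  refine ⟨A, C, B, hcl.swapBC, hreg.swapBC, ?_, ?_⟩
  · rwa [Set.union_right_comm] at hne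
  · intro A1 B1 C1 f1 f2 f3 hc
    obtain ⟨h1, h2, h3⟩ := hdis A1 C1 B1 f1 f3 f2 hc.swapBC
    exact ⟨h1, h3, h2⟩

theorem InfFam.swapAB (h : InfFam l p q r) : InfFam l q p r := by
  obtain ⟨A, B, C, hcl, hreg, hne, hdis⟩ := h
  refine ⟨B, A, C, hcl.swapAB, hreg.swapAB, ?_, ?_⟩
  · rwa [Set.union_comm A] at hne
  · intro A1 B1 C1 f1 f2 f3 hc
    obtain ⟨h1, h2, h3⟩ := hdis B1 A1 C1 f2 f1 f3 hc.swapAB
    exact ⟨h2, h1, h3⟩

/-- The core leaf. -/
theorem OddFam.core (hp : 2 * p < l) (hq : 2 * q < l) (hr : 2 * r < l) (hl : 0 < l) :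
    OddFam l p q r := by
  refine ⟨{l / 2}, {l / 2}, {l / 2}, by simp, by simp, by simp, ?_, ?_, ?_⟩
  · constructor <;> intro a h1 h2 <;> simp only [Set.mem_singleton_iff] <;> constructor <;>
      intro h <;> linarith
  · constructor <;> intro x hx <;> (have hx' : x = l / 2 := hx) <;> subst hx' <;>
      refine ⟨by linarith, by linarith, ?_, ?_⟩ <;> intro h <;> linarith
  · simp only [Set.ncard_singleton]
    decide

theorem ncard_RB {A' B' C' : Set ℝ} (hrd : r < l - p)
    (hreg : Reg p (2 * p - l) q r A' B' C') (fA : A'.Finite) (fB : B'.Finite) :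
    (RB l p r A' B').ncard = B'.ncard + A'.ncard := by
  have h : RB l p r A' B' = (fun b => b + (l - p)) '' B' ∪
      (fun a => if a < r then r - a else a) '' A' := by
    ext b
    constructor
    · rintro (⟨_, hb⟩ | ⟨h0, h1, hb⟩ | ⟨h0, h1, hb⟩)
      · exact Or.inl ⟨_, hb, by ring⟩
      · refine Or.inr ⟨_, hb, ?_⟩
        have hb' := hreg.a _ hb
        have : r - b < r := by
          rcases eq_or_lt_of_le h0 with h | h
          · exfalso; apply hb'.2.2.2; rw [← h]; ring
          · linarith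
        simp [this]
      · refine Or.inr ⟨_, hb, ?_⟩
        simp [not_lt.2 h0]
    · rintro (⟨b', hb, rfl⟩ | ⟨a, ha, rfl⟩)
      · exact Or.inl ⟨by linarith [(hreg.b _ hb).1], by simpa using hb⟩
      · have ha' := hreg.a _ ha
        by_cases har : a < r
        · simp only [har, if_true]
          exact Or.inr (Or.inl ⟨by linarith, by linarith, by rw [sub_sub_cancel]; exact ha⟩)
        · simp only [har, if_false]
          push Not at har
          exact Or.inr (Or.inr ⟨har, by linarith [ha'.2.1], ha⟩)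
  rw [h, Set.ncard_union_eq ?_ (fB.image _) (fA.image _), Set.ncard_image_of_injective,
    Set.InjOn.ncard_image]
  · intro a ha b hb hab
    have ha' := hreg.a _ ha
    have hb' := hreg.a _ hb
    simp only at hab
    split_ifs at hab with h1 h2 h2
    · linarith
    · exfalso; linarith
    · exfalso; linarith
    · exact hab
  · intro a b hab
    simpa using hab
  · rw [Set.disjoint_left]
    rintro x ⟨b, hb, rfl⟩ ⟨a, ha, hab⟩
    have ha' := hreg.a _ ha
    have hb' := hreg.b _ hb
    simp only at hab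
    split_ifs at hab with h1
    · linarith
    · linarith

theorem ncard_RC {A' B' C' : Set ℝ} (hr : 0 ≤ r)
    (hreg : Reg p (2 * p - l) q r A' B' C') (fA : A'.Finite) (fC : C'.Finite) :
    (RC l p r A' C').ncard = C'.ncard + A'.ncard := by
  have h : RC l p r A' C' = C' ∪
      (fun a => if a < r then p - r + a else l - a) '' A' := by
    ext c
    constructor
    · rintro (⟨_, hb⟩ | ⟨h0, h1, hb⟩ | ⟨h0, h1, hb⟩)
      · exact Or.inl hb
      · refine Or.inr ⟨_, hb, ?_⟩
        have h : ¬ (l - c < r) := by linarith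
        simp [h]
      · refine Or.inr ⟨_, hb, ?_⟩
        have hb' := hreg.a _ hb
        have : r - p + c < r := by
          rcases eq_or_lt_of_le h1 with h | h
          · exfalso; apply hb'.2.2.2; rw [h]; ring
          · linarith
        simp only [this, if_true]
        ring
    · rintro (hc | ⟨a, ha, rfl⟩)
      · exact Or.inl ⟨by linarith [(hreg.c _ hc).2.1], hc⟩
      · have ha' := hreg.a _ ha
        by_cases har : a < r
        · simp only [har, if_true]
          refine Or.inr (Or.inr ⟨by linarith, by linarith, ?_⟩)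
          have e : r - p + (p - r + a) = a := by ring
          rw [e]; exact ha
        · simp only [har, if_false]
          push Not at har
          exact Or.inr (Or.inl ⟨by linarith, by linarith, by rw [sub_sub_cancel]; exact ha⟩)
  rw [h, Set.ncard_union_eq ?_ fC (fA.image _), Set.InjOn.ncard_image]
  · intro a ha b hb hab
    have ha' := hreg.a _ ha
    have hb' := hreg.a _ hb
    simp only at hab
    split_ifs at hab with h1 h2 h2
    · linarith
    · exfalso; linarith
    · exfalso; linarith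
    · linarith
  · rw [Set.disjoint_left]
    rintro x hc ⟨a, ha, hab⟩
    have ha' := hreg.a _ ha
    have hc' := hreg.c _ hc
    simp only at hab
    split_ifs at hab with h1
    · linarith
    · linarith

theorem Reg.R1 {A' B' C' : Set ℝ} (hr : 0 ≤ r)
    (hd : q + r ≤ l - p) (hrd : r < l - p) (hp : l - p < p)
    (hreg : Reg p (2 * p - l) q r A' B' C') :
    Reg l p q r A' (RB l p r A' B') (RC l p r A' C') where
  a := fun x hx => by
    have h := hreg.a x hx
    exact ⟨h.1, by linarith [h.2.1], h.2.2⟩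
  b := fun x hx => by
    rcases hx with ⟨_, hb⟩ | ⟨h0, h1, hb⟩ | ⟨h0, h1, hb⟩
    · have h := hreg.b _ hb
      refine ⟨by linarith [h.1], by linarith [h.2.1], ?_, by linarith [h.1]⟩
      intro hx
      apply h.2.2.1
      rw [hx]; ring
    · have h := hreg.a _ hb
      refine ⟨?_, by linarith [h.1], by linarith [h.1], by linarith [h.1]⟩
      rcases eq_or_lt_of_le h0 with h2 | h2
      · exfalso; apply h.2.2.2; rw [← h2]; ring
      · exact h2
    · have h := hreg.a _ hb
      exact ⟨h.1, by linarith [h.1], by linarith [h.1], h.2.2.2⟩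
  c := fun x hx => by
    rcases hx with ⟨_, hb⟩ | ⟨h0, h1, hb⟩ | ⟨h0, h1, hb⟩
    · have h := hreg.c _ hb
      refine ⟨h.1, by linarith [h.2.1], by linarith [h.2.1], h.2.2.2⟩
    · have h := hreg.a _ hb
      have h2 : x ≠ l - r := by
        intro h3; apply h.2.2.2; rw [h3]; ring
      have h3 : x < l - r := lt_of_le_of_ne h1 h2
      refine ⟨by linarith, h3, ?_, by linarith⟩
      linarith [h.2.1]
    · have h := hreg.a _ hb
      have h2 : x ≠ p := by
        intro h3; apply h.2.2.2; rw [h3]; ring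
      have h3 : x < p := lt_of_le_of_ne h1 h2
      refine ⟨by linarith, by linarith, h2, by linarith [h.1]⟩

theorem Closed.R1reg {A' B' C' : Set ℝ} (hr : 0 ≤ r)
    (hd : q + r ≤ l - p) (hrd : r < l - p) (hp : l - p < p)
    (hcl : Closed p (2 * p - l) q r A' B' C')
    (hreg : Reg p (2 * p - l) q r A' B' C') :
    Closed l p q r A' (RB l p r A' B') (RC l p r A' C') := by
  refine Closed.R1 hr hd hrd hp hcl False ?_ ?_ ?_ ?_ ?_ ?_ ?_ <;> rw [iff_false] <;> intro h
  · exact lt_irrefl _ (hreg.a _ h).1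
  · exact (hreg.a _ h).2.2.2 rfl
  · exact lt_irrefl _ (hreg.b _ h).1
  · exact (hreg.b _ h).2.2.2 rfl
  · exact (hreg.c _ h).2.2.1 rfl
  · exact lt_irrefl _ (hreg.c _ h).2.1
  · have := (hreg.a _ h).2.1
    linarith

theorem OddFam.R1 (hr : 0 ≤ r)
    (hd : q + r ≤ l - p) (hrd : r < l - p) (hp : l - p < p)
    (h : OddFam p (2 * p - l) q r) : OddFam l p q r := by
  obtain ⟨A', B', C', fA, fB, fC, hcl, hreg, hodd⟩ := h
  refine ⟨A', RB l p r A' B', RC l p r A' C', fA, ?_, ?_, hcl.R1reg hr hd hrd hp hreg,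
    hreg.R1 hr hd hrd hp, ?_⟩
  · refine (((fB.image (fun b => b + (l - p))).union (fA.image (fun a => r - a))).union fA).subset
      ?_
    rintro b (⟨_, hb⟩ | ⟨_, _, hb⟩ | ⟨_, _, hb⟩)
    · exact Or.inl (Or.inl ⟨_, hb, by ring⟩)
    · exact Or.inl (Or.inr ⟨_, hb, by ring⟩)
    · exact Or.inr hb
  · refine ((fC.union (fA.image (fun a => l - a))).union (fA.image (fun a => a + p - r))).subset
      ?_
    rintro b (⟨_, hb⟩ | ⟨_, _, hb⟩ | ⟨_, _, hb⟩)
    · exact Or.inl (Or.inl hb)
    · exact Or.inl (Or.inr ⟨_, hb, by ring⟩)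
    · exact Or.inr ⟨_, hb, by ring⟩
  · rw [ncard_RB hrd hreg fA fB, ncard_RC hr hreg fA fC]
    have e : A'.ncard + (B'.ncard + A'.ncard) + (C'.ncard + A'.ncard) =
      (A'.ncard + B'.ncard + C'.ncard) + 2 * A'.ncard := by ring
    rw [e]
    exact hodd.add_even (even_two_mul _)

theorem InfFam.R1 (hq : 0 ≤ q) (hr : 0 ≤ r)
    (hd : q + r ≤ l - p) (hrd : r < l - p) (hp : l - p < p)
    (h : InfFam p (2 * p - l) q r) : InfFam l p q r := by
  obtain ⟨A', B', C', hcl, hreg, hne, hdis⟩ := h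
  have hreg2 := hreg.R1 hr hd hrd hp
  refine ⟨A', RB l p r A' B', RC l p r A' C', hcl.R1reg hr hd hrd hp hreg,
    hreg2, ?_, ?_⟩
  · obtain ⟨x, (hx | hx) | hx⟩ := hne
    · exact ⟨x, Or.inl (Or.inl hx)⟩
    · exact ⟨x + (l - p), Or.inl (Or.inr (Or.inl ⟨by linarith [(hreg.b _ hx).1],
        by simpa using hx⟩))⟩
    · exact ⟨x, Or.inr (Or.inl ⟨by linarith [(hreg.c _ hx).2.1], hx⟩)⟩
  · intro A1 B1 C1 f1 f2 f3 h1
    obtain ⟨dA, dB, dC⟩ := hdis A1 {b | b + (l - p) ∈ B1} C1 f1
      (f2.preimage (Function.Injective.injOn (fun a b h => by simpa using h))) f3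
      (h1.R1inv hq hr hd hp)
    refine ⟨dA, ?_, ?_⟩
    · intro x hx
      have hx' := hreg2.b x hx
      rcases hx with ⟨_, hb⟩ | ⟨h3, h4, hb⟩ | ⟨h3, h4, hb⟩
      · intro hx1
        refine dB _ hb ?_
        show x - (l - p) + (l - p) ∈ B1
        rwa [sub_add_cancel]
      · intro hx1
        refine dA _ hb ?_
        have hb' := hreg.a _ hb
        rw [h1.s1 (r - x) (by linarith) (by linarith), sub_sub_cancel]
        exact hx1
      · intro hx1
        refine dA _ hb ?_
        have hb' := hreg.a _ hb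
        have hxr : r < x := lt_of_le_of_ne h3 (Ne.symm hb'.2.2.2)
        rw [h1.s2 x hxr (by linarith), ← h1.s5 x hxr (by linarith)]
        exact hx1
    · intro x hx
      have hx' := hreg2.c x hx
      rcases hx with ⟨_, hb⟩ | ⟨h3, h4, hb⟩ | ⟨h3, h4, hb⟩
      · exact dC _ hb
      · intro hx1
        refine dA _ hb ?_
        have hb' := hreg.a _ hb
        rw [h1.s2 (l - x) (by linarith) (by linarith), sub_sub_cancel]
        exact hx1
      · intro hx1
        refine dA _ hb ?_
        have hb' := hreg.a _ hb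
        have hxp : x < p := lt_of_le_of_ne h4 hx'.2.2.1
        have e1 := h1.s6 (p - x) (by linarith) (by linarith)
        rw [sub_sub_cancel] at e1
        rw [h1.s1 _ (by linarith) (by linarith)]
        have e : r - (r - p + x) = p - x := by ring
        rw [e, e1]
        exact hx1

end

end SympB
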