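import Pool.Agent.W_MP_93b186_an_helper62.Red

/-!
# Finiteness of all leaves
-/

namespace SympB

/-- the class of values generated by a finite set -/
def Dcl (p g : ℝ) (F : Set ℝ) (u : ℝ) : Prop :=
  ∃ s ∈ F, ∃ k : ℤ, u = s + k * g ∨ u = p - s + k * g

theorem Dcl.shift {p g : ℝ} {F : Set ℝ} {u : ℝ} (h : Dcl p g F u) (j : ℤ) :
    Dcl p g F (u + j * g) := by
  obtain ⟨s, hs, k, hk | hk⟩ := h
  · exact ⟨s, hs, k + j, Or.inl (by rw [hk]; push_cast; ring)⟩
  · exact ⟨s, hs, k + j, Or.inr (by rw [hk]; push_cast; ring)⟩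

theorem Dcl.flip {p g : ℝ} {F : Set ℝ} {u : ℝ} (h : Dcl p g F u) : Dcl p g F (p - u) := by
  obtain ⟨s, hs, k, hk | hk⟩ := h
  · exact ⟨s, hs, -k, Or.inr (by rw [hk]; push_cast; ring)⟩
  · exact ⟨s, hs, -k, Or.inl (by rw [hk]; push_cast; ring)⟩

theorem Dcl.shift_iff {p g : ℝ} {F : Set ℝ} (u : ℝ) (j : ℤ) :
    Dcl p g F (u + j * g) ↔ Dcl p g F u := by
  constructor
  · intro h
    have := h.shift (-j)
    have e : u + j * g + ((-j : ℤ) : ℝ) * g = u := by push_cast; ring
    rwa [e] at this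
  · intro h; exact h.shift j

theorem Dcl.flip_iff {p g : ℝ} {F : Set ℝ} (u : ℝ) : Dcl p g F (p - u) ↔ Dcl p g F u := by
  constructor
  · intro h
    have := h.flip
    rwa [sub_sub_cancel] at this
  · exact Dcl.flip

theorem finite_progression {g : ℝ} (hg : 0 < g) (p s : ℝ) :
    {u : ℝ | (0 ≤ u ∧ u ≤ p) ∧ ∃ k : ℤ, u = s + k * g}.Finite := by
  have h1 : {k : ℤ | 0 ≤ s + k * g ∧ s + k * g ≤ p}.Finite := by
    refine (Set.finite_Icc (⌈-s / g⌉) (⌊(p - s) / g⌋)).subset ?_
    rintro k ⟨h1, h2⟩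
    constructor
    · rw [Int.ceil_le, div_le_iff₀ hg]; linarith
    · rw [Int.le_floor, le_div_iff₀ hg]; linarith
  refine (h1.image (fun k : ℤ => s + k * g)).subset ?_
  rintro u ⟨⟨h2, h3⟩, k, rfl⟩
  exact ⟨k, ⟨h2, h3⟩, rfl⟩

theorem finite_Dcl {p g : ℝ} (hg : 0 < g) {F : Set ℝ} (hF : F.Finite) :
    {u : ℝ | (0 ≤ u ∧ u ≤ p) ∧ Dcl p g F u}.Finite := by
  have h : ({u : ℝ | (0 ≤ u ∧ u ≤ p) ∧ Dcl p g F u}) ⊆
      (⋃ s ∈ F, {u : ℝ | (0 ≤ u ∧ u ≤ p) ∧ ∃ k : ℤ, u = s + k * g}) ∪
      (⋃ s ∈ F, {u : ℝ | (0 ≤ u ∧ u ≤ p) ∧ ∃ k : ℤ, u = (p - s) + k * g}) := by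
    rintro u ⟨h1, s, hs, k, hk | hk⟩
    · exact Or.inl (Set.mem_biUnion hs ⟨h1, k, hk⟩)
    · exact Or.inr (Set.mem_biUnion hs ⟨h1, k, hk⟩)
  refine Set.Finite.subset (Set.Finite.union ?_ ?_) h
  · exact hF.biUnion fun s _ => finite_progression hg p s
  · exact hF.biUnion fun s _ => finite_progression hg p (p - s)

/-- Reduced polygons with commensurable differences, or with `r = 0`. -/
theorem FinL.comm {l p q r g : ℝ} (hq : 0 ≤ q) (hr : 0 ≤ r) (hqp : q ≤ p)
    (hrp : r ≤ p) (hpl : 2 * p ≤ l) (hl : p + q + r ≤ l) (hg : 0 < g)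
    {m n : ℤ} (hm : p - q = m * g) (hn : r = 0 ∨ p - r = n * g) : FinL l p q r := by
  refine FinL.red hq hr hqp hrp hpl hl fun F hF => ?_
  refine ⟨{u : ℝ | (0 ≤ u ∧ u ≤ p) ∧ Dcl p g F u}, finite_Dcl hg hF, fun x hx => hx.1, ?_, ?_⟩
  · intro b h1 h2
    have e1 : Dcl p g F (q - (p - b)) ↔ Dcl p g F b := by
      have : q - (p - b) = b + ((-m : ℤ) : ℝ) * g := by push_cast; linarith
      rw [this, Dcl.shift_iff]
    have e2 : Dcl p g F (p - b) ↔ Dcl p g F b := Dcl.flip_iff b
    have e3 : b ≤ r → (Dcl p g F (r - b) ↔ Dcl p g F b) := by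
      intro hbr
      rcases hn with hn | hn
      · exfalso; linarith
      · have : r - b = (p - b) + ((-n : ℤ) : ℝ) * g := by push_cast; linarith
        rw [this, Dcl.shift_iff, e2]
    have L : ((b ≤ r ∧ r - b ∈ {u : ℝ | (0 ≤ u ∧ u ≤ p) ∧ Dcl p g F u}) ∨
        (r ≤ b ∧ b ∈ {u : ℝ | (0 ≤ u ∧ u ≤ p) ∧ Dcl p g F u})) ↔ Dcl p g F b := by
      constructor
      · rintro (⟨h3, _, h4⟩ | ⟨_, _, h4⟩)
        · exact (e3 h3).1 h4
        · exact h4
      · intro h
        rcases le_total b r with hb | hb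
        · exact Or.inl ⟨hb, ⟨by linarith, by linarith⟩, (e3 hb).2 h⟩
        · exact Or.inr ⟨hb, ⟨by linarith, by linarith⟩, h⟩
    have R : ((p - b ≤ q ∧ q - (p - b) ∈ {u : ℝ | (0 ≤ u ∧ u ≤ p) ∧ Dcl p g F u}) ∨
        (q ≤ p - b ∧ p - b ∈ {u : ℝ | (0 ≤ u ∧ u ≤ p) ∧ Dcl p g F u})) ↔ Dcl p g F b := by
      constructor
      · rintro (⟨h3, _, h4⟩ | ⟨_, _, h4⟩)
        · exact e1.1 h4
        · exact e2.1 h4
      · intro h
        rcases le_total (p - b) q with hb | hb
        · exact Or.inl ⟨hb, ⟨by linarith, by linarith⟩, e1.2 h⟩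
        · exact Or.inr ⟨hb, ⟨by linarith, by linarith⟩, e2.2 h⟩
    rw [L, R]
  · intro x hx h1 h2
    exact ⟨⟨h1, h2⟩, x, hx, 0, Or.inl (by simp)⟩

/-- All polygons with `r = 0` (pentagons, trapezoids, triangles) have finite leaves. -/
theorem finL_pent {t : ℝ} (ht : 0 < t) : ∀ N : ℕ, ∀ p q : ℝ, 0 ≤ p → 0 ≤ q → p + q ≤ N * t →
    FinL (p + q + t) p q 0 := by
  intro N
  induction N with
  | zero =>
    intro p q hp hq h
    simp only [Nat.cast_zero, zero_mul] at h
    have hp0 : p = 0 := by linarith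
    have hq0 : q = 0 := by linarith
    subst hp0; subst hq0
    exact FinL.comm (g := 1) (m := 0) (n := 0) le_rfl le_rfl le_rfl le_rfl (by linarith)
      (by linarith) one_pos (by simp) (Or.inl rfl)
  | succ N ih =>
    -- a version with `q ≤ p`
    have key : ∀ p q : ℝ, 0 ≤ q → q ≤ p → p + q ≤ (N + 1 : ℕ) * t → FinL (p + q + t) p q 0 := by
      intro p q hq hqp h
      push_cast at h
      rcases le_or_gt p (t + q) with h1 | h1
      · rcases eq_or_lt_of_le hqp with h2 | h2
        · exact FinL.comm (g := 1) (m := 0) (n := 0) hq le_rfl hqp (by linarith) (by linarith)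
            (by linarith) one_pos (by rw [h2]; simp) (Or.inl rfl)
        · exact FinL.comm (g := p - q) (m := 1) (n := 0) hq le_rfl hqp (by linarith)
            (by linarith) (by linarith) (by linarith) (by simp) (Or.inl rfl)
      · refine FinL.R1 hq le_rfl (by linarith) (by linarith) (by linarith) ?_
        have := ih (2 * p - (p + q + t)) q (by linarith) hq (by linarith)
        have e : 2 * p - (p + q + t) + q + t = p := by ring
        rwa [e] at this
    intro p q hp hq h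
    rcases le_total q p with h1 | h1
    · exact key p q hq h1 h
    · have := (key q p hp h1 (by linarith)).swapAB
      have e : q + p + t = p + q + t := by ring
      rwa [e] at this

theorem finL_pentagon {p q t : ℝ} (hp : 0 ≤ p) (hq : 0 ≤ q) (ht : 0 < t) :
    FinL (p + q + t) p q 0 := by
  obtain ⟨N, hN⟩ := exists_nat_ge ((p + q) / t)
  exact finL_pent ht N p q hp hq (by rwa [div_le_iff₀ ht] at hN)

/-- Reduced polygons with `q + r < p` have finite leaves. -/
theorem FinL.R2 {l p q r : ℝ} (hq : 0 ≤ q) (hr : 0 ≤ r) (hpl : 2 * p ≤ l) (hl : p + q + r ≤ l)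
    (hqr : q + r < p) : FinL l p q r := by
  have hfin : FinL p 0 q r := by
    have h := finL_pentagon (p := r) (q := q) (t := p - q - r) hr hq (by linarith)
    have e : r + q + (p - q - r) = p := by ring
    rw [e] at h
    exact h.swapBC.swapAB.swapBC
  refine FinL.red hq hr (by linarith) (by linarith) hpl hl fun F hF => ?_
  obtain ⟨A, B, C, fA, fB, fC, h, iA, iB, iC⟩ := hfin (F ∪ {0, r, q, p - r, p - q})
    (hF.union (by simp))
  have mA : ∀ y, y ∈ ({0, r, q, p - r, p - q} : Set ℝ) → y ∈ A := fun y hy => iA (Or.inr hy)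
  refine ⟨{u | u ∈ A ∧ 0 ≤ u ∧ u ≤ p}, fA.subset (fun x hx => hx.1), fun x hx => hx.2, ?_, ?_⟩
  · intro b h1 h2
    rcases lt_trichotomy b r with hb | hb | hb
    · have e1 := h.s1 (r - b) (by linarith) (by linarith)
      have e2 := h.s3 (p - b) (by linarith) (by linarith)
      rw [sub_sub_cancel] at e1 e2
      constructor
      · rintro (⟨_, h4, _⟩ | ⟨h3, _⟩)
        · exact Or.inr ⟨by linarith, e2.2 (e1.1 h4), by linarith, by linarith⟩
        · exfalso; linarith
      · rintro (⟨h3, _⟩ | ⟨_, h4, _⟩)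
        · exfalso; linarith
        · exact Or.inl ⟨hb.le, e1.2 (e2.1 h4), by linarith, by linarith⟩
    · subst hb
      constructor
      · intro _
        exact Or.inr ⟨by linarith, mA _ (by simp), by linarith, by linarith⟩
      · intro _
        exact Or.inr ⟨le_rfl, mA _ (by simp), by linarith, by linarith⟩
    · rcases lt_trichotomy b (p - q) with hb2 | hb2 | hb2
      · have e1 := h.s2 b hb (by linarith)
        have e2 := h.s5 b hb hb2
        have e3 := h.s3 (p - b) (by linarith) (by linarith)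
        rw [sub_sub_cancel] at e3
        constructor
        · rintro (⟨h3, _⟩ | ⟨_, h4, _⟩)
          · exfalso; linarith
          · exact Or.inr ⟨by linarith, e3.2 (e2.2 (e1.1 h4)), by linarith, by linarith⟩
        · rintro (⟨h3, _⟩ | ⟨_, h4, _⟩)
          · exfalso; linarith
          · exact Or.inr ⟨hb.le, e1.2 (e2.1 (e3.1 h4)), by linarith, by linarith⟩
      · subst hb2
        constructor
        · intro _
          refine Or.inr ⟨by linarith, ?_, by linarith, by linarith⟩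
          rw [sub_sub_cancel]
          exact mA _ (by simp)
        · intro _
          exact Or.inr ⟨by linarith, mA _ (by simp), by linarith, by linarith⟩
      · have e1 := h.s2 b hb (by linarith)
        have e2 := h.s4 (q - (p - b)) (by linarith) (by linarith)
        rw [sub_sub_cancel] at e2
        constructor
        · rintro (⟨h3, _⟩ | ⟨_, h4, _⟩)
          · exfalso; linarith
          · exact Or.inl ⟨by linarith, e2.2 (e1.1 h4), by linarith, by linarith⟩
        · rintro (⟨_, h4, _⟩ | ⟨h3, _⟩)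
          · exact Or.inr ⟨hb.le, e1.2 (e2.1 h4), by linarith, by linarith⟩
          · exfalso; linarith
  · intro x hx h1 h2
    exact ⟨iA (Or.inl hx), h1, h2⟩

end SympB
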