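import Mathlib

/-!
# The parity argument

`X` is a set of points with a direction `dir : X → Fin 3` and partial involutions `φ j`
(`φ j` acts on the points whose direction is not `j`).  The symplectic billiard acts on pairs.
If a finite invariant set has an odd number of points of direction `j0` and `w0` is a point of
direction `≠ j0` with an infinite leaf, then the orbits of the pairs `(v, w0)`, `v` of
direction `j0` in the finite set, cannot all be contained in finite sets.
-/

namespace SympB

/-- partial involutions without fixed points -/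
structure Tri {X : Type*} (dir : X → Fin 3) (φ : Fin 3 → X → X) : Prop where
  inv : ∀ j x, dir x ≠ j → φ j (φ j x) = x
  dir_ne : ∀ j x, dir x ≠ j → dir (φ j x) ≠ j
  ne : ∀ j x, dir x ≠ j → φ j x ≠ x

section
variable {X : Type*} {dir : X → Fin 3} {φ : Fin 3 → X → X}

/-- third letter -/
theorem fin3_third : ∀ a b c d : Fin 3, a ≠ b → b ≠ c → a ≠ c → d ≠ c → d = a ∨ d = b := by
  decide

theorem fin3_ex : ∀ a b : Fin 3, ∃ c, c ≠ a ∧ c ≠ b := by decide

theorem parity (h : Tri dir φ) [DecidableEq X] (S : Finset (X × X))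
    (hS1 : ∀ s ∈ S, dir s.1 ≠ dir s.2)
    (hS2 : ∀ s ∈ S, (φ (dir s.2) s.1, s.2) ∈ S)
    (hS3 : ∀ s ∈ S, (s.1, φ (dir s.1) s.2) ∈ S)
    (j0 : Fin 3) (w0 : X) (hw0 : dir w0 ≠ j0)
    (hodd : Odd ((S.filter (fun s => s.2 = w0 ∧ dir s.1 = j0)).card))
    (hinf : ∀ G : Set X, G.Finite → w0 ∈ G →
      (∀ x ∈ G, ∀ j, dir x ≠ j → φ j x ∈ G) → False) : False := by
  classical
  set f : X → Fin 3 → ZMod 2 :=
    fun w j => ((S.filter (fun s => s.2 = w ∧ dir s.1 = j)).card : ZMod 2) with hf
  -- (1)
  have h1 : ∀ w j j', dir w ≠ j → dir w ≠ j' → j ≠ j' → f w j + f w j' = 0 := by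
    intro w j j' hj hj' hjj
    have e1 : f w j + f w j' = ((S.filter (fun s => s.2 = w)).card : ZMod 2) := by
      have hdis : Disjoint (S.filter (fun s => s.2 = w ∧ dir s.1 = j))
          (S.filter (fun s => s.2 = w ∧ dir s.1 = j')) := by
        rw [Finset.disjoint_left]
        intro s hs hs'
        rw [Finset.mem_filter] at hs hs'
        exact hjj (hs.2.2.symm.trans hs'.2.2)
      rw [hf]
      simp only
      rw [← Nat.cast_add, ← Finset.card_union_of_disjoint hdis]
      congr 2
      ext s
      simp only [Finset.mem_union, Finset.mem_filter]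
      constructor
      · rintro (⟨a, b, _⟩ | ⟨a, b, _⟩)
        · exact ⟨a, b⟩
        · exact ⟨a, b⟩
      · rintro ⟨a, b⟩
        have := hS1 s a
        rw [b] at this
        rcases fin3_third j j' (dir w) (dir s.1) hjj (Ne.symm hj') (Ne.symm hj) this with h | h
        · exact Or.inl ⟨a, b, h⟩
        · exact Or.inr ⟨a, b, h⟩
    rw [e1]
    have e2 : ((S.filter (fun s => s.2 = w)).card : ZMod 2) =
        ∑ s ∈ S.filter (fun s => s.2 = w), (1 : ZMod 2) := by simp
    rw [e2]
    refine Finset.sum_involution (fun s _ => (φ (dir s.2) s.1, s.2)) ?_ ?_ ?_ ?_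
    · intro s _; decide
    · intro s hs _ heq
      rw [Finset.mem_filter] at hs
      exact h.ne _ _ (hS1 s hs.1) (congrArg Prod.fst heq)
    · intro s hs
      rw [Finset.mem_filter] at hs ⊢
      exact ⟨hS2 s hs.1, hs.2⟩
    · intro s hs
      rw [Finset.mem_filter] at hs
      exact Prod.ext (h.inv _ _ (hS1 s hs.1)) rfl
  -- (2)
  have h2 : ∀ w j, dir w ≠ j → f w j = f (φ j w) j := by
    intro w j hj
    rw [hf]
    simp only
    congr 1
    refine Finset.card_bij (fun s _ => (s.1, φ j s.2)) ?_ ?_ ?_
    · intro s hs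
      rw [Finset.mem_filter] at hs ⊢
      obtain ⟨a, b, c⟩ := hs
      refine ⟨?_, by rw [b], c⟩
      have := hS3 s a
      rwa [c] at this
    · intro s hs s' hs' heq
      rw [Finset.mem_filter] at hs hs'
      have := congrArg Prod.fst heq
      exact Prod.ext this (hs.2.1.trans hs'.2.1.symm)
    · intro s hs
      rw [Finset.mem_filter] at hs
      obtain ⟨a, b, c⟩ := hs
      refine ⟨(s.1, w), ?_, ?_⟩
      · rw [Finset.mem_filter]
        refine ⟨?_, rfl, c⟩
        have := hS3 s a
        rw [c, b, h.inv _ _ hj] at this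
        exact this
      · exact Prod.ext rfl b.symm
  refine hinf {w | ∀ j, dir w ≠ j → f w j ≠ 0} ?_ ?_ ?_
  · refine (S.image Prod.snd).finite_toSet.subset ?_
    intro w hw
    obtain ⟨j, hj, _⟩ := fin3_ex (dir w) (dir w)
    have := hw j (Ne.symm hj)
    rw [hf] at this
    simp only at this
    have h3 : (S.filter (fun s => s.2 = w ∧ dir s.1 = j)).card ≠ 0 := by
      intro h0; rw [h0] at this; exact this (by simp)
    obtain ⟨s, hs⟩ := Finset.card_pos.1 (Nat.pos_of_ne_zero h3)
    rw [Finset.mem_filter] at hs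
    simp only [Finset.coe_image, Set.mem_image, Finset.mem_coe]
    exact ⟨s, hs.1, hs.2.1⟩
  · have hne : f w0 j0 ≠ 0 := by
      rw [hf]
      simp only
      rw [Ne, ZMod.natCast_eq_zero_iff_even]
      rw [Nat.not_even_iff_odd]
      exact hodd
    intro j hj
    by_cases hjj : j = j0
    · rw [hjj]; exact hne
    · intro h0
      have := h1 w0 j j0 hj hw0 hjj
      rw [h0, zero_add] at this
      exact hne this
  · intro w hw j hj
    have hne : f (φ j w) j ≠ 0 := by
      rw [← h2 w j hj]; exact hw j hj
    intro j' hj'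
    by_cases hjj : j' = j
    · rw [hjj]; exact hne
    · intro h0
      have := h1 (φ j w) j' j hj' (h.dir_ne j w hj) hjj
      rw [h0, zero_add] at this
      exact hne this

end

end SympB
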