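import Pool.Agent.W_MP_93b186_an_helper62.Algo
import Pool.Agent.W_MP_93b186_an_helper62.Parity

/-!
# Geometry of chords in barycentric-type coordinates

`a = z.1`, `b = z.2`, `c = l - z.1 - z.2`.
-/

namespace SympB

/-- the three coordinates -/
def co (l : ℝ) (k : Fin 3) (z : ℝ × ℝ) : ℝ := ![z.1, z.2, l - z.1 - z.2] k

@[simp] theorem co0 (l : ℝ) (z : ℝ × ℝ) : co l 0 z = z.1 := rfl
@[simp] theorem co1 (l : ℝ) (z : ℝ × ℝ) : co l 1 z = z.2 := rfl
@[simp] theorem co2 (l : ℝ) (z : ℝ × ℝ) : co l 2 z = l - z.1 - z.2 := rfl

theorem co_ext {l : ℝ} {i j : Fin 3} (hij : i ≠ j) {z w : ℝ × ℝ} (h1 : co l i z = co l i w)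
    (h2 : co l j z = co l j w) : z = w := by
  fin_cases i <;> fin_cases j <;> simp at hij h1 h2 <;> apply Prod.ext <;> linarith

/-- `z` is in the relative interior of a side of direction `k`. -/
def Bd (l : ℝ) (P : Fin 3 → ℝ) (k : Fin 3) (z : ℝ × ℝ) : Prop :=
  (co l k z = 0 ∨ co l k z = l - P k) ∧ ∀ j, j ≠ k → 0 < co l j z ∧ co l j z < l - P j

theorem Bd.unique {l : ℝ} {P : Fin 3 → ℝ} {k k' : Fin 3} {z : ℝ × ℝ} (h : Bd l P k z)
    (h' : Bd l P k' z) : k = k' := by
  by_contra hne
  have h1 := h'.2 k hne
  rcases h.1 with h2 | h2 <;> linarith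

/-- `z` is a boundary point of the polygon -/
def IsB (l : ℝ) (P : Fin 3 → ℝ) (z : ℝ × ℝ) : Prop :=
  (∀ j, 0 ≤ co l j z ∧ co l j z ≤ l - P j) ∧ ∃ k, co l k z = 0 ∨ co l k z = l - P k

theorem Bd.isB {l : ℝ} {P : Fin 3 → ℝ} {k : Fin 3} {z : ℝ × ℝ} (hP : P k ≤ l) (h : Bd l P k z) :
    IsB l P z := by
  refine ⟨fun j => ?_, k, h.1⟩
  by_cases hj : j = k
  · subst hj
    rcases h.1 with h1 | h1
    · rw [h1]; exact ⟨le_rfl, by linarith⟩
    · rw [h1]; exact ⟨by linarith, le_rfl⟩
  · exact ⟨(h.2 j hj).1.le, (h.2 j hj).2.le⟩

/-- standing assumptions on the parameters -/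
structure Par (l p q r : ℝ) : Prop where
  hp : 0 ≤ p
  hq : 0 ≤ q
  hr : 0 ≤ r
  hl : p + q + r ≤ l
  lp : p < l
  lq : q < l
  lr : r < l

/-- first endpoint of the chord `(j, s)` -/
def E1 (l _p q r : ℝ) (j : Fin 3) (s : ℝ) : ℝ × ℝ :=
  ![(s, max 0 (r - s)), (max 0 (r - s), s), (max 0 (q - s), l - s - max 0 (q - s))] j

/-- second endpoint of the chord `(j, s)` -/
def E2 (l p q _r : ℝ) (j : Fin 3) (s : ℝ) : ℝ × ℝ :=
  ![(s, l - s - max 0 (q - s)), (l - s - max 0 (p - s), s), (l - s - max 0 (p - s),
    max 0 (p - s))] j

section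
variable {l p q r : ℝ}

theorem co_E1 (j : Fin 3) (s : ℝ) : co l j (E1 l p q r j s) = s := by
  fin_cases j <;> simp [E1]

theorem co_E2 (j : Fin 3) (s : ℝ) : co l j (E2 l p q r j s) = s := by
  fin_cases j <;> simp [E2] <;> ring

theorem E1_ne_E2 (hpar : Par l p q r) (j : Fin 3) {s : ℝ}
    (h0 : 0 < s) (h1 : s < l - ![p, q, r] j) : E1 l p q r j s ≠ E2 l p q r j s := by
  obtain ⟨hp, hq, hr, hl, lp, lq, lr⟩ := hpar
  intro h
  fin_cases j
  · have h2 := congrArg Prod.snd h
    simp [E1, E2] at h2 h1
    rcases max_cases 0 (r - s) with h3 | h3 <;> rcases max_cases 0 (q - s) with h4 | h4 <;>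
      rw [h3.1, h4.1] at h2 <;> linarith
  · have h2 := congrArg Prod.fst h
    simp [E1, E2] at h2 h1
    rcases max_cases 0 (r - s) with h3 | h3 <;> rcases max_cases 0 (p - s) with h4 | h4 <;>
      rw [h3.1, h4.1] at h2 <;> linarith
  · have h2 := congrArg Prod.fst h
    simp [E1, E2] at h2 h1
    rcases max_cases 0 (q - s) with h3 | h3 <;> rcases max_cases 0 (p - s) with h4 | h4 <;>
      rw [h3.1, h4.1] at h2 <;> linarith

/-- every boundary point on a chord is one of the two endpoints -/
theorem eq_E1_or_E2 (j : Fin 3)
    {z : ℝ × ℝ} (hz : IsB l ![p, q, r] z) (h0 : 0 < co l j z)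
    (h1 : co l j z < l - ![p, q, r] j) :
    z = E1 l p q r j (co l j z) ∨ z = E2 l p q r j (co l j z) := by
  obtain ⟨hr1, k, hk⟩ := hz
  have ra := hr1 0
  have rb := hr1 1
  have rc := hr1 2
  simp at ra rb rc
  fin_cases j
  · -- A chord
    simp at h0 h1
    have key : z.2 = max 0 (r - z.1) ∨ z.2 = l - z.1 - max 0 (q - z.1) := by
      fin_cases k <;> simp at hk
      · rcases hk with hk | hk
        · exfalso; linarith
        · exfalso; linarith
      · rcases hk with hk | hk
        · left; rw [hk, max_eq_left]; linarith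
        · right; rw [hk, max_eq_right (by linarith)]; linarith
      · rcases hk with hk | hk
        · right; rw [max_eq_left (by linarith)]; linarith
        · left; rw [max_eq_right (by linarith)]; linarith
    rcases key with h | h
    · left; exact Prod.ext rfl h
    · right; exact Prod.ext rfl h
  · simp at h0 h1
    have key : z.1 = max 0 (r - z.2) ∨ z.1 = l - z.2 - max 0 (p - z.2) := by
      fin_cases k <;> simp at hk
      · rcases hk with hk | hk
        · left; rw [hk, max_eq_left]; linarith
        · right; rw [hk, max_eq_right (by linarith)]; linarith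
      · rcases hk with hk | hk
        · exfalso; linarith
        · exfalso; linarith
      · rcases hk with hk | hk
        · right; rw [max_eq_left (by linarith)]; linarith
        · left; rw [max_eq_right (by linarith)]; linarith
    rcases key with h | h
    · left; exact Prod.ext h rfl
    · right; exact Prod.ext h rfl
  · simp at h0 h1
    have key : z.1 = max 0 (q - (l - z.1 - z.2)) ∨ z.2 = max 0 (p - (l - z.1 - z.2)) := by
      fin_cases k <;> simp at hk
      · rcases hk with hk | hk
        · left; rw [hk, max_eq_left]; linarith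
        · right; rw [max_eq_right (by linarith)]; linarith
      · rcases hk with hk | hk
        · right; rw [hk, max_eq_left]; linarith
        · left; rw [max_eq_right (by linarith)]; linarith
      · rcases hk with hk | hk
        · exfalso; linarith
        · exfalso; linarith
    rcases key with h | h
    · left
      apply Prod.ext
      · exact h
      · show z.2 = l - (l - z.1 - z.2) - max 0 (q - (l - z.1 - z.2))
        linarith
    · right
      apply Prod.ext
      · show z.1 = l - (l - z.1 - z.2) - max 0 (p - (l - z.1 - z.2))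
        linarith
      · exact h

/-- regular chords: both endpoints are in the relative interior of a side -/
def RegCh (l : ℝ) (P : Fin 3 → ℝ) (j : Fin 3) (s : ℝ) : Prop :=
  0 < s ∧ s < l - P j ∧ ∀ i, i ≠ j → s ≠ P i

theorem E1_Bd (hpar : Par l p q r) (j : Fin 3) {s : ℝ}
    (hs : RegCh l ![p, q, r] j s) : ∃ k, k ≠ j ∧ Bd l ![p, q, r] k (E1 l p q r j s) := by
  obtain ⟨hp, hq, hr, hl, lp, lq, lr⟩ := hpar
  obtain ⟨h0, h1, h2⟩ := hs
  fin_cases j
  · have h3 : s ≠ r := h2 2 (by decide)
    simp at h1
    rcases lt_or_gt_of_ne h3 with h | h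
    · refine ⟨2, by decide, ?_, ?_⟩
      · right
        simp [E1, max_eq_right (show 0 ≤ r - s by linarith)] <;> ring
      · intro i hi
        fin_cases i
        · simp [E1]; constructor <;> linarith
        · simp [E1, max_eq_right (show 0 ≤ r - s by linarith)]; constructor <;> linarith
        · simp at hi
    · refine ⟨1, by decide, ?_, ?_⟩
      · left
        simp [E1, max_eq_left (show r - s ≤ 0 by linarith)] <;> ring
      · intro i hi
        fin_cases i
        · simp [E1]; constructor <;> linarith
        · simp at hi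
        · simp [E1, max_eq_left (show r - s ≤ 0 by linarith)]; constructor <;> linarith
  · have h3 : s ≠ r := h2 2 (by decide)
    simp at h1
    rcases lt_or_gt_of_ne h3 with h | h
    · refine ⟨2, by decide, ?_, ?_⟩
      · right
        simp [E1, max_eq_right (show 0 ≤ r - s by linarith)] <;> ring
      · intro i hi
        fin_cases i
        · simp [E1, max_eq_right (show 0 ≤ r - s by linarith)]; constructor <;> linarith
        · simp [E1]; constructor <;> linarith
        · simp at hi
    · refine ⟨0, by decide, ?_, ?_⟩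
      · left
        simp [E1, max_eq_left (show r - s ≤ 0 by linarith)] <;> ring
      · intro i hi
        fin_cases i
        · simp at hi
        · simp [E1]; constructor <;> linarith
        · simp [E1, max_eq_left (show r - s ≤ 0 by linarith)]; constructor <;> linarith
  · have h3 : s ≠ q := h2 1 (by decide)
    simp at h1
    rcases lt_or_gt_of_ne h3 with h | h
    · refine ⟨1, by decide, ?_, ?_⟩
      · right
        simp [E1, max_eq_right (show 0 ≤ q - s by linarith)] <;> ring
      · intro i hi
        fin_cases i
        · simp [E1, max_eq_right (show 0 ≤ q - s by linarith)]; constructor <;> linarith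
        · simp at hi
        · simp [E1, max_eq_right (show 0 ≤ q - s by linarith)]; constructor <;> linarith
    · refine ⟨0, by decide, ?_, ?_⟩
      · left
        simp [E1, max_eq_left (show q - s ≤ 0 by linarith)] <;> ring
      · intro i hi
        fin_cases i
        · simp at hi
        · simp [E1, max_eq_left (show q - s ≤ 0 by linarith)]; constructor <;> linarith
        · simp [E1, max_eq_left (show q - s ≤ 0 by linarith)]; constructor <;> linarith

theorem E2_Bd (hpar : Par l p q r) (j : Fin 3) {s : ℝ}
    (hs : RegCh l ![p, q, r] j s) : ∃ k, k ≠ j ∧ Bd l ![p, q, r] k (E2 l p q r j s) := by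
  obtain ⟨hp, hq, hr, hl, lp, lq, lr⟩ := hpar
  obtain ⟨h0, h1, h2⟩ := hs
  fin_cases j
  · have h3 : s ≠ q := h2 1 (by decide)
    simp at h1
    rcases lt_or_gt_of_ne h3 with h | h
    · refine ⟨1, by decide, ?_, ?_⟩
      · right
        simp [E2, max_eq_right (show 0 ≤ q - s by linarith)] <;> ring
      · intro i hi
        fin_cases i
        · simp [E2]; constructor <;> linarith
        · simp at hi
        · simp [E2, max_eq_right (show 0 ≤ q - s by linarith)]; constructor <;> linarith
    · refine ⟨2, by decide, ?_, ?_⟩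
      · left
        simp [E2, max_eq_left (show q - s ≤ 0 by linarith)] <;> ring
      · intro i hi
        fin_cases i
        · simp [E2]; constructor <;> linarith
        · simp [E2, max_eq_left (show q - s ≤ 0 by linarith)]; constructor <;> linarith
        · simp at hi
  · have h3 : s ≠ p := h2 0 (by decide)
    simp at h1
    rcases lt_or_gt_of_ne h3 with h | h
    · refine ⟨0, by decide, ?_, ?_⟩
      · right
        simp [E2, max_eq_right (show 0 ≤ p - s by linarith)] <;> ring
      · intro i hi
        fin_cases i
        · simp at hi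
        · simp [E2]; constructor <;> linarith
        · simp [E2, max_eq_right (show 0 ≤ p - s by linarith)]; constructor <;> linarith
    · refine ⟨2, by decide, ?_, ?_⟩
      · left
        simp [E2, max_eq_left (show p - s ≤ 0 by linarith)] <;> ring
      · intro i hi
        fin_cases i
        · simp [E2, max_eq_left (show p - s ≤ 0 by linarith)]; constructor <;> linarith
        · simp [E2]; constructor <;> linarith
        · simp at hi
  · have h3 : s ≠ p := h2 0 (by decide)
    simp at h1
    rcases lt_or_gt_of_ne h3 with h | h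
    · refine ⟨0, by decide, ?_, ?_⟩
      · right
        simp [E2, max_eq_right (show 0 ≤ p - s by linarith)] <;> ring
      · intro i hi
        fin_cases i
        · simp at hi
        · simp [E2, max_eq_right (show 0 ≤ p - s by linarith)]; constructor <;> linarith
        · simp [E2, max_eq_right (show 0 ≤ p - s by linarith)]; constructor <;> linarith
    · refine ⟨1, by decide, ?_, ?_⟩
      · left
        simp [E2, max_eq_left (show p - s ≤ 0 by linarith)] <;> ring
      · intro i hi
        fin_cases i
        · simp [E2, max_eq_left (show p - s ≤ 0 by linarith)]; constructor <;> linarith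
        · simp at hi
        · simp [E2, max_eq_left (show p - s ≤ 0 by linarith)]; constructor <;> linarith

/-- closedness in terms of boundary points -/
theorem Closed.pt {A B C : Set ℝ} (h : Closed l p q r A B C) {k i j : Fin 3} {z : ℝ × ℝ}
    (hz : Bd l ![p, q, r] k z) (hi : i ≠ k) (hj : j ≠ k) (hij : i ≠ j)
    (hm : co l i z ∈ (![A, B, C] : Fin 3 → Set ℝ) i) :
    co l j z ∈ (![A, B, C] : Fin 3 → Set ℝ) j := by
  obtain ⟨h1, h2⟩ := hz
  have g0 := h2 0
  have g1 := h2 1
  have g2 := h2 2
  fin_cases k <;> fin_cases i <;> fin_cases j <;>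
    simp at hi hj hij g0 g1 g2 hm h1 ⊢
  · -- k = 0, i = 1, j = 2
    rcases h1 with h1 | h1
    · have := (h.s5 z.2 (by linarith) (by linarith)).1 hm
      rw [h1]; simpa using this
    · have := (h.s6 z.2 (by linarith) (by linarith)).1 hm
      rw [h1]
      have e : l - (l - p) - z.2 = p - z.2 := by ring
      rwa [e]
  · -- k = 0, i = 2, j = 1
    rcases h1 with h1 | h1
    · rw [h1] at hm
      have := (h.s5 z.2 (by linarith) (by linarith)).2 (by simpa using hm)
      exact this
    · rw [h1] at hm
      have e : l - (l - p) - z.2 = p - z.2 := by ring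
      rw [e] at hm
      exact (h.s6 z.2 (by linarith) (by linarith)).2 hm
  · -- k = 1, i = 0, j = 2
    rcases h1 with h1 | h1
    · have := (h.s2 z.1 (by linarith) (by linarith)).1 hm
      rw [h1]; simpa using this
    · have := (h.s4 z.1 (by linarith) (by linarith)).1 hm
      rw [h1]
      have e : l - z.1 - (l - q) = q - z.1 := by ring
      rwa [e]
  · -- k = 1, i = 2, j = 0
    rcases h1 with h1 | h1
    · rw [h1] at hm
      exact (h.s2 z.1 (by linarith) (by linarith)).2 (by simpa using hm)
    · rw [h1] at hm
      have e : l - z.1 - (l - q) = q - z.1 := by ring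
      rw [e] at hm
      exact (h.s4 z.1 (by linarith) (by linarith)).2 hm
  · -- k = 2, i = 0, j = 1
    rcases h1 with h1 | h1
    · have := (h.s3 z.1 (by linarith) (by linarith)).1 hm
      have e : z.2 = l - z.1 := by linarith
      rwa [e]
    · have := (h.s1 z.1 (by linarith) (by linarith)).1 hm
      have e : z.2 = r - z.1 := by linarith
      rwa [e]
  · -- k = 2, i = 1, j = 0
    rcases h1 with h1 | h1
    · have e : z.2 = l - z.1 := by linarith
      rw [e] at hm
      exact (h.s3 z.1 (by linarith) (by linarith)).2 hm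
    · have e : z.2 = r - z.1 := by linarith
      rw [e] at hm
      exact (h.s1 z.1 (by linarith) (by linarith)).2 hm

/-- converse: closedness from boundary points -/
theorem Closed.of_pt (hpar : Par l p q r)
    {A B C : Set ℝ} (h : ∀ (k i j : Fin 3) (z : ℝ × ℝ), Bd l ![p, q, r] k z → i ≠ k → j ≠ k →
      co l i z ∈ (![A, B, C] : Fin 3 → Set ℝ) i → co l j z ∈ (![A, B, C] : Fin 3 → Set ℝ) j) :
    Closed l p q r A B C := by
  obtain ⟨hp, hq, hr, hl, lp, lq, lr⟩ := hpar
  refine ⟨?_, ?_, ?_, ?_, ?_, ?_⟩
  · intro a h1 h2
    have hz : Bd l ![p, q, r] 2 (a, r - a) := by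
      refine ⟨Or.inr (by simp), fun i hi => ?_⟩
      fin_cases i
      · simp; constructor <;> linarith
      · simp; constructor <;> linarith
      · simp at hi
    have e1 := h 2 0 1 _ hz (by decide) (by decide)
    have e2 := h 2 1 0 _ hz (by decide) (by decide)
    exact ⟨e1, e2⟩
  · intro a h1 h2
    have hz : Bd l ![p, q, r] 1 (a, 0) := by
      refine ⟨Or.inl (by simp), fun i hi => ?_⟩
      fin_cases i
      · simp; constructor <;> linarith
      · simp at hi
      · simp; constructor <;> linarith
    have e1 := h 1 0 2 _ hz (by decide) (by decide)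
    have e2 := h 1 2 0 _ hz (by decide) (by decide)
    simp only [co2, sub_zero] at e1 e2
    exact ⟨e1, e2⟩
  · intro a h1 h2
    have hz : Bd l ![p, q, r] 2 (a, l - a) := by
      refine ⟨Or.inl (by simp), fun i hi => ?_⟩
      fin_cases i
      · simp; constructor <;> linarith
      · simp; constructor <;> linarith
      · simp at hi
    exact ⟨h 2 0 1 _ hz (by decide) (by decide), h 2 1 0 _ hz (by decide) (by decide)⟩
  · intro a h1 h2
    have hz : Bd l ![p, q, r] 1 (a, l - q) := by
      refine ⟨Or.inr (by simp), fun i hi => ?_⟩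
      fin_cases i
      · simp; constructor <;> linarith
      · simp at hi
      · simp; constructor <;> linarith
    have e1 := h 1 0 2 _ hz (by decide) (by decide)
    have e2 := h 1 2 0 _ hz (by decide) (by decide)
    have e : l - a - (l - q) = q - a := by ring
    simp only [co2, e] at e1 e2
    exact ⟨e1, e2⟩
  · intro b h1 h2
    have hz : Bd l ![p, q, r] 0 (0, b) := by
      refine ⟨Or.inl (by simp), fun i hi => ?_⟩
      fin_cases i
      · simp at hi
      · simp; constructor <;> linarith
      · simp; constructor <;> linarith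
    have e1 := h 0 1 2 _ hz (by decide) (by decide)
    have e2 := h 0 2 1 _ hz (by decide) (by decide)
    simp only [co2, sub_zero] at e1 e2
    exact ⟨e1, e2⟩
  · intro b h1 h2
    have hz : Bd l ![p, q, r] 0 (l - p, b) := by
      refine ⟨Or.inr (by simp), fun i hi => ?_⟩
      fin_cases i
      · simp at hi
      · simp; constructor <;> linarith
      · simp; constructor <;> linarith
    have e1 := h 0 1 2 _ hz (by decide) (by decide)
    have e2 := h 0 2 1 _ hz (by decide) (by decide)
    have e : l - (l - p) - b = p - b := by ring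
    simp only [co2, e] at e1 e2
    exact ⟨e1, e2⟩

theorem Reg.ch {A B C : Set ℝ} (h : Reg l p q r A B C) (j : Fin 3) {s : ℝ}
    (hs : s ∈ (![A, B, C] : Fin 3 → Set ℝ) j) : RegCh l ![p, q, r] j s := by
  fin_cases j
  · obtain ⟨h1, h2, h3, h4⟩ := h.a s hs
    refine ⟨h1, h2, fun i hi => ?_⟩
    fin_cases i
    · simp at hi
    · exact h3
    · exact h4
  · obtain ⟨h1, h2, h3, h4⟩ := h.b s hs
    refine ⟨h1, h2, fun i hi => ?_⟩
    fin_cases i
    · exact h3
    · simp at hi
    · exact h4
  · obtain ⟨h1, h2, h3, h4⟩ := h.c s hs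
    refine ⟨h1, h2, fun i hi => ?_⟩
    fin_cases i
    · exact h3
    · exact h4
    · simp at hi

end

end SympB
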