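import Pool.Agent.W_MP_93b186_an_helper62.Fam

/-!
# Infinite leaves in the terminal incommensurable case
-/

namespace SympB

/-- the countable set of integer combinations of the parameters -/
def Lam (l p q r : ℝ) (u : ℝ) : Prop :=
  ∃ i j k m : ℤ, u = i * p + j * q + k * r + m * l

section
variable {l p q r : ℝ}

theorem Lam.sub {u v : ℝ} (h : Lam l p q r u) (h' : Lam l p q r v) : Lam l p q r (u - v) := by
  obtain ⟨i, j, k, m, h⟩ := h
  obtain ⟨i', j', k', m', h'⟩ := h'
  exact ⟨i - i', j - j', k - k', m - m', by rw [h, h']; push_cast; ring⟩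

theorem Lam.zero : Lam l p q r 0 := ⟨0, 0, 0, 0, by simp⟩
theorem Lam.ml : Lam l p q r l := ⟨0, 0, 0, 1, by simp⟩
theorem Lam.mp : Lam l p q r p := ⟨1, 0, 0, 0, by simp⟩
theorem Lam.mq : Lam l p q r q := ⟨0, 1, 0, 0, by simp⟩
theorem Lam.mr : Lam l p q r r := ⟨0, 0, 1, 0, by simp⟩

theorem Lam.flip_iff {c u : ℝ} (hc : Lam l p q r c) : Lam l p q r (c - u) ↔ Lam l p q r u := by
  constructor
  · intro h
    have := hc.sub h
    rwa [sub_sub_cancel] at this
  · intro h; exact hc.sub h

theorem Lam.shift_iff {c u : ℝ} (hc : Lam l p q r c) : Lam l p q r (u - c) ↔ Lam l p q r u := by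
  constructor
  · intro h
    have := h.sub ((Lam.zero).sub hc)
    have e : u - c - (0 - c) = u := by ring
    rwa [e] at this
  · intro h; exact h.sub hc

theorem countable_Lam : {u | Lam l p q r u}.Countable := by
  have h : {u | Lam l p q r u} = Set.range
      (fun x : ℤ × ℤ × ℤ × ℤ => (x.1 : ℝ) * p + x.2.1 * q + x.2.2.1 * r + x.2.2.2 * l) := by
    ext u
    constructor
    · rintro ⟨i, j, k, m, h⟩
      exact ⟨(i, j, k, m), h.symm⟩
    · rintro ⟨⟨i, j, k, m⟩, h⟩
      exact ⟨i, j, k, m, h.symm⟩
  rw [h]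
  exact Set.countable_range _

/-- generic values in the rotation interval -/
def genU (l p q r : ℝ) : Set ℝ := {u | q + r - p < u ∧ u < p ∧ ¬ Lam l p q r u}

theorem genU_nonempty (h : q + r < 2 * p) : (genU l p q r).Nonempty := by
  have hd : Dense ({u | Lam l p q r u}ᶜ : Set ℝ) := Set.Countable.dense_compl ℝ countable_Lam
  obtain ⟨z, hz, h1, h2⟩ := hd.exists_between (show q + r - p < p by linarith)
  exact ⟨z, h1, h2, hz⟩

theorem HG_genU (hpqr : p ≤ q + r) (hqp : q ≤ p) (hrp : r ≤ p) :
    HG p q r (genU l p q r) := by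
  intro b h1 h2
  have e1 : Lam l p q r (r - b) ↔ Lam l p q r b := Lam.flip_iff Lam.mr
  have e2 : Lam l p q r (p - b) ↔ Lam l p q r b := Lam.flip_iff Lam.mp
  have e3 : Lam l p q r (q - (p - b)) ↔ Lam l p q r b := by
    rw [Lam.flip_iff Lam.mq, e2]
  constructor
  · rintro (⟨h3, h4, h5, h6⟩ | ⟨h3, h4, h5, h6⟩)
    · rw [e1] at h6
      refine Or.inr ⟨by linarith, by linarith, by linarith, ?_⟩
      rwa [e2]
    · have hbr : r < b := by
        rcases eq_or_lt_of_le h3 with h | h
        · exfalso; apply h6; rw [← h]; exact Lam.mr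
        · exact h
      refine Or.inl ⟨by linarith, by linarith, by linarith, ?_⟩
      rwa [e3]
  · rintro (⟨h3, h4, h5, h6⟩ | ⟨h3, h4, h5, h6⟩)
    · rw [e3] at h6
      refine Or.inr ⟨by linarith, by linarith, by linarith, h6⟩
    · rw [e2] at h6
      have hb : b < p - q := by
        have h3' : b ≤ p - q := by linarith
        rcases eq_or_lt_of_le h3' with h | h
        · exfalso; apply h6; rw [h]; exact Lam.mp.sub Lam.mq
        · exact h
      refine Or.inl ⟨by linarith, by linarith, by linarith, ?_⟩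
      rwa [e1]

/-- incommensurability of the two differences -/
def Incomm (p q r : ℝ) : Prop := ∀ m n : ℤ, m * (p - q) = n * (p - r) → m = 0 ∧ n = 0

/-- the rotation has no nonempty finite invariant set -/
theorem rot_no_finite (hinc : Incomm p q r) (W : Finset ℝ)
    (hW : ∀ u ∈ W, q + r - p < u ∧ u < p)
    (hinv1 : ∀ u ∈ W, u < r → u + (p - r) ∈ W)
    (hinv2 : ∀ u ∈ W, ¬ u < r → u - (p - q) ∈ W) : W = ∅ := by
  classical
  set G : ℝ → ℝ := fun u => if u < r then u + (p - r) else u - (p - q) with hG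
  have hmap : ∀ u ∈ W, G u ∈ W := by
    intro u hu
    by_cases h : u < r
    · simp only [hG, h, if_true]; exact hinv1 u hu h
    · simp only [hG, h, if_false]; exact hinv2 u hu h
  have hinj : Set.InjOn G W := by
    intro a ha b hb hab
    have ha' := hW a ha
    have hb' := hW b hb
    simp only [hG] at hab
    split_ifs at hab with h1 h2 h2 <;> linarith
  have himg : W.image G = W := by
    apply Finset.eq_of_subset_of_card_le
    · intro x hx
      obtain ⟨u, hu, rfl⟩ := Finset.mem_image.1 hx
      exact hmap u hu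
    · rw [Finset.card_image_of_injOn hinj]
  have hsum : ∑ u ∈ W, G u = ∑ u ∈ W, u := by
    conv_rhs => rw [← himg]
    rw [Finset.sum_image (fun a ha b hb h => hinj ha hb h)]
  have hsum2 : ∑ u ∈ W, (G u - u) = 0 := by
    rw [Finset.sum_sub_distrib, hsum, sub_self]
  have hsum3 : ∑ u ∈ W, (G u - u) =
      ((W.filter (fun u => u < r)).card : ℝ) * (p - r) -
      ((W.filter (fun u => ¬ u < r)).card : ℝ) * (p - q) := by
    rw [← Finset.sum_filter_add_sum_filter_not W (fun u => u < r)]
    have e1 : ∑ u ∈ W.filter (fun u => u < r), (G u - u) =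
        ((W.filter (fun u => u < r)).card : ℝ) * (p - r) := by
      rw [← nsmul_eq_mul, ← Finset.sum_const]
      refine Finset.sum_congr rfl fun u hu => ?_
      have := (Finset.mem_filter.1 hu).2
      simp only [hG, this, if_true]; ring
    have e2 : ∑ u ∈ W.filter (fun u => ¬ u < r), (G u - u) =
        -(((W.filter (fun u => ¬ u < r)).card : ℝ) * (p - q)) := by
      rw [← nsmul_eq_mul, ← Finset.sum_const, ← Finset.sum_neg_distrib]
      refine Finset.sum_congr rfl fun u hu => ?_
      have := (Finset.mem_filter.1 hu).2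
      simp only [hG, this, if_false]; ring
    rw [e1, e2]; ring
  have h0 := hinc ((W.filter (fun u => ¬ u < r)).card : ℤ) ((W.filter (fun u => u < r)).card : ℤ)
    (by
      push_cast
      linarith)
  have h1 : (W.filter (fun u => ¬ u < r)) = ∅ := by
    rw [← Finset.card_eq_zero]; exact_mod_cast h0.1
  have h2 : (W.filter (fun u => u < r)) = ∅ := by
    rw [← Finset.card_eq_zero]; exact_mod_cast h0.2
  rw [← Finset.filter_union_filter_not_eq (fun u => u < r) W, h1, h2, Finset.union_empty]

theorem InfFam.term (hq : 0 ≤ q) (hr : 0 ≤ r) (hpqr : p ≤ q + r) (hqp : q ≤ p) (hrp : r ≤ p)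
    (hpl : 2 * p ≤ l) (hinc : Incomm p q r) : InfFam l p q r := by
  have hqr2 : q + r < 2 * p := by
    rcases eq_or_lt_of_le hqp with h | h
    · exfalso
      have := (hinc 1 0 (by rw [h]; simp)).1
      exact one_ne_zero this
    · linarith
  have hp0 : 0 < p := by linarith
  have hcl : Closed l p q r (genU l p q r) (redB l p q r (genU l p q r))
      (redB l p r q (genU l p q r)) := by
    refine Closed.red hqp hrp hpl ?_ (HG_genU hpqr hqp hrp)
    rintro x ⟨h1, h2, _⟩
    exact ⟨by linarith, h2.le⟩
  have hreg : Reg l p q r (genU l p q r) (redB l p q r (genU l p q r))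
      (redB l p r q (genU l p q r)) := by
    constructor
    · rintro x ⟨h1, h2, h3⟩
      refine ⟨by linarith, by linarith, ?_, ?_⟩
      · rintro rfl; exact h3 Lam.mq
      · rintro rfl; exact h3 Lam.mr
    · rintro x (⟨h0, h1, h2, h3, h4⟩ | ⟨h0, h1, h2, h3, h4⟩ | ⟨h0, h1, h2, h3, h4⟩)
      · rw [Lam.flip_iff Lam.mr] at h4
        have hx0 : x ≠ 0 := by rintro rfl; exact h4 Lam.zero
        refine ⟨lt_of_le_of_ne h0 hx0.symm, by linarith, ?_, ?_⟩
        · rintro rfl; exact h4 Lam.mp
        · rintro rfl; exact h4 Lam.mr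
      · refine ⟨by linarith, by linarith, ?_, ?_⟩
        · rintro rfl; exact h4 Lam.mp
        · rintro rfl; exact h4 Lam.mr
      · rw [Lam.flip_iff Lam.ml] at h4
        refine ⟨by linarith, h1, ?_, ?_⟩
        · rintro rfl; exact h4 Lam.mp
        · rintro rfl; exact h4 Lam.mr
    · rintro x (⟨h0, h1, h2, h3, h4⟩ | ⟨h0, h1, h2, h3, h4⟩ | ⟨h0, h1, h2, h3, h4⟩)
      · rw [Lam.flip_iff Lam.mq] at h4
        have hx0 : x ≠ 0 := by rintro rfl; exact h4 Lam.zero
        refine ⟨lt_of_le_of_ne h0 hx0.symm, by linarith, ?_, ?_⟩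
        · rintro rfl; exact h4 Lam.mp
        · rintro rfl; exact h4 Lam.mq
      · refine ⟨by linarith, by linarith, ?_, ?_⟩
        · rintro rfl; exact h4 Lam.mp
        · rintro rfl; exact h4 Lam.mq
      · rw [Lam.flip_iff Lam.ml] at h4
        refine ⟨by linarith, h1, ?_, ?_⟩
        · rintro rfl; exact h4 Lam.mp
        · rintro rfl; exact h4 Lam.mq
  refine ⟨genU l p q r, redB l p q r (genU l p q r), redB l p r q (genU l p q r), hcl, hreg,
    ?_, ?_⟩
  · obtain ⟨u, hu⟩ := genU_nonempty (l := l) hqr2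
    exact ⟨u, Or.inl (Or.inl hu)⟩
  · intro A1 B1 C1 f1 f2 f3 h
    have dA : ∀ x ∈ genU l p q r, x ∉ A1 := by
      have hfin : (A1 ∩ genU l p q r).Finite := f1.inter_of_left _
      have hW := rot_no_finite hinc hfin.toFinset ?_ ?_ ?_
      · intro x hx hx1
        have : x ∈ hfin.toFinset := by
          rw [Set.Finite.mem_toFinset]; exact ⟨hx1, hx⟩
        rw [hW] at this
        exact absurd this (Finset.notMem_empty x)
      · intro u hu
        rw [Set.Finite.mem_toFinset] at hu
        exact ⟨hu.2.1, hu.2.2.1⟩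
      · intro u hu hur
        rw [Set.Finite.mem_toFinset] at hu ⊢
        obtain ⟨hu1, hu2, hu3, hu4⟩ := hu
        have e1 := h.s1 u (by linarith) hur
        have e2 := h.s6 (r - u) (by linarith) (by linarith)
        have e3 := h.s5 (l - (p - (r - u))) (by linarith) (by linarith)
        have e4 := h.s3 (p - (r - u)) (by linarith) (by linarith)
        rw [sub_sub_cancel] at e3
        have e5 : u + (p - r) = p - (r - u) := by ring
        rw [e5]
        refine ⟨e4.2 (e3.2 (e2.1 (e1.1 hu1))), by linarith, by linarith, ?_⟩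
        rw [Lam.flip_iff Lam.mp, Lam.flip_iff Lam.mr]
        exact hu4
      · intro u hu hur
        rw [Set.Finite.mem_toFinset] at hu ⊢
        obtain ⟨hu1, hu2, hu3, hu4⟩ := hu
        have hru : r < u := by
          push Not at hur
          refine lt_of_le_of_ne hur ?_
          rintro rfl; exact hu4 Lam.mr
        have e1 := h.s2 u hru (by linarith)
        have e2 := h.s5 u hru (by linarith)
        have e3 := h.s6 u (by linarith) (by linarith)
        have e4 := h.s4 (q - (p - u)) (by linarith) (by linarith)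
        rw [sub_sub_cancel] at e4
        have e5 : u - (p - q) = q - (p - u) := by ring
        rw [e5]
        refine ⟨e4.2 (e3.1 (e2.2 (e1.1 hu1))), by linarith, by linarith, ?_⟩
        rw [Lam.flip_iff Lam.mq, Lam.flip_iff Lam.mp]
        exact hu4
    refine ⟨dA, ?_, ?_⟩
    · intro x hx
      have hx' := hreg.b x hx
      rcases hx with ⟨h0, h1, hu⟩ | ⟨h0, h1, hu⟩ | ⟨h0, h1, hu⟩
      · intro hx1
        refine dA _ hu ?_
        have hu' := hu
        obtain ⟨h2, h3, h4⟩ := hu'
        rw [h.s1 _ (by linarith) (by linarith), sub_sub_cancel]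
        exact hx1
      · intro hx1
        refine dA _ hu ?_
        obtain ⟨h2, h3, h4⟩ := hu
        have hrx : r < x := lt_of_le_of_ne h0 (Ne.symm hx'.2.2.2)
        rw [h.s2 _ hrx (by linarith), ← h.s5 _ hrx (by linarith)]
        exact hx1
      · intro hx1
        refine dA _ hu ?_
        obtain ⟨h2, h3, h4⟩ := hu
        rw [h.s3 _ (by linarith) (by linarith), sub_sub_cancel]
        exact hx1
    · intro x hx
      have hx' := hreg.c x hx
      rcases hx with ⟨h0, h1, hu⟩ | ⟨h0, h1, hu⟩ | ⟨h0, h1, hu⟩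
      · intro hx1
        refine dA _ hu ?_
        have hu' := hu
        obtain ⟨h2, h3, h4⟩ := hu'
        rw [h.s4 _ (by linarith) (by linarith), sub_sub_cancel]
        exact hx1
      · intro hx1
        refine dA _ hu ?_
        obtain ⟨h2, h3, h4⟩ := hu
        have hrx : q < x := lt_of_le_of_ne h0 (Ne.symm hx'.2.2.2)
        have e := h.s5 (l - x) (by linarith) (by linarith)
        rw [sub_sub_cancel] at e
        rw [h.s3 _ hrx (by linarith), e]
        exact hx1
      · intro hx1
        refine dA _ hu ?_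
        obtain ⟨h2, h3, h4⟩ := hu
        rw [h.s2 _ (by linarith) (by linarith), sub_sub_cancel]
        exact hx1

end

end SympB
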