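import Pool.Agent.W_MP_93b186_an_helper62.NonAP

/-!
# The model hexagon and the model pentagon
-/

namespace SympB

section
variable {l : ℝ} {P : Fin 3 → ℝ}

theorem co_lineMap (j : Fin 3) (a b : ℝ × ℝ) (θ : ℝ) :
    co l j (a + θ • (b - a)) = co l j a + θ * (co l j b - co l j a) := by
  fin_cases j
  · simp
  · simp
  · simp; ring

/-- combinatorial description of a side -/
structure SideOK (l : ℝ) (P : Fin 3 → ℝ) (k : Fin 3) (a b : ℝ × ℝ) : Prop where
  eq : co l k a = co l k b
  ext : co l k a = 0 ∨ co l k a = l - P k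
  rg : ∀ j, j ≠ k → 0 ≤ co l j a ∧ co l j a ≤ l - P j ∧ 0 ≤ co l j b ∧ co l j b ≤ l - P j ∧
    co l j a ≠ co l j b

theorem SideOK.open {k : Fin 3} {a b z : ℝ × ℝ} (h : SideOK l P k a b)
    (hz : z ∈ openSegment ℝ a b) : Bd l P k z := by
  rw [openSegment_eq_image'] at hz
  obtain ⟨θ, ⟨h0, h1⟩, rfl⟩ := hz
  refine ⟨?_, fun j hj => ?_⟩
  · simp only [co_lineMap, ← h.eq, sub_self, mul_zero, add_zero]
    exact h.ext
  · simp only [co_lineMap]
    obtain ⟨r1, r2, r3, r4, r5⟩ := h.rg j hj
    rcases lt_or_gt_of_ne r5 with h5 | h5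
    · constructor
      · have := mul_pos h0 (sub_pos.2 h5)
        linarith
      · have := mul_pos (sub_pos.2 h1) (sub_pos.2 h5)
        nlinarith
    · constructor
      · have := mul_pos (sub_pos.2 h1) (sub_pos.2 h5)
        nlinarith
      · have := mul_pos h0 (sub_pos.2 h5)
        linarith

theorem SideOK.seg {k : Fin 3} {a b z : ℝ × ℝ} (h : SideOK l P k a b)
    (hz : z ∈ segment ℝ a b) : co l k z = 0 ∨ co l k z = l - P k := by
  rw [segment_eq_image'] at hz
  obtain ⟨θ, ⟨h0, h1⟩, rfl⟩ := hz
  simp only [co_lineMap, ← h.eq, sub_self, mul_zero, add_zero]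
  exact h.ext

theorem SideOK.isB {k : Fin 3} (hP : P k ≤ l) {a b z : ℝ × ℝ} (h : SideOK l P k a b)
    (hz : z ∈ segment ℝ a b) : IsB l P z := by
  refine ⟨fun j => ?_, k, h.seg hz⟩
  by_cases hj : j = k
  · subst hj
    rcases h.seg hz with h1 | h1
    · rw [h1]; exact ⟨le_rfl, by linarith⟩
    · rw [h1]; exact ⟨by linarith, le_rfl⟩
  · rw [segment_eq_image'] at hz
    obtain ⟨θ, ⟨h0, h1⟩, rfl⟩ := hz
    simp only [co_lineMap]
    obtain ⟨r1, r2, r3, r4, r5⟩ := h.rg j hj
    constructor
    · nlinarith [mul_nonneg h0 r3, mul_nonneg (sub_nonneg.2 h1) r1]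
    · nlinarith [mul_nonneg h0 (sub_nonneg.2 r4), mul_nonneg (sub_nonneg.2 h1) (sub_nonneg.2 r2)]

theorem SideOK.cross_iff {k : Fin 3} {a b : ℝ × ℝ} (h : SideOK l P k a b) (x w : ℝ × ℝ) :
    cross (b - a) (w - x) = 0 ↔ co l k w = co l k x := by
  have he := h.eq
  fin_cases k
  · have h1 := (h.rg 1 (by decide)).2.2.2.2
    simp at he h1
    simp only [cross, Prod.fst_sub, Prod.snd_sub, he]
    have h2 : b.2 - a.2 ≠ 0 := fun h => h1 (by linarith)
    constructor
    · intro h3
      have h4 : (b.2 - a.2) * (w.1 - x.1) = 0 := by linarith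
      rcases mul_eq_zero.1 h4 with h5 | h5
      · exact absurd h5 h2
      · show w.1 = x.1
        linarith
    · intro h3
      have h3' : w.1 = x.1 := h3
      rw [h3']; ring
  · have h1 := (h.rg 0 (by decide)).2.2.2.2
    simp at he h1
    simp only [cross, Prod.fst_sub, Prod.snd_sub, he]
    have h2 : b.1 - a.1 ≠ 0 := fun h => h1 (by linarith)
    constructor
    · intro h3
      have h4 : (b.1 - a.1) * (w.2 - x.2) = 0 := by linarith
      rcases mul_eq_zero.1 h4 with h5 | h5
      · exact absurd h5 h2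
      · show w.2 = x.2
        linarith
    · intro h3
      have h3' : w.2 = x.2 := h3
      rw [h3']; ring
  · have h1 := (h.rg 0 (by decide)).2.2.2.2
    simp at he h1
    have he' : b.2 = a.1 + a.2 - b.1 := by linarith
    simp only [cross, Prod.fst_sub, Prod.snd_sub, he']
    have h2 : b.1 - a.1 ≠ 0 := fun h => h1 (by linarith)
    constructor
    · intro h3
      have h4 : (b.1 - a.1) * ((w.1 + w.2) - (x.1 + x.2)) = 0 := by linarith
      rcases mul_eq_zero.1 h4 with h5 | h5
      · exact absurd h5 h2
      · show l - w.1 - w.2 = l - x.1 - x.2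
        linarith
    · intro h3
      have h3' : l - w.1 - w.2 = l - x.1 - x.2 := h3
      have h4 : w.1 = x.1 + x.2 - w.2 := by linarith
      rw [h4]; ring

/-- membership in an open side -/
theorem mem_open_of {k j : Fin 3} (hj : j ≠ k) {a b z : ℝ × ℝ} (hab : co l k a = co l k b)
    (hz : co l k z = co l k a) (h : (co l j a < co l j z ∧ co l j z < co l j b) ∨
      (co l j b < co l j z ∧ co l j z < co l j a)) : z ∈ openSegment ℝ a b := by
  rw [openSegment_eq_image']
  have hne : co l j b - co l j a ≠ 0 := by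
    rcases h with h | h
    · have : co l j a < co l j b := h.1.trans h.2
      intro h'; linarith
    · have : co l j b < co l j a := h.1.trans h.2
      intro h'; linarith
  refine ⟨(co l j z - co l j a) / (co l j b - co l j a), ⟨?_, ?_⟩, ?_⟩
  · rcases h with h | h
    · exact div_pos (by linarith) (by linarith)
    · exact div_pos_of_neg_of_neg (by linarith) (by linarith)
  · rcases h with h | h
    · rw [div_lt_one (by linarith)]; linarith
    · rw [div_lt_one_of_neg (by linarith)]; linarith
  · refine co_ext (l := l) hj ?_ ?_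
    · rw [co_lineMap, div_mul_cancel₀ _ hne]; ring
    · rw [co_lineMap, ← hab, sub_self, mul_zero, add_zero, hz]

end

/-- The pentagon `{0 ≤ x ≤ q+t, 0 ≤ y ≤ p+t, x+y ≤ p+q+t}`. -/
def pentV (p q t : ℝ) : ZMod 5 → ℝ × ℝ :=
  (![(0, 0), (q + t, 0), (q + t, p), (q, p + t), (0, p + t)] : Fin 5 → ℝ × ℝ)

section
variable {p q r t : ℝ}

theorem isModel_of_sides {n : ℕ} {v : ZMod n → ℝ × ℝ} {l p q r : ℝ} (hpar : Par l p q r)
    (h : ∀ i : ZMod n, ∃ k, SideOK l ![p, q, r] k (v i) (v (i + 1)))
    (hc : ∀ (k : Fin 3) (z : ℝ × ℝ), Bd l ![p, q, r] k z →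
      ∃ i : ZMod n, z ∈ openSegment ℝ (v i) (v (i + 1))) : IsModel v l p q r where
  side := fun i => by
    obtain ⟨k, hk⟩ := h i
    exact ⟨k, fun z hz => hk.open hz, fun x w => hk.cross_iff x w, fun z hz => hk.seg hz⟩
  cover := hc
  isB := fun z hz => by
    obtain ⟨i, hi⟩ := Set.mem_iUnion.1 hz
    obtain ⟨k, hk⟩ := h i
    exact hk.isB (hpar.le k) hi

theorem zmod6 : ∀ i : ZMod 6, i = 0 ∨ i = 1 ∨ i = 2 ∨ i = 3 ∨ i = 4 ∨ i = 5 := by decide
theorem zmod5 : ∀ i : ZMod 5, i = 0 ∨ i = 1 ∨ i = 2 ∨ i = 3 ∨ i = 4 := by decide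

theorem hexV0 : hexV p q r t 0 = (r, 0) := rfl
theorem hexV1 : hexV p q r t 1 = (q + r + t, 0) := rfl
theorem hexV2 : hexV p q r t 2 = (q + r + t, p) := rfl
theorem hexV3 : hexV p q r t 3 = (q, p + r + t) := rfl
theorem hexV4 : hexV p q r t 4 = (0, p + r + t) := rfl
theorem hexV5 : hexV p q r t 5 = (0, r) := rfl
theorem pentV0 : pentV p q t 0 = (0, 0) := rfl
theorem pentV1 : pentV p q t 1 = (q + t, 0) := rfl
theorem pentV2 : pentV p q t 2 = (q + t, p) := rfl
theorem pentV3 : pentV p q t 3 = (q, p + t) := rfl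
theorem pentV4 : pentV p q t 4 = (0, p + t) := rfl

theorem isModel_hex (hp : 0 < p) (hq : 0 < q) (hr : 0 < r) (ht : 0 ≤ t) :
    IsModel (hexV p q r t) (p + q + r + t) p q r := by
  have hpar : Par (p + q + r + t) p q r :=
    ⟨hp.le, hq.le, hr.le, by linarith, by linarith, by linarith, by linarith⟩
  refine isModel_of_sides hpar ?_ ?_
  · intro i
    rcases zmod6 i with rfl | rfl | rfl | rfl | rfl | rfl
    · refine ⟨1, ?_, ?_, ?_⟩
      · rw [show (0 : ZMod 6) + 1 = 1 by decide, hexV0, hexV1]; rfl
      · left; rfl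
      · intro j hj
        rw [show (0 : ZMod 6) + 1 = 1 by decide, hexV0, hexV1]
        fin_cases j <;> first
          | exact absurd rfl hj
          | (refine ⟨?_, ?_, ?_, ?_, ?_⟩ <;> (try simp) <;> linarith)
    · refine ⟨0, ?_, ?_, ?_⟩
      · rw [show (1 : ZMod 6) + 1 = 2 by decide, hexV1, hexV2]; rfl
      · right; rw [hexV1]; simp; ring
      · intro j hj
        rw [show (1 : ZMod 6) + 1 = 2 by decide, hexV1, hexV2]
        fin_cases j <;> first
          | exact absurd rfl hj
          | (refine ⟨?_, ?_, ?_, ?_, ?_⟩ <;> (try simp) <;> linarith)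
    · refine ⟨2, ?_, ?_, ?_⟩
      · rw [show (2 : ZMod 6) + 1 = 3 by decide, hexV2, hexV3]; simp; ring
      · left; rw [hexV2]; simp
      · intro j hj
        rw [show (2 : ZMod 6) + 1 = 3 by decide, hexV2, hexV3]
        fin_cases j <;> first
          | exact absurd rfl hj
          | (refine ⟨?_, ?_, ?_, ?_, ?_⟩ <;> (try simp) <;> linarith)
    · refine ⟨1, ?_, ?_, ?_⟩
      · rw [show (3 : ZMod 6) + 1 = 4 by decide, hexV3, hexV4]; rfl
      · right; rw [hexV3]; simp; ring
      · intro j hj
        rw [show (3 : ZMod 6) + 1 = 4 by decide, hexV3, hexV4]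
        fin_cases j <;> first
          | exact absurd rfl hj
          | (refine ⟨?_, ?_, ?_, ?_, ?_⟩ <;> (try simp) <;> linarith)
    · refine ⟨0, ?_, ?_, ?_⟩
      · rw [show (4 : ZMod 6) + 1 = 5 by decide, hexV4, hexV5]; rfl
      · left; rfl
      · intro j hj
        rw [show (4 : ZMod 6) + 1 = 5 by decide, hexV4, hexV5]
        fin_cases j <;> first
          | exact absurd rfl hj
          | (refine ⟨?_, ?_, ?_, ?_, ?_⟩ <;> (try simp) <;> linarith)
    · refine ⟨2, ?_, ?_, ?_⟩
      · rw [show (5 : ZMod 6) + 1 = 0 by decide, hexV5, hexV0]; simp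
      · right; rw [hexV5]; simp
      · intro j hj
        rw [show (5 : ZMod 6) + 1 = 0 by decide, hexV5, hexV0]
        fin_cases j <;> first
          | exact absurd rfl hj
          | (refine ⟨?_, ?_, ?_, ?_, ?_⟩ <;> (try simp) <;> linarith)
  · intro k z hz
    obtain ⟨h1, h2⟩ := hz
    have g0 := h2 0
    have g1 := h2 1
    have g2 := h2 2
    fin_cases k
    · simp at h1 g1 g2
      rcases h1 with h1 | h1
      · refine ⟨4, mem_open_of (l := p + q + r + t) (k := 0) (j := 1) (by decide) ?_ ?_ ?_⟩
        · rw [show (4 : ZMod 6) + 1 = 5 by decide, hexV4, hexV5]; rfl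
        · rw [hexV4]; exact h1
        · right
          rw [show (4 : ZMod 6) + 1 = 5 by decide, hexV4, hexV5]
          simp; constructor <;> linarith
      · refine ⟨1, mem_open_of (l := p + q + r + t) (k := 0) (j := 1) (by decide) ?_ ?_ ?_⟩
        · rw [show (1 : ZMod 6) + 1 = 2 by decide, hexV1, hexV2]; rfl
        · rw [hexV1]; simp; linarith
        · left
          rw [show (1 : ZMod 6) + 1 = 2 by decide, hexV1, hexV2]
          simp; constructor <;> linarith
    · simp at h1 g0 g2
      rcases h1 with h1 | h1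
      · refine ⟨0, mem_open_of (l := p + q + r + t) (k := 1) (j := 0) (by decide) ?_ ?_ ?_⟩
        · rw [show (0 : ZMod 6) + 1 = 1 by decide, hexV0, hexV1]; rfl
        · rw [hexV0]; exact h1
        · left
          rw [show (0 : ZMod 6) + 1 = 1 by decide, hexV0, hexV1]
          simp; constructor <;> linarith
      · refine ⟨3, mem_open_of (l := p + q + r + t) (k := 1) (j := 0) (by decide) ?_ ?_ ?_⟩
        · rw [show (3 : ZMod 6) + 1 = 4 by decide, hexV3, hexV4]; rfl
        · rw [hexV3]; simp; linarith
        · right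
          rw [show (3 : ZMod 6) + 1 = 4 by decide, hexV3, hexV4]
          simp; constructor <;> linarith
    · simp at h1 g0 g1
      rcases h1 with h1 | h1
      · refine ⟨2, mem_open_of (l := p + q + r + t) (k := 2) (j := 0) (by decide) ?_ ?_ ?_⟩
        · rw [show (2 : ZMod 6) + 1 = 3 by decide, hexV2, hexV3]; simp; ring
        · rw [hexV2]; simp; linarith
        · right
          rw [show (2 : ZMod 6) + 1 = 3 by decide, hexV2, hexV3]
          simp; constructor <;> linarith
      · refine ⟨5, mem_open_of (l := p + q + r + t) (k := 2) (j := 0) (by decide) ?_ ?_ ?_⟩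
        · rw [show (5 : ZMod 6) + 1 = 0 by decide, hexV5, hexV0]; simp
        · rw [hexV5]; simp; linarith
        · left
          rw [show (5 : ZMod 6) + 1 = 0 by decide, hexV5, hexV0]
          simp; constructor <;> linarith

theorem isModel_pent (hp : 0 < p) (hq : 0 < q) (ht : 0 < t) :
    IsModel (pentV p q t) (p + q + t) p q 0 := by
  have hpar : Par (p + q + t) p q 0 :=
    ⟨hp.le, hq.le, le_rfl, by linarith, by linarith, by linarith, by linarith⟩
  refine isModel_of_sides hpar ?_ ?_
  · intro i
    rcases zmod5 i with rfl | rfl | rfl | rfl | rfl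
    · refine ⟨1, ?_, ?_, ?_⟩
      · rw [show (0 : ZMod 5) + 1 = 1 by decide, pentV0, pentV1]; rfl
      · left; rfl
      · intro j hj
        rw [show (0 : ZMod 5) + 1 = 1 by decide, pentV0, pentV1]
        fin_cases j <;> first
          | exact absurd rfl hj
          | (refine ⟨?_, ?_, ?_, ?_, ?_⟩ <;> (try simp) <;> first
              | linarith
              | (intro h; linarith))
    · refine ⟨0, ?_, ?_, ?_⟩
      · rw [show (1 : ZMod 5) + 1 = 2 by decide, pentV1, pentV2]; rfl
      · right; rw [pentV1]; simp; ring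
      · intro j hj
        rw [show (1 : ZMod 5) + 1 = 2 by decide, pentV1, pentV2]
        fin_cases j <;> first
          | exact absurd rfl hj
          | (refine ⟨?_, ?_, ?_, ?_, ?_⟩ <;> (try simp) <;> first
              | linarith
              | (intro h; linarith))
    · refine ⟨2, ?_, ?_, ?_⟩
      · rw [show (2 : ZMod 5) + 1 = 3 by decide, pentV2, pentV3]; simp; ring
      · left; rw [pentV2]; simp; try ring
      · intro j hj
        rw [show (2 : ZMod 5) + 1 = 3 by decide, pentV2, pentV3]
        fin_cases j <;> first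
          | exact absurd rfl hj
          | (refine ⟨?_, ?_, ?_, ?_, ?_⟩ <;> (try simp) <;> first
              | linarith
              | (intro h; linarith))
    · refine ⟨1, ?_, ?_, ?_⟩
      · rw [show (3 : ZMod 5) + 1 = 4 by decide, pentV3, pentV4]; rfl
      · right; rw [pentV3]; simp; ring
      · intro j hj
        rw [show (3 : ZMod 5) + 1 = 4 by decide, pentV3, pentV4]
        fin_cases j <;> first
          | exact absurd rfl hj
          | (refine ⟨?_, ?_, ?_, ?_, ?_⟩ <;> (try simp) <;> first
              | linarith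
              | (intro h; linarith))
    · refine ⟨0, ?_, ?_, ?_⟩
      · rw [show (4 : ZMod 5) + 1 = 0 by decide, pentV4, pentV0]; rfl
      · left; rfl
      · intro j hj
        rw [show (4 : ZMod 5) + 1 = 0 by decide, pentV4, pentV0]
        fin_cases j <;> first
          | exact absurd rfl hj
          | (refine ⟨?_, ?_, ?_, ?_, ?_⟩ <;> (try simp) <;> first
              | linarith
              | (intro h; linarith))
  · intro k z hz
    obtain ⟨h1, h2⟩ := hz
    have g0 := h2 0
    have g1 := h2 1
    have g2 := h2 2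
    fin_cases k
    · simp at h1 g1 g2
      rcases h1 with h1 | h1
      · refine ⟨4, mem_open_of (l := p + q + t) (k := 0) (j := 1) (by decide) ?_ ?_ ?_⟩
        · rw [show (4 : ZMod 5) + 1 = 0 by decide, pentV4, pentV0]; rfl
        · rw [pentV4]; exact h1
        · right
          rw [show (4 : ZMod 5) + 1 = 0 by decide, pentV4, pentV0]
          simp; constructor <;> linarith
      · refine ⟨1, mem_open_of (l := p + q + t) (k := 0) (j := 1) (by decide) ?_ ?_ ?_⟩
        · rw [show (1 : ZMod 5) + 1 = 2 by decide, pentV1, pentV2]; rfl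
        · rw [pentV1]; simp; linarith
        · left
          rw [show (1 : ZMod 5) + 1 = 2 by decide, pentV1, pentV2]
          simp; constructor <;> linarith
    · simp at h1 g0 g2
      rcases h1 with h1 | h1
      · refine ⟨0, mem_open_of (l := p + q + t) (k := 1) (j := 0) (by decide) ?_ ?_ ?_⟩
        · rw [show (0 : ZMod 5) + 1 = 1 by decide, pentV0, pentV1]; rfl
        · rw [pentV0]; exact h1
        · left
          rw [show (0 : ZMod 5) + 1 = 1 by decide, pentV0, pentV1]
          simp; constructor <;> linarith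
      · refine ⟨3, mem_open_of (l := p + q + t) (k := 1) (j := 0) (by decide) ?_ ?_ ?_⟩
        · rw [show (3 : ZMod 5) + 1 = 4 by decide, pentV3, pentV4]; rfl
        · rw [pentV3]; simp; linarith
        · right
          rw [show (3 : ZMod 5) + 1 = 4 by decide, pentV3, pentV4]
          simp; constructor <;> linarith
    · simp at h1 g0 g1
      rcases h1 with h1 | h1
      · refine ⟨2, mem_open_of (l := p + q + t) (k := 2) (j := 0) (by decide) ?_ ?_ ?_⟩
        · rw [show (2 : ZMod 5) + 1 = 3 by decide, pentV2, pentV3]; simp; ring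
        · rw [pentV2]; simp; linarith
        · right
          rw [show (2 : ZMod 5) + 1 = 3 by decide, pentV2, pentV3]
          simp; constructor <;> linarith
      · exfalso; linarith

/-- The hexagon: finite leaves give (AP). -/
theorem hex_iff (hp : 0 < p) (hq : 0 < q) (hr : 0 < r) (ht : 0 ≤ t) {y : ℝ × ℝ × ℝ}
    (hreach : Relation.ReflTransGen (RStep t) (p, q, r) y) (hstuck : Stuck t y)
    (hstr : 0 < t ∨ StrictTriangle y) :
    AP (hexV p q r t) ↔ (Long y ∨ Commens y) := by
  have hpos : Pos3 (p, q, r) := ⟨hp, hq, hr⟩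
  have hm := isModel_hex hp hq hr ht
  have hypos := Reach.pos hreach hpos
  constructor
  · intro h
    by_contra hne
    rw [not_or] at hne
    have hpar : Par (p + q + r + t) p q r :=
      ⟨hp.le, hq.le, hr.le, by linarith, by linarith, by linarith, by linarith⟩
    refine hm.not_ap hpar ?_ ?_ h
    · refine Reach.odd ht hreach hpos (odd_terminal ht hypos ?_)
      have hn := hne.1
      simp only [Long, not_or, not_lt] at hn
      rcases hstr with h1 | ⟨h1, h2, h3⟩
      · exact ⟨by linarith, by linarith, by linarith⟩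
      · exact ⟨by linarith, by linarith, by linarith⟩
    · exact Reach.inf ht hreach hpos (inf_terminal ht hypos hne.1 hne.2)
  · intro h
    exact hm.ap_of_fin (Reach.fin ht hreach hpos (fin_terminal ht hypos hstuck h))

theorem pent_ap (hp : 0 < p) (hq : 0 < q) (ht : 0 < t) : AP (pentV p q t) :=
  (isModel_pent hp hq ht).ap_of_fin (finL_pentagon hp.le hq.le ht)

end

end SympB
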