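import Pool.Agent.W_MP_93b186_an_helper62.Dyn

/-!
# Failure of (AP) from an odd closed leaf and an infinite leaf
-/

namespace SympB

section
variable {n : ℕ} {v : ZMod n → ℝ × ℝ} {l p q r : ℝ}

/-- boundary points carried by a chord family -/
def PtsOf (l : ℝ) (P : Fin 3 → ℝ) (S : Fin 3 → Set ℝ) : Set (ℝ × ℝ) :=
  {z | ∃ k, Bd l P k z ∧ ∀ j, j ≠ k → co l j z ∈ S j}

theorem Reg.union {A B C A' B' C' : Set ℝ} (h : Reg l p q r A B C) (h' : Reg l p q r A' B' C') :
    Reg l p q r (A ∪ A') (B ∪ B') (C ∪ C') where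
  a := fun x hx => hx.elim (h.a x) (h'.a x)
  b := fun x hx => hx.elim (h.b x) (h'.b x)
  c := fun x hx => hx.elim (h.c x) (h'.c x)

/-- existence of the other endpoint -/
theorem exists_other (hpar : Par l p q r) {A B C : Set ℝ} (hcl : Closed l p q r A B C)
    (hreg : Reg l p q r A B C) {k j : Fin 3} {z : ℝ × ℝ} (hz : Bd l ![p, q, r] k z)
    (hj : j ≠ k) (hm : co l j z ∈ (![A, B, C] : Fin 3 → Set ℝ) j) :
    ∃ w, w ≠ z ∧ co l j w = co l j z ∧ ∃ k', k' ≠ j ∧ Bd l ![p, q, r] k' w ∧
      ∀ i, i ≠ k' → co l i w ∈ (![A, B, C] : Fin 3 → Set ℝ) i := by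
  have hch := hreg.ch j hm
  have hzj := hz.2 j hj
  have h12 := E1_ne_E2 hpar j hzj.1 hzj.2
  have key : ∀ w : ℝ × ℝ, co l j w = co l j z → ∀ k', k' ≠ j → Bd l ![p, q, r] k' w →
      ∀ i, i ≠ k' → co l i w ∈ (![A, B, C] : Fin 3 → Set ℝ) i := by
    intro w hw k' hk' hB i hi
    by_cases hij : i = j
    · rw [hij, hw]; exact hm
    · exact hcl.pt hB (Ne.symm hk') hi (Ne.symm hij) (by rw [hw]; exact hm)
  rcases eq_E1_or_E2 j (hz.isB (hpar.le k)) hzj.1 hzj.2 with h | h
  · obtain ⟨k', hk', hB⟩ := E2_Bd hpar j hch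
    refine ⟨E2 l p q r j (co l j z), ?_, co_E2 j _, k', hk', hB, key _ (co_E2 j _) k' hk' hB⟩
    intro h'
    exact h12 (h.symm.trans h'.symm)
  · obtain ⟨k', hk', hB⟩ := E1_Bd hpar j hch
    refine ⟨E1 l p q r j (co l j z), ?_, co_E1 j _, k', hk', hB, key _ (co_E1 j _) k' hk' hB⟩
    intro h'
    exact h12 (h'.trans h)

/-- An infinite orbit from an odd closed leaf and an infinite leaf. -/
theorem IsModel.not_ap (hm : IsModel v l p q r) (hpar : Par l p q r)
    (hodd : OddFam l p q r) (hinf : InfFam l p q r) : ¬ AP v := by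
  classical
  intro hAP
  obtain ⟨A, B, C, fA, fB, fC, hcl, hreg, hodd⟩ := hodd
  obtain ⟨A2, B2, C2, hcl2, hreg2, hne2, hdis2⟩ := hinf
  set S1 : Fin 3 → Set ℝ := ![A, B, C] with hS1
  set S2 : Fin 3 → Set ℝ := ![A2, B2, C2] with hS2
  set S : Fin 3 → Set ℝ := ![A ∪ A2, B ∪ B2, C ∪ C2] with hS
  have hS1S : ∀ j, S1 j ⊆ S j := by
    intro j; fin_cases j <;> exact Set.subset_union_left
  have hS2S : ∀ j, S2 j ⊆ S j := by
    intro j; fin_cases j <;> exact Set.subset_union_right
  have hclS := hcl.union hcl2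
  have hregS := hreg.union hreg2
  -- the points
  let X := {z : ℝ × ℝ // ∃ k, Bd l ![p, q, r] k z ∧ ∀ j, j ≠ k → co l j z ∈ S j}
  have hdir : ∀ z : X, ∃ k, Bd l ![p, q, r] k z.1 ∧ ∀ j, j ≠ k → co l j z.1 ∈ S j := fun z => z.2
  choose dir hdirB hdirS using hdir
  have hother : ∀ (j : Fin 3) (z : X), ∃ w : X, dir z ≠ j →
      (w.1 ≠ z.1 ∧ co l j w.1 = co l j z.1 ∧ dir w ≠ j) := by
    intro j z
    by_cases hj : dir z = j
    · exact ⟨z, fun h => absurd hj h⟩
    · obtain ⟨w, h1, h2, k', h3, h4, h5⟩ := exists_other hpar hclS hregS (hdirB z) (Ne.symm hj)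
        (hdirS z j (Ne.symm hj))
      refine ⟨⟨w, k', h4, h5⟩, fun _ => ⟨h1, h2, ?_⟩⟩
      have : dir ⟨w, k', h4, h5⟩ = k' := (hdirB ⟨w, k', h4, h5⟩).unique h4
      rw [this]; exact h3
  choose φ hφ using hother
  have hisB : ∀ z : X, IsB l ![p, q, r] z.1 := fun z => (hdirB z).isB (hpar.le _)
  -- uniqueness
  have huniq : ∀ (j : Fin 3) (z w : X), dir z ≠ j → co l j w.1 = co l j z.1 →
      w = z ∨ w = φ j z := by
    intro j z w hj hw
    have hr := (hdirB z).2 j (Ne.symm hj)
    obtain ⟨h1, h2, h3⟩ := hφ j z hj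
    rcases two_points j (hisB z) (hisB (φ j z)) (hisB w) hr.1 hr.2 h2 hw h1 with h | h
    · exact Or.inl (Subtype.ext h)
    · exact Or.inr (Subtype.ext h)
  have hTri : Tri dir φ := by
    refine ⟨?_, ?_, ?_⟩
    · intro j x hj
      obtain ⟨h1, h2, h3⟩ := hφ j x hj
      obtain ⟨g1, g2, g3⟩ := hφ j (φ j x) h3
      rcases huniq j x (φ j (φ j x)) hj (g2.trans h2) with h | h
      · exact h
      · exact absurd (congrArg Subtype.val h) g1
    · intro j x hj; exact (hφ j x hj).2.2
    · intro j x hj h; exact (hφ j x hj).1 (congrArg Subtype.val h)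
  -- the finite leaf family
  have hfS1 : ∀ j, (S1 j).Finite := by
    intro j; fin_cases j
    · exact fA
    · exact fB
    · exact fC
  have hFfin : {x : X | ∀ j, j ≠ dir x → co l j x.1 ∈ S1 j}.Finite := by
    have h := finite_pts (l := l) hfS1 ![p, q, r]
    refine Set.Finite.of_finite_image (f := Subtype.val) (h.subset ?_)
      Subtype.val_injective.injOn
    rintro _ ⟨x, hx, rfl⟩
    exact ⟨dir x, hdirB x, hx⟩
  set F : Finset X := hFfin.toFinset with hF
  have hmemF : ∀ x : X, x ∈ F ↔ ∀ j, j ≠ dir x → co l j x.1 ∈ S1 j := by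
    intro x; rw [hF, Set.Finite.mem_toFinset]; rfl
  have hFcl : ∀ x ∈ F, ∀ j, dir x ≠ j → φ j x ∈ F := by
    intro x hx j hj
    rw [hmemF] at hx ⊢
    obtain ⟨h1, h2, h3⟩ := hφ j x hj
    have h4 : co l j (φ j x).1 ∈ S1 j := by rw [h2]; exact hx j (Ne.symm hj)
    intro i hi
    by_cases hij : i = j
    · rw [hij]; exact h4
    · exact hcl.pt (hdirB (φ j x)) (Ne.symm h3) hi (Ne.symm hij) h4
  -- counting
  have hcount : ∀ j : Fin 3, (F.filter (fun x => dir x ≠ j)).card = 2 * (S1 j).ncard := by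
    intro j
    have hmap : ∀ x ∈ F.filter (fun x => dir x ≠ j), co l j x.1 ∈ (hfS1 j).toFinset := by
      intro x hx
      rw [Finset.mem_filter, hmemF] at hx
      rw [Set.Finite.mem_toFinset]
      exact hx.1 j (Ne.symm hx.2)
    rw [Finset.card_eq_sum_card_fiberwise hmap]
    have hfib : ∀ s ∈ (hfS1 j).toFinset,
        ((F.filter (fun x => dir x ≠ j)).filter (fun x => co l j x.1 = s)).card = 2 := by
      intro s hs
      rw [Set.Finite.mem_toFinset] at hs
      have hch := hreg.ch j hs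
      obtain ⟨k1, hk1, hB1⟩ := E1_Bd hpar j hch
      obtain ⟨k2, hk2, hB2⟩ := E2_Bd hpar j hch
      have m1 : ∀ i, i ≠ k1 → co l i (E1 l p q r j s) ∈ S1 i := by
        intro i hi
        by_cases hij : i = j
        · rw [hij, co_E1]; exact hs
        · exact hcl.pt hB1 (Ne.symm hk1) hi (Ne.symm hij) (by rw [co_E1]; exact hs)
      have m2 : ∀ i, i ≠ k2 → co l i (E2 l p q r j s) ∈ S1 i := by
        intro i hi
        by_cases hij : i = j
        · rw [hij, co_E2]; exact hs
        · exact hcl.pt hB2 (Ne.symm hk2) hi (Ne.symm hij) (by rw [co_E2]; exact hs)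
      let x1 : X := ⟨E1 l p q r j s, k1, hB1, fun i hi => hS1S i (m1 i hi)⟩
      let x2 : X := ⟨E2 l p q r j s, k2, hB2, fun i hi => hS1S i (m2 i hi)⟩
      have d1 : dir x1 = k1 := (hdirB x1).unique hB1
      have d2 : dir x2 = k2 := (hdirB x2).unique hB2
      rw [Finset.card_eq_two]
      refine ⟨x1, x2, ?_, ?_⟩
      · intro h
        exact E1_ne_E2 hpar j hch.1 hch.2.1 (congrArg Subtype.val h)
      · ext x
        simp only [Finset.mem_filter, Finset.mem_insert, Finset.mem_singleton]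
        constructor
        · rintro ⟨⟨h1, h2⟩, h3⟩
          have hr := (hdirB x).2 j (Ne.symm h2)
          rcases eq_E1_or_E2 j (hisB x) hr.1 hr.2 with h | h
          · rw [h3] at h; exact Or.inl (Subtype.ext h)
          · rw [h3] at h; exact Or.inr (Subtype.ext h)
        · rintro (rfl | rfl)
          · refine ⟨⟨?_, by rw [d1]; exact hk1⟩, co_E1 (p := p) j s⟩
            rw [hmemF, d1]; exact m1
          · refine ⟨⟨?_, by rw [d2]; exact hk2⟩, co_E2 (r := r) j s⟩
            rw [hmemF, d2]; exact m2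
    rw [Finset.sum_congr rfl hfib, Finset.sum_const, smul_eq_mul, mul_comm,
      ← Set.ncard_eq_toFinset_card (S1 j) (hfS1 j)]
  have hN : ∀ j : Fin 3, Odd ((F.filter (fun x => dir x = j)).card) := by
    have hsplit : ∀ j : Fin 3, (F.filter (fun x => dir x = j)).card +
        (F.filter (fun x => dir x ≠ j)).card = F.card := fun j =>
      Finset.card_filter_add_card_filter_not (s := F) (fun x => dir x = j)
    have hsum : (F.filter (fun x => dir x = 0)).card + (F.filter (fun x => dir x = 1)).card +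
        (F.filter (fun x => dir x = 2)).card = F.card := by
      have := Finset.card_eq_sum_card_fiberwise (s := F) (t := Finset.univ) (f := dir)
        (fun x _ => Finset.mem_univ _)
      rw [this, Fin.sum_univ_three]
    have c0 := hcount 0
    have c1 := hcount 1
    have c2 := hcount 2
    have s0 := hsplit 0
    have s1 := hsplit 1
    have s2 := hsplit 2
    have e0 : (S1 0).ncard = A.ncard := rfl
    have e1 : (S1 1).ncard = B.ncard := rfl
    have e2 : (S1 2).ncard = C.ncard := rfl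
    rw [e0] at c0
    rw [e1] at c1
    rw [e2] at c2
    obtain ⟨m, hm'⟩ := hodd
    have hFc : F.card = A.ncard + B.ncard + C.ncard := by omega
    intro j
    rw [Nat.odd_iff]
    fin_cases j
    · show (F.filter (fun x => dir x = 0)).card % 2 = 1
      omega
    · show (F.filter (fun x => dir x = 1)).card % 2 = 1
      omega
    · show (F.filter (fun x => dir x = 2)).card % 2 = 1
      omega
  -- a point of the infinite family
  have hw0 : ∃ w0 : X, ∀ j, j ≠ dir w0 → co l j w0.1 ∈ S2 j := by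
    have hex : ∃ (j : Fin 3) (s : ℝ), s ∈ S2 j := by
      obtain ⟨s, (hs | hs) | hs⟩ := hne2
      · exact ⟨0, s, hs⟩
      · exact ⟨1, s, hs⟩
      · exact ⟨2, s, hs⟩
    obtain ⟨j, s, hs⟩ := hex
    obtain ⟨k1, hk1, hB1⟩ := E1_Bd hpar j (hreg2.ch j hs)
    have m1 : ∀ i, i ≠ k1 → co l i (E1 l p q r j s) ∈ S2 i := by
      intro i hi
      by_cases hij : i = j
      · rw [hij, co_E1]; exact hs
      · exact hcl2.pt hB1 (Ne.symm hk1) hi (Ne.symm hij) (by rw [co_E1]; exact hs)
    let w0 : X := ⟨E1 l p q r j s, k1, hB1, fun i hi => hS2S i (m1 i hi)⟩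
    have d1 : dir w0 = k1 := (hdirB w0).unique hB1
    exact ⟨w0, by rw [d1]; exact m1⟩
  obtain ⟨w0, hw0⟩ := hw0
  obtain ⟨j0, hj0, _⟩ := fin3_ex (dir w0) (dir w0)
  -- the leaf of w0 is infinite
  have hinfleaf : ∀ G : Set X, G.Finite → w0 ∈ G →
      (∀ x ∈ G, ∀ j, dir x ≠ j → φ j x ∈ G) → False := by
    intro G hG hwG hGcl
    set T : Fin 3 → Set ℝ := fun i => {s | ∃ z ∈ G, dir z ≠ i ∧ co l i z.1 = s} with hT
    have hTfin : ∀ i, (T i).Finite := by
      intro i
      refine (hG.image (fun z : X => co l i z.1)).subset ?_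
      rintro s ⟨z, hz, _, hs⟩
      exact ⟨z, hz, hs⟩
    have hTcl : Closed l p q r (T 0) (T 1) (T 2) := by
      refine Closed.of_pt hpar ?_
      have e : (![T 0, T 1, T 2] : Fin 3 → Set ℝ) = T := by
        funext i; fin_cases i <;> rfl
      rw [e]
      rintro k i j z hz hi hj ⟨x, hx, hxi, hxz⟩
      have hr := (hdirB x).2 i (Ne.symm hxi)
      obtain ⟨h1, h2, h3⟩ := hφ i x hxi
      rcases two_points i (hisB x) (hisB (φ i x)) (hz.isB (hpar.le k)) hr.1 hr.2 h2 hxz.symm h1
        with h | h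
      · refine ⟨x, hx, ?_, by rw [h]⟩
        have : dir x = k := by
          rw [h] at hz; exact (hdirB x).unique hz
        rw [this]; exact Ne.symm hj
      · refine ⟨φ i x, hGcl x hx i hxi, ?_, by rw [h]⟩
        have : dir (φ i x) = k := by
          rw [h] at hz; exact (hdirB (φ i x)).unique hz
        rw [this]; exact Ne.symm hj
    obtain ⟨d0, d1, d2⟩ := hdis2 (T 0) (T 1) (T 2) (hTfin 0) (hTfin 1) (hTfin 2) hTcl
    have hd : ∀ j, ∀ x ∈ S2 j, x ∉ T j := by
      intro j; fin_cases j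
      · exact d0
      · exact d1
      · exact d2
    exact hd j0 _ (hw0 j0 hj0) ⟨w0, hwG, Ne.symm hj0, rfl⟩
  -- the state space
  let Om := {s : X × X // dir s.1 ≠ dir s.2}
  let al : Om → Om := fun s => ⟨(φ (dir s.1.2) s.1.1, s.1.2), hTri.dir_ne _ _ s.2⟩
  let be : Om → Om := fun s => ⟨(s.1.1, φ (dir s.1.1) s.1.2),
    (hTri.dir_ne _ _ (Ne.symm s.2)).symm⟩
  have hal : Function.Involutive al := by
    intro s
    apply Subtype.ext
    exact Prod.ext (hTri.inv _ _ s.2) rfl
  have hbe : Function.Involutive be := by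
    intro s
    apply Subtype.ext
    exact Prod.ext rfl (hTri.inv _ _ (Ne.symm s.2))
  let th : Equiv.Perm Om := (hal.toPerm al).trans (hbe.toPerm be)
  have hth : ∀ s, th s = be (al s) := fun s => rfl
  -- orbits
  have horb : ∀ s : Om, ∃ m : ℕ, 1 ≤ m ∧ (th ^ m) s = s := by
    intro s
    let x : ℤ → ℝ × ℝ := fun k => if Even k then ((th ^ (k / 2)) s).1.1.1
      else ((th ^ (k / 2)) s).1.2.1
    have hxe : ∀ k : ℤ, x (2 * k) = ((th ^ k) s).1.1.1 := by
      intro k
      have h1 : Even (2 * k) := even_two_mul k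
      have h2 : (2 * k) / 2 = k := by omega
      simp only [x, h1, if_true, h2]
    have hxo : ∀ k : ℤ, x (2 * k + 1) = ((th ^ k) s).1.2.1 := by
      intro k
      have h1 : ¬ Even (2 * k + 1) := by
        rw [Int.not_even_iff_odd]; exact odd_two_mul_add_one k
      have h2 : (2 * k + 1) / 2 = k := by omega
      simp only [x, h1, if_false, h2]
    have hsucc : ∀ k : ℤ, (th ^ (k + 1)) s = be (al ((th ^ k) s)) := by
      intro k
      rw [add_comm, zpow_add, zpow_one, Equiv.Perm.mul_apply, hth]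
    have hx : IsOrbit v x := by
      intro k
      rcases Int.even_or_odd' k with ⟨c, hc | hc⟩
      · subst hc
        have e : 2 * c + 2 = 2 * (c + 1) := by ring
        rw [e, hxe, hxo, hxe, hsucc]
        set u := (th ^ c) s
        obtain ⟨h1, h2, h3⟩ := hφ (dir u.1.2) u.1.1 u.2
        exact hm.step_mk hpar (hdirB u.1.1) (hdirB u.1.2) (hdirB (φ (dir u.1.2) u.1.1)) u.2 h2 h1
      · subst hc
        have e : 2 * c + 1 + 2 = 2 * (c + 1) + 1 := by ring
        have e' : 2 * c + 1 + 1 = 2 * (c + 1) := by ring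
        rw [e, e', hxe, hxo, hxo, hsucc]
        set u := al ((th ^ c) s) with hu
        have hu2 : ((th ^ c) s).1.2 = u.1.2 := rfl
        rw [hu2]
        obtain ⟨h1, h2, h3⟩ := hφ (dir u.1.1) u.1.2 (Ne.symm u.2)
        exact hm.step_mk hpar (hdirB u.1.2) (hdirB u.1.1) (hdirB (φ (dir u.1.1) u.1.2))
          (Ne.symm u.2) h2 h1
    obtain ⟨m, hm1, hm2, hm3⟩ := hAP x hx
    have hper : ∀ i : ℕ, x (m + i) = x i ∧ x (m + i + 1) = x (i + 1) := by
      intro i
      induction i with
      | zero => exact ⟨by simpa using hm2, by simpa using hm3⟩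
      | succ i ih =>
        obtain ⟨ih1, ih2⟩ := ih
        have s1 := hx (m + i)
        have s2 := hx i
        rw [ih1, ih2] at s1
        have := hm.step_fun s1 s2
        refine ⟨?_, ?_⟩
        · push_cast
          rw [← add_assoc]; exact ih2
        · push_cast
          have e1 : (m : ℤ) + ((i : ℤ) + 1) + 1 = m + i + 2 := by ring
          have e2 : (i : ℤ) + 1 + 1 = i + 2 := by ring
          rw [e1, e2]; exact this
    refine ⟨m, hm1, ?_⟩
    obtain ⟨p1, p2⟩ := hper m
    have q1 : x (2 * (m : ℤ)) = x 0 := by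
      have e : 2 * (m : ℤ) = m + m := by ring
      rw [e, p1, hm2]
    have q2 : x (2 * (m : ℤ) + 1) = x 1 := by
      have e : 2 * (m : ℤ) + 1 = m + m + 1 := by ring
      rw [e, p2, hm3]
    have r1 : x 0 = ((th ^ (0 : ℤ)) s).1.1.1 := hxe 0
    have r2 : x 1 = ((th ^ (0 : ℤ)) s).1.2.1 := hxo 0
    rw [hxe, r1, zpow_natCast, zpow_zero] at q1
    rw [hxo, r2, zpow_natCast, zpow_zero] at q2
    apply Subtype.ext
    exact Prod.ext (Subtype.ext q1) (Subtype.ext q2)
  -- finite closed sets of states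
  have hfinset : ∀ s : Om, ∃ Q : Finset Om, s ∈ Q ∧ (∀ u ∈ Q, al u ∈ Q) ∧ (∀ u ∈ Q, be u ∈ Q) ∧
      (s.1.1 ∈ F → ∀ u ∈ Q, u.1.1 ∈ F) := by
    intro s
    obtain ⟨m, hm1, hm2⟩ := horb s
    have hpow : ∀ i : ℕ, (th ^ (i + 1)) s = be (al ((th ^ i) s)) := by
      intro i; rw [pow_succ', Equiv.Perm.mul_apply, hth]
    refine ⟨(Finset.range m).image (fun i => (th ^ i) s) ∪
      (Finset.range m).image (fun i => al ((th ^ i) s)), ?_, ?_, ?_, ?_⟩
    · apply Finset.mem_union_left
      exact Finset.mem_image.2 ⟨0, Finset.mem_range.2 hm1, by simp⟩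
    · intro u hu
      rcases Finset.mem_union.1 hu with hu | hu
      · obtain ⟨i, hi, rfl⟩ := Finset.mem_image.1 hu
        exact Finset.mem_union_right _ (Finset.mem_image.2 ⟨i, hi, rfl⟩)
      · obtain ⟨i, hi, rfl⟩ := Finset.mem_image.1 hu
        exact Finset.mem_union_left _ (Finset.mem_image.2 ⟨i, hi, (hal _).symm⟩)
    · intro u hu
      rcases Finset.mem_union.1 hu with hu | hu
      · obtain ⟨i, hi, rfl⟩ := Finset.mem_image.1 hu
        rw [Finset.mem_range] at hi
        apply Finset.mem_union_right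
        rw [Finset.mem_image]
        rcases Nat.eq_zero_or_pos i with h0 | h0
        · refine ⟨m - 1, Finset.mem_range.2 (by omega), ?_⟩
          have h1 := hpow (m - 1)
          rw [show m - 1 + 1 = m by omega, hm2] at h1
          show al ((th ^ (m - 1)) s) = be ((th ^ i) s)
          rw [h0, pow_zero, Equiv.Perm.one_apply]
          have h2 := congrArg be h1
          rw [hbe] at h2
          exact h2.symm
        · refine ⟨i - 1, Finset.mem_range.2 (by omega), ?_⟩
          have h1 := hpow (i - 1)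
          rw [show i - 1 + 1 = i by omega] at h1
          show al ((th ^ (i - 1)) s) = be ((th ^ i) s)
          rw [h1, hbe]
      · obtain ⟨i, hi, rfl⟩ := Finset.mem_image.1 hu
        rw [Finset.mem_range] at hi
        apply Finset.mem_union_left
        rw [Finset.mem_image]
        show ∃ a ∈ Finset.range m, (th ^ a) s = be (al ((th ^ i) s))
        rw [← hpow]
        rcases Nat.lt_or_ge (i + 1) m with h1 | h1
        · exact ⟨i + 1, Finset.mem_range.2 h1, rfl⟩
        · refine ⟨0, Finset.mem_range.2 hm1, ?_⟩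
          have : i + 1 = m := by omega
          rw [this, hm2]; simp
    · intro hs
      have hpw : ∀ i : ℕ, ((th ^ i) s).1.1 ∈ F := by
        intro i
        induction i with
        | zero => simpa using hs
        | succ i ih =>
          rw [hpow]
          exact hFcl _ ih _ ((th ^ i) s).2
      intro u hu
      rcases Finset.mem_union.1 hu with hu | hu
      · obtain ⟨i, hi, rfl⟩ := Finset.mem_image.1 hu
        exact hpw i
      · obtain ⟨i, hi, rfl⟩ := Finset.mem_image.1 hu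
        exact hFcl _ (hpw i) _ ((th ^ i) s).2
  choose Q hQ1 hQ2 hQ3 hQ4 using hfinset
  -- the total set
  let SS : Finset (X × X) := (F.filter (fun x => dir x = j0)).attach.biUnion (fun x =>
    (Q ⟨(x.1, w0), by
      have := (Finset.mem_filter.1 x.2).2
      rw [this]; exact hj0⟩).image Subtype.val)
  have hSS : ∀ s : X × X, s ∈ SS ↔ ∃ (x : X) (hx : x ∈ F) (hd : dir x = j0) (h : dir x ≠ dir w0),
      ∃ u ∈ Q ⟨(x, w0), h⟩, u.1 = s := by
    intro s
    simp only [SS, Finset.mem_biUnion, Finset.mem_attach, true_and, Finset.mem_image,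
      Subtype.exists, Finset.mem_filter]
    constructor
    · rintro ⟨x, ⟨hx, hd⟩, u, hu, hu2, hus⟩
      exact ⟨x, hx, hd, by rw [hd]; exact hj0, ⟨u, hu⟩, hu2, hus⟩
    · rintro ⟨x, hx, hd, h, u, hu2, hus⟩
      exact ⟨x, ⟨hx, hd⟩, u.1, u.2, hu2, hus⟩
  refine parity hTri SS ?_ ?_ ?_ j0 w0 (Ne.symm hj0) ?_ hinfleaf
  · intro s hs
    obtain ⟨x, hx, hd, h, u, hu, rfl⟩ := (hSS s).1 hs
    exact u.2
  · intro s hs
    obtain ⟨x, hx, hd, h, u, hu, rfl⟩ := (hSS s).1 hs
    rw [hSS]
    exact ⟨x, hx, hd, h, al u, hQ2 _ u hu, rfl⟩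
  · intro s hs
    obtain ⟨x, hx, hd, h, u, hu, rfl⟩ := (hSS s).1 hs
    rw [hSS]
    exact ⟨x, hx, hd, h, be u, hQ3 _ u hu, rfl⟩
  · have e : SS.filter (fun s => s.2 = w0 ∧ dir s.1 = j0) =
        (F.filter (fun x => dir x = j0)).image (fun x => (x, w0)) := by
      ext s
      rw [Finset.mem_filter, Finset.mem_image, hSS]
      constructor
      · rintro ⟨⟨x, hx, hd, h, u, hu, rfl⟩, h1, h2⟩
        refine ⟨u.1.1, Finset.mem_filter.2 ⟨hQ4 _ hx u hu, h2⟩, Prod.ext rfl h1.symm⟩
      · rintro ⟨x, hx, rfl⟩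
        rw [Finset.mem_filter] at hx
        have h : dir x ≠ dir w0 := by rw [hx.2]; exact hj0
        exact ⟨⟨x, hx.1, hx.2, h, ⟨(x, w0), h⟩, hQ1 _, rfl⟩, rfl, hx.2⟩
    rw [e, Finset.card_image_of_injective]
    · exact hN j0
    · intro a b hab
      exact congrArg Prod.fst hab

end

end SympB
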