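import Pool.Agent.W_MP_93b186_an_helper62.Aff
import Pool.Agent.W_MP_93b186_an_helper62.Model

/-!
# Normal forms of convex pentagons and hexagons with at most three side directions
-/

namespace SympB

theorem AffinelyEquivalent.ap_iff {n : ℕ} {v v' : ZMod n → ℝ × ℝ}
    (h : AffinelyEquivalent v v') : AP v ↔ AP v' := by
  obtain ⟨Φ, k, h⟩ := h
  rw [← ap_shift v k, ← ap_affine Φ v']
  have : (fun i => v (i + k)) = fun i => Φ (v' i) := funext h
  rw [this]

section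
variable {n : ℕ} {v : ZMod n → ℝ × ℝ}

theorem cross_self (u : ℝ × ℝ) : cross u u = 0 := by simp [cross]; ring
theorem cross_comm (u w : ℝ × ℝ) : cross u w = - cross w u := by simp [cross]; ring
theorem cross_add_right (u w w' : ℝ × ℝ) : cross u (w + w') = cross u w + cross u w' := by
  simp [cross]; ring
theorem cross_add_left (u w w' : ℝ × ℝ) : cross (w + w') u = cross w u + cross w' u := by
  simp [cross]; ring
theorem cross_smul_right (c : ℝ) (u w : ℝ × ℝ) : cross u (c • w) = c * cross u w := by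
  simp [cross]; ring
theorem cross_smul_left (c : ℝ) (u w : ℝ × ℝ) : cross (c • u) w = c * cross u w := by
  simp [cross]; ring

theorem cross_adj (hv : IsConvexPolygon v) (h2 : (2 : ZMod n) ≠ 0) (h1 : (1 : ZMod n) ≠ 0)
    (i : ZMod n) : 0 < cross (v (i + 1) - v i) (v (i + 2) - v (i + 1)) := by
  have h := hv.2 i (i + 2) (fun h => h2 (by simpa using h)) (fun h => h1 (by
    have h3 : i + 2 - (i + 1) = 0 := by rw [h]; ring
    have h4 : i + 2 - (i + 1) = 1 := by ring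
    rw [← h4, h3]))
  have e : v (i + 2) - v i = (v (i + 1) - v i) + (v (i + 2) - v (i + 1)) := by abel
  rw [e, cross_add_right, cross_self, zero_add] at h
  exact h

theorem exists_smul_of_par {d u w : ℝ × ℝ} (hd : d ≠ 0) (hu : cross d u = 0)
    (hw : cross d w = 0) (hu0 : u ≠ 0) : ∃ c : ℝ, w = c • u := by
  have hd' : d.1 ≠ 0 ∨ d.2 ≠ 0 := by
    by_contra h
    rw [not_or, not_not, not_not] at h
    exact hd (Prod.ext h.1 h.2)
  simp only [cross] at hu hw
  have hc : u.1 * w.2 = u.2 * w.1 := by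
    rcases hd' with h | h
    · have : d.1 * (u.1 * w.2 - u.2 * w.1) = 0 := by linear_combination u.1 * hw - w.1 * hu
      rcases mul_eq_zero.1 this with h' | h'
      · exact absurd h' h
      · linarith
    · have : d.2 * (u.1 * w.2 - u.2 * w.1) = 0 := by linear_combination u.2 * hw - w.2 * hu
      rcases mul_eq_zero.1 this with h' | h'
      · exact absurd h' h
      · linarith
  have hu' : u.1 ≠ 0 ∨ u.2 ≠ 0 := by
    by_contra h
    rw [not_or, not_not, not_not] at h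
    exact hu0 (Prod.ext h.1 h.2)
  rcases hu' with h | h
  · refine ⟨w.1 / u.1, Prod.ext ?_ ?_⟩
    · simp [h]
    · simp only [Prod.smul_snd, smul_eq_mul]
      field_simp
      linarith
  · refine ⟨w.2 / u.2, Prod.ext ?_ ?_⟩
    · simp only [Prod.smul_fst, smul_eq_mul]
      field_simp
      linarith
    · simp [h]

/-- parallel sides are antiparallel -/
theorem antipar (hv : IsConvexPolygon v) {d : ℝ × ℝ} (hd : d ≠ 0) {i j : ZMod n}
    (hi : cross d (v (i + 1) - v i) = 0) (hj : cross d (v (j + 1) - v j) = 0)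
    (hij : j ≠ i) (hij1 : j ≠ i + 1) (hji1 : i ≠ j + 1) :
    ∃ lam : ℝ, 0 < lam ∧ v (j + 1) - v j = -(lam • (v (i + 1) - v i)) := by
  have h1 := hv.2 i j hij hij1
  have h2 := hv.2 j i (Ne.symm hij) hji1
  have hu0 : v (i + 1) - v i ≠ 0 := by
    intro h; rw [h] at h1; simp [cross] at h1
  obtain ⟨c, hc⟩ := exists_smul_of_par hd hi hj hu0
  have e : v i - v j = (-1 : ℝ) • (v j - v i) := by simp
  rw [hc, cross_smul_left, e, cross_smul_right] at h2
  refine ⟨-c, ?_, by rw [hc]; simp⟩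
  by_contra hneg
  push Not at hneg
  have : 0 ≤ c * cross (v (i + 1) - v i) (v j - v i) := mul_nonneg (by linarith) h1.le
  linarith

/-- adjacent sides are not parallel -/
theorem not_par_adj (hv : IsConvexPolygon v) (h2 : (2 : ZMod n) ≠ 0) (h1 : (1 : ZMod n) ≠ 0)
    {d : ℝ × ℝ} (hd : d ≠ 0) {i : ZMod n} (hi : cross d (v (i + 1) - v i) = 0)
    (hj : cross d (v (i + 2) - v (i + 1)) = 0) : False := by
  have h := cross_adj hv h2 h1 i
  have hu0 : v (i + 1) - v i ≠ 0 := by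
    intro h'; rw [h'] at h; simp [cross] at h
  obtain ⟨c, hc⟩ := exists_smul_of_par hd hi hj hu0
  rw [hc, cross_smul_right, cross_self] at h
  simp at h

end

/-- the affine map `(x,y) ↦ w + x e + y f` -/
noncomputable def affMap (e f w : ℝ × ℝ) (h : cross e f ≠ 0) : (ℝ × ℝ) ≃ᵃ[ℝ] (ℝ × ℝ) :=
  (({ toFun := fun z => z.1 • e + z.2 • f
      map_add' := fun x y => by
        apply Prod.ext <;> simp <;> ring
      map_smul' := fun c x => by
        apply Prod.ext <;> simp <;> ring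
      invFun := fun u => (cross u f / cross e f, cross e u / cross e f)
      left_inv := fun z => by
        apply Prod.ext
        · simp only [cross_add_left, cross_smul_left, cross_self, mul_zero, add_zero]
          field_simp
        · simp only [cross_add_right, cross_smul_right, cross_self, mul_zero, zero_add]
          field_simp
      right_inv := fun u => by
        have h' := h
        simp only [cross] at h'
        apply Prod.ext
        · simp only [cross, Prod.fst_add, Prod.smul_fst, smul_eq_mul]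
          rw [div_mul_eq_mul_div, div_mul_eq_mul_div, ← add_div, div_eq_iff h']
          ring
        · simp only [cross, Prod.snd_add, Prod.smul_snd, smul_eq_mul]
          rw [div_mul_eq_mul_div, div_mul_eq_mul_div, ← add_div, div_eq_iff h']
          ring } : (ℝ × ℝ) ≃ₗ[ℝ] (ℝ × ℝ)).toAffineEquiv).trans (AffineEquiv.constVAdd ℝ (ℝ × ℝ) w)

theorem affMap_apply (e f w : ℝ × ℝ) (h : cross e f ≠ 0) (z : ℝ × ℝ) :
    affMap e f w h z = w + (z.1 • e + z.2 • f) := rfl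

theorem comb6 : ∀ a0 a1 a2 a3 a4 a5 : Fin 3, (a0 ≠ a1 ∧ a1 ≠ a2 ∧ a2 ≠ a3 ∧ a3 ≠ a4 ∧ a4 ≠ a5 ∧
    a5 ≠ a0 ∧ ¬ (a0 = a2 ∧ a2 = a4) ∧ ¬ (a1 = a3 ∧ a3 = a5) ∧
    ¬ (a0 = a2 ∧ a1 = a4 ∧ a3 = a5) ∧ ¬ (a1 = a3 ∧ a2 = a5 ∧ a4 = a0) ∧
    ¬ (a2 = a4 ∧ a3 = a0 ∧ a5 = a1)) →
    (a0 = a3 ∧ a1 = a4 ∧ a2 = a5) := by
  decide

theorem comb5 : ∀ a0 a1 a2 a3 a4 : Fin 3, (a0 ≠ a1 ∧ a1 ≠ a2 ∧ a2 ≠ a3 ∧ a3 ≠ a4 ∧ a4 ≠ a0) →
    (a0 = a3 ∧ a1 = a4) ∨ (a1 = a4 ∧ a2 = a0) ∨ (a2 = a0 ∧ a3 = a1) ∨ (a3 = a1 ∧ a4 = a2) ∨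
      (a4 = a2 ∧ a0 = a3) := by
  decide

theorem hex_core {w : ZMod 6 → ℝ × ℝ} {e f : ℝ × ℝ} (hef : cross e f ≠ 0) {p q r t : ℝ}
    (h0 : w 1 - w 0 = (q + t) • e) (h1 : w 2 - w 1 = p • f) (h2 : w 3 - w 2 = (r + t) • (f - e))
    (h3 : w 4 - w 3 = -(q • e)) (h4 : w 5 - w 4 = -((p + t) • f)) :
    ∀ i, w i = affMap e f (w 0 - r • e) hef (hexV p q r t i) := by
  have e1 : w 1 = w 0 + (q + t) • e := by rw [← h0]; abel
  have e2 : w 2 = w 0 + (q + t) • e + p • f := by rw [← e1, ← h1]; abel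
  have e3 : w 3 = w 0 + (q + t) • e + p • f + (r + t) • (f - e) := by rw [← e2, ← h2]; abel
  have e4 : w 4 = w 0 + (q + t) • e + p • f + (r + t) • (f - e) - q • e := by
    rw [← e3, sub_eq_add_neg, ← h3]; abel
  have e5 : w 5 = w 0 + (q + t) • e + p • f + (r + t) • (f - e) - q • e - (p + t) • f := by
    rw [← e4, sub_eq_add_neg, ← h4]; abel
  intro i
  rcases zmod6 i with rfl | rfl | rfl | rfl | rfl | rfl
  · rw [affMap_apply, hexV0]; module
  · rw [affMap_apply, hexV1, e1]; module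
  · rw [affMap_apply, hexV2, e2]; module
  · rw [affMap_apply, hexV3, e3]; module
  · rw [affMap_apply, hexV4, e4]; module
  · rw [affMap_apply, hexV5, e5]; module

theorem pent_core {w : ZMod 5 → ℝ × ℝ} {e f : ℝ × ℝ} (hef : cross e f ≠ 0) {p q t : ℝ}
    (h0 : w 1 - w 0 = (q + t) • e) (h1 : w 2 - w 1 = p • f) (h2 : w 3 - w 2 = t • (f - e))
    (h3 : w 4 - w 3 = -(q • e)) :
    ∀ i, w i = affMap e f (w 0) hef (pentV p q t i) := by
  have e1 : w 1 = w 0 + (q + t) • e := by rw [← h0]; abel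
  have e2 : w 2 = w 0 + (q + t) • e + p • f := by rw [← e1, ← h1]; abel
  have e3 : w 3 = w 0 + (q + t) • e + p • f + t • (f - e) := by rw [← e2, ← h2]; abel
  have e4 : w 4 = w 0 + (q + t) • e + p • f + t • (f - e) - q • e := by
    rw [← e3, sub_eq_add_neg, ← h3]; abel
  intro i
  rcases zmod5 i with rfl | rfl | rfl | rfl | rfl
  · rw [affMap_apply, pentV0]; module
  · rw [affMap_apply, pentV1, e1]; module
  · rw [affMap_apply, pentV2, e2]; module
  · rw [affMap_apply, pentV3, e3]; module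
  · rw [affMap_apply, pentV4, e4]; module

theorem smul_two_zero {e f : ℝ × ℝ} (hef : cross e f ≠ 0) {a b : ℝ}
    (h : a • e + b • f = 0) : a = 0 ∧ b = 0 := by
  constructor
  · have h1 : cross (a • e + b • f) f = 0 := by rw [h]; simp [cross]
    rw [cross_add_left, cross_smul_left, cross_smul_left, cross_self, mul_zero, add_zero] at h1
    rcases mul_eq_zero.1 h1 with h2 | h2
    · exact h2
    · exact absurd h2 hef
  · have h1 : cross e (a • e + b • f) = 0 := by rw [h]; simp [cross]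
    rw [cross_add_right, cross_smul_right, cross_smul_right, cross_self, mul_zero, zero_add] at h1
    rcases mul_eq_zero.1 h1 with h2 | h2
    · exact h2
    · exact absurd h2 hef

/-- Normal form of convex hexagons with at most three side directions. -/
theorem hex_norm {v : ZMod 6 → ℝ × ℝ} (hv : IsConvexPolygon v) (hd : AtMostThreeDirections v) :
    ∃ p q r t : ℝ, 0 < p ∧ 0 < q ∧ 0 < r ∧ 0 ≤ t ∧ AffinelyEquivalent v (hexV p q r t) := by
  obtain ⟨d, hd⟩ := hd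
  choose k hk0 hk using hd
  have two : (2 : ZMod 6) ≠ 0 := by decide
  have one : (1 : ZMod 6) ≠ 0 := by decide
  have adj : ∀ i : ZMod 6, k i ≠ k (i + 1) := by
    intro i h
    have h1 := hk (i + 1)
    rw [← h] at h1
    have e : i + 1 + 1 = i + 2 := by ring
    rw [e] at h1
    exact not_par_adj hv two one (hk0 i) (hk i) h1
  have anti : ∀ i j : ZMod 6, k i = k j → j ≠ i → j ≠ i + 1 → i ≠ j + 1 →
      ∃ lam : ℝ, 0 < lam ∧ v (j + 1) - v j = -(lam • (v (i + 1) - v i)) := by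
    intro i j h h1 h2 h3
    have hj := hk j
    rw [← h] at hj
    exact antipar hv (hk0 i) (hk i) hj h1 h2 h3
  have une : ∀ i : ZMod 6, v (i + 1) - v i ≠ 0 := by
    intro i h
    have := cross_adj hv two one i
    rw [h] at this
    simp [cross] at this
  have three : ∀ i : ZMod 6, ¬ (k i = k (i + 2) ∧ k (i + 2) = k (i + 4)) := by
    rintro i ⟨h1, h2⟩
    have c1 : ∀ i : ZMod 6, i + 2 ≠ i ∧ i + 2 ≠ i + 1 ∧ i ≠ i + 2 + 1 := by decide
    have c2 : ∀ i : ZMod 6, i + 4 ≠ i + 2 ∧ i + 4 ≠ i + 2 + 1 ∧ i + 2 ≠ i + 4 + 1 := by decide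
    have c3 : ∀ i : ZMod 6, i + 4 ≠ i ∧ i + 4 ≠ i + 1 ∧ i ≠ i + 4 + 1 := by decide
    obtain ⟨a, ha, ha'⟩ := anti i (i + 2) h1 (c1 i).1 (c1 i).2.1 (c1 i).2.2
    obtain ⟨b, hb, hb'⟩ := anti (i + 2) (i + 4) h2 (c2 i).1 (c2 i).2.1 (c2 i).2.2
    obtain ⟨c, hc, hc'⟩ := anti i (i + 4) (h1.trans h2) (c3 i).1 (c3 i).2.1 (c3 i).2.2
    rw [ha'] at hb'
    rw [hb'] at hc'
    have h3 : (b * a + c) • (v (i + 1) - v i) = 0 := by
      have : b • a • (v (i + 1) - v i) = -(c • (v (i + 1) - v i)) := by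
        rw [← hc']; simp
      rw [add_smul, mul_smul, this]; simp
    rcases smul_eq_zero.1 h3 with h4 | h4
    · have := mul_pos hb ha
      linarith
    · exact une i h4
  have patt : ∀ i : ZMod 6, ¬ (k i = k (i + 2) ∧ k (i + 1) = k (i + 4) ∧ k (i + 3) = k (i + 5)) := by
    rintro i ⟨h1, _, h2⟩
    have c1 : ∀ i : ZMod 6, i + 2 ≠ i ∧ i + 2 ≠ i + 1 ∧ i ≠ i + 2 + 1 := by decide
    have c2 : ∀ i : ZMod 6, i + 5 ≠ i + 3 ∧ i + 5 ≠ i + 3 + 1 ∧ i + 3 ≠ i + 5 + 1 := by decide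
    have c3 : ∀ i : ZMod 6, i + 2 + 1 = i + 3 ∧ i + 2 + 2 = i + 3 + 1 ∧ i + 5 + 1 = i ∧
      i + 5 + 2 = i + 1 := by decide
    obtain ⟨a, ha, ha'⟩ := anti i (i + 2) h1 (c1 i).1 (c1 i).2.1 (c1 i).2.2
    obtain ⟨b, hb, hb'⟩ := anti (i + 3) (i + 5) h2 (c2 i).1 (c2 i).2.1 (c2 i).2.2
    have g1 := cross_adj hv two one (i + 2)
    have g2 := cross_adj hv two one (i + 5)
    rw [(c3 i).2.1, ha', (c3 i).1] at g1
    rw [(c3 i).2.2.2, hb', (c3 i).2.2.1] at g2
    have e1 : -(a • (v (i + 1) - v i)) = (-a) • (v (i + 1) - v i) := by simp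
    have e2 : -(b • (v (i + 3 + 1) - v (i + 3))) = (-b) • (v (i + 3 + 1) - v (i + 3)) := by simp
    rw [e1, cross_smul_left] at g1
    rw [e2, cross_smul_left, cross_comm] at g2
    set X := cross (v (i + 1) - v i) (v (i + 3 + 1) - v (i + 3)) with hX
    have s1 : X < 0 := by
      by_contra h
      push Not at h
      have := mul_nonneg ha.le h
      linarith
    have := mul_pos hb (neg_pos.2 s1)
    nlinarith
  have hcomb := comb6 (k 0) (k 1) (k 2) (k 3) (k 4) (k 5)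
    ⟨adj 0, adj 1, adj 2, adj 3, adj 4, adj 5, three 0, three 1, patt 0, patt 1, patt 2⟩
  obtain ⟨k03, k14, k25⟩ := hcomb
  obtain ⟨a0, ha0, hu3⟩ := anti 0 3 k03 (by decide) (by decide) (by decide)
  obtain ⟨a1, ha1, hu4⟩ := anti 1 4 k14 (by decide) (by decide) (by decide)
  obtain ⟨a2, ha2, hu5⟩ := anti 2 5 k25 (by decide) (by decide) (by decide)
  have x1 : (0 : ZMod 6) + 1 = 1 := by decide
  have x2 : (1 : ZMod 6) + 1 = 2 := by decide
  have x3 : (2 : ZMod 6) + 1 = 3 := by decide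
  have x4 : (3 : ZMod 6) + 1 = 4 := by decide
  have x5 : (4 : ZMod 6) + 1 = 5 := by decide
  have x6 : (5 : ZMod 6) + 1 = 0 := by decide
  have x7 : (0 : ZMod 6) + 2 = 2 := by decide
  have x8 : (1 : ZMod 6) + 2 = 3 := by decide
  have x9 : (2 : ZMod 6) + 2 = 4 := by decide
  rw [x1, x4] at hu3
  rw [x2, x5] at hu4
  rw [x3, x6] at hu5
  have c01 := cross_adj hv two one 0
  have c12 := cross_adj hv two one 1
  have c23 := cross_adj hv two one 2
  rw [x1, x7] at c01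
  rw [x2, x8] at c12
  rw [x3, x9, hu3] at c23
  obtain ⟨u0, hu0⟩ : ∃ u, v 1 - v 0 = u := ⟨_, rfl⟩
  obtain ⟨u1, hu1⟩ : ∃ u, v 2 - v 1 = u := ⟨_, rfl⟩
  obtain ⟨u2, hu2⟩ : ∃ u, v 3 - v 2 = u := ⟨_, rfl⟩
  rw [hu0] at hu3 c01 c23
  rw [hu1] at hu4 c01 c12
  rw [hu2] at hu5 c12 c23
  have hD : 0 < cross u0 u2 := by
    have e1 : -(a0 • u0) = (-a0) • u0 := by simp
    rw [e1, cross_smul_right, cross_comm] at c23
    by_contra h
    push Not at h
    have := mul_nonneg ha0.le (neg_nonneg.2 h)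
    nlinarith
  set D := cross u0 u2 with hDdef
  set α := cross u1 u2 / D with hα
  set β := cross u0 u1 / D with hβ
  have hαp : 0 < α := div_pos c12 hD
  have hβp : 0 < β := div_pos c01 hD
  have hu1' : u1 = α • u0 + β • u2 := by
    have h1 : D ≠ 0 := hD.ne'
    apply Prod.ext
    · simp only [Prod.fst_add, Prod.smul_fst, smul_eq_mul, hα, hβ]
      rw [div_mul_eq_mul_div, div_mul_eq_mul_div, ← add_div, eq_div_iff h1, hDdef]
      simp only [cross]; ring
    · simp only [Prod.snd_add, Prod.smul_snd, smul_eq_mul, hα, hβ]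
      rw [div_mul_eq_mul_div, div_mul_eq_mul_div, ← add_div, eq_div_iff h1, hDdef]
      simp only [cross]; ring
  have hef : cross (α • u0) u1 ≠ 0 := by
    rw [cross_smul_left]; exact (mul_pos hαp c01).ne'
  obtain ⟨e, he⟩ : ∃ e, α • u0 = e := ⟨_, rfl⟩
  rw [he] at hef
  have hfe : u1 - e = β • u2 := by rw [← he, hu1']; abel
  have hu0e : u0 = α⁻¹ • e := by rw [← he, smul_smul, inv_mul_cancel₀ hαp.ne', one_smul]
  have hu2e : u2 = β⁻¹ • (u1 - e) := by
    rw [hfe, smul_smul, inv_mul_cancel₀ hβp.ne', one_smul]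
  -- closing condition
  have hclose : (α⁻¹ - β⁻¹ - a0 * α⁻¹ + a2 * β⁻¹) • e + (1 + β⁻¹ - a1 - a2 * β⁻¹) • u1 = 0 := by
    have h1 : u0 + u1 + u2 + (v 4 - v 3) + (v 5 - v 4) + (v 0 - v 5) = 0 := by
      rw [← hu0, ← hu1, ← hu2]; abel
    rw [hu3, hu4, hu5] at h1
    rw [hu0e, hu2e] at h1
    rw [← h1]
    module
  obtain ⟨s1, s2⟩ := smul_two_zero hef hclose
  have hia : 0 < α⁻¹ := inv_pos.2 hαp
  have hib : 0 < β⁻¹ := inv_pos.2 hβp
  rcases le_total 0 (α⁻¹ - a0 * α⁻¹) with ht | ht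
  · refine ⟨1, a0 * α⁻¹, a2 * β⁻¹, α⁻¹ - a0 * α⁻¹, one_pos, mul_pos ha0 hia, mul_pos ha2 hib,
      ht, affMap e u1 (v 0 - (a2 * β⁻¹) • e) hef, 0, ?_⟩
    intro i
    rw [add_zero]
    refine hex_core (w := v) hef ?_ ?_ ?_ ?_ ?_ i
    · rw [hu0, hu0e]; congr 1; ring
    · rw [hu1, one_smul]
    · rw [hu2, hu2e]; congr 1; linarith
    · rw [hu3, hu0e, smul_smul]
    · rw [hu4]
      have : a1 = 1 + (α⁻¹ - a0 * α⁻¹) := by linarith
      rw [this]
  · have hef' : cross (-e) (-u1) ≠ 0 := by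
      have : cross (-e) (-u1) = cross e u1 := by simp [cross]
      rw [this]; exact hef
    refine ⟨a1, α⁻¹, β⁻¹, a0 * α⁻¹ - α⁻¹, ha1, hia, hib,
      by linarith, affMap (-e) (-u1) (v 3 - β⁻¹ • (-e)) hef', 3, ?_⟩
    have y0 : (0 : ZMod 6) + 3 = 3 := by decide
    have y1 : (1 : ZMod 6) + 3 = 4 := by decide
    have y2 : (2 : ZMod 6) + 3 = 5 := by decide
    have y3 : (3 : ZMod 6) + 3 = 0 := by decide
    have y4 : (4 : ZMod 6) + 3 = 1 := by decide
    have y5 : (5 : ZMod 6) + 3 = 2 := by decide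
    intro i
    have := hex_core (w := fun i => v (i + 3)) (e := -e) (f := -u1) hef' (p := a1) (q := α⁻¹)
      (r := β⁻¹) (t := a0 * α⁻¹ - α⁻¹) ?_ ?_ ?_ ?_ ?_ i
    · simp only [y0] at this
      exact this
    · simp only [y0, y1]
      rw [hu3, hu0e, smul_smul]
      have : α⁻¹ + (a0 * α⁻¹ - α⁻¹) = a0 * α⁻¹ := by ring
      rw [this]; simp
    · simp only [y1, y2]
      rw [hu4]; simp
    · simp only [y2, y3]
      rw [hu5, hu2e, smul_smul]
      have : β⁻¹ + (a0 * α⁻¹ - α⁻¹) = a2 * β⁻¹ := by linarith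
      rw [this]
      module
    · simp only [y3, y4]
      rw [hu0, hu0e]; simp
    · simp only [y4, y5]
      rw [hu1]
      have : a1 + (a0 * α⁻¹ - α⁻¹) = 1 := by linarith
      rw [this]; simp

end SympB
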