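import Pool.Agent.W_MP_93b186_an_helper62.Norm

/-!
# Normal form of convex pentagons with at most three side directions
-/

namespace SympB

theorem IsConvexPolygon.shift {n : ℕ} {v : ZMod n → ℝ × ℝ} (hv : IsConvexPolygon v)
    (k : ZMod n) : IsConvexPolygon (fun i => v (i + k)) := by
  refine ⟨hv.1, fun i j h1 h2 => ?_⟩
  have := hv.2 (i + k) (j + k) (fun h => h1 (add_right_cancel h))
    (fun h => h2 (add_right_cancel (h.trans (by ring))))
  have e : i + 1 + k = i + k + 1 := by ring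
  show 0 < cross (v (i + 1 + k) - v (i + k)) (v (j + k) - v (i + k))
  rw [e]; exact this

theorem AffinelyEquivalent.of_shift {n : ℕ} {v v' : ZMod n → ℝ × ℝ} (k : ZMod n)
    (h : AffinelyEquivalent (fun i => v (i + k)) v') : AffinelyEquivalent v v' := by
  obtain ⟨Φ, m, h⟩ := h
  refine ⟨Φ, m + k, fun i => ?_⟩
  rw [← h i, ← add_assoc]

theorem pent_norm0 {v : ZMod 5 → ℝ × ℝ} (hv : IsConvexPolygon v) {a0 a1 : ℝ} (ha0 : 0 < a0)
    (hu3 : v 4 - v 3 = -(a0 • (v 1 - v 0))) (hu4 : v 0 - v 4 = -(a1 • (v 2 - v 1))) :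
    ∃ p q t : ℝ, 0 < p ∧ 0 < q ∧ 0 < t ∧ AffinelyEquivalent v (pentV p q t) := by
  have two : (2 : ZMod 5) ≠ 0 := by decide
  have one : (1 : ZMod 5) ≠ 0 := by decide
  have x1 : (0 : ZMod 5) + 1 = 1 := by decide
  have x2 : (1 : ZMod 5) + 1 = 2 := by decide
  have x3 : (2 : ZMod 5) + 1 = 3 := by decide
  have x7 : (0 : ZMod 5) + 2 = 2 := by decide
  have x8 : (1 : ZMod 5) + 2 = 3 := by decide
  have x9 : (2 : ZMod 5) + 2 = 4 := by decide
  have c01 := cross_adj hv two one 0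
  have c12 := cross_adj hv two one 1
  have c23 := cross_adj hv two one 2
  rw [x1, x7] at c01
  rw [x2, x8] at c12
  rw [x3, x9, hu3] at c23
  obtain ⟨u0, hu0⟩ : ∃ u, v 1 - v 0 = u := ⟨_, rfl⟩
  obtain ⟨u1, hu1⟩ : ∃ u, v 2 - v 1 = u := ⟨_, rfl⟩
  obtain ⟨u2, hu2⟩ : ∃ u, v 3 - v 2 = u := ⟨_, rfl⟩
  rw [hu0] at hu3 c01 c23
  rw [hu1] at hu4 c01 c12
  rw [hu2] at c12 c23
  have hsum : u2 = -(1 - a0) • u0 + (a1 - 1) • u1 := by
    have h1 : u0 + u1 + u2 + (v 4 - v 3) + (v 0 - v 4) = 0 := by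
      rw [← hu0, ← hu1, ← hu2]; abel
    rw [hu3, hu4] at h1
    have h2 : u2 = -(1 - a0) • u0 + (a1 - 1) • u1 +
        (u0 + u1 + u2 + -(a0 • u0) + -(a1 • u1)) := by module
    rw [h2, h1, add_zero]
  have hX : 0 < 1 - a0 := by
    rw [hsum, cross_add_right, cross_smul_right, cross_smul_right, cross_self, mul_zero,
      add_zero, cross_comm] at c12
    by_contra h
    push Not at h
    nlinarith
  have hY : 0 < a1 - 1 := by
    have e1 : -(a0 • u0) = (-a0) • u0 := by simp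
    rw [e1, hsum, cross_smul_right, cross_add_left, cross_smul_left, cross_smul_left, cross_self,
      mul_zero, zero_add, cross_comm] at c23
    by_contra h
    push Not at h
    have h1 : 0 ≤ a0 * cross u0 u1 := (mul_pos ha0 c01).le
    nlinarith
  have hef : cross ((1 - a0) • u0) ((a1 - 1) • u1) ≠ 0 := by
    rw [cross_smul_left, cross_smul_right]
    exact (mul_pos hX (mul_pos hY c01)).ne'
  have hiX : 0 < (1 - a0)⁻¹ := inv_pos.2 hX
  have hiY : 0 < (a1 - 1)⁻¹ := inv_pos.2 hY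
  refine ⟨(a1 - 1)⁻¹, a0 * (1 - a0)⁻¹, 1, hiY, mul_pos ha0 hiX, one_pos,
    affMap _ _ (v 0) hef, 0, ?_⟩
  intro i
  rw [add_zero]
  refine pent_core (w := v) hef ?_ ?_ ?_ ?_ i
  · rw [hu0, smul_smul]
    have : (a0 * (1 - a0)⁻¹ + 1) * (1 - a0) = 1 := by
      field_simp
      ring
    rw [this, one_smul]
  · rw [hu1, smul_smul, inv_mul_cancel₀ hY.ne', one_smul]
  · rw [hu2, hsum]; module
  · rw [hu3, smul_smul]
    have : a0 * (1 - a0)⁻¹ * (1 - a0) = a0 := by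
      field_simp
    rw [this]

/-- Normal form of convex pentagons with at most three side directions. -/
theorem pent_norm {v : ZMod 5 → ℝ × ℝ} (hv : IsConvexPolygon v) (hd : AtMostThreeDirections v) :
    ∃ p q t : ℝ, 0 < p ∧ 0 < q ∧ 0 < t ∧ AffinelyEquivalent v (pentV p q t) := by
  obtain ⟨d, hd⟩ := hd
  choose k hk0 hk using hd
  have two : (2 : ZMod 5) ≠ 0 := by decide
  have one : (1 : ZMod 5) ≠ 0 := by decide
  have adj : ∀ i : ZMod 5, k i ≠ k (i + 1) := by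
    intro i h
    have h1 := hk (i + 1)
    rw [← h] at h1
    have e : i + 1 + 1 = i + 2 := by ring
    rw [e] at h1
    exact not_par_adj hv two one (hk0 i) (hk i) h1
  have hcomb := comb5 (k 0) (k 1) (k 2) (k 3) (k 4) ⟨adj 0, adj 1, adj 2, adj 3, adj 4⟩
  have hi0 : ∃ i0 : ZMod 5, k i0 = k (i0 + 3) ∧ k (i0 + 1) = k (i0 + 4) := by
    rcases hcomb with h | h | h | h | h
    · exact ⟨0, h⟩
    · exact ⟨1, h⟩
    · exact ⟨2, h⟩
    · exact ⟨3, h⟩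
    · exact ⟨4, h⟩
  obtain ⟨i0, h03, h14⟩ := hi0
  have anti : ∀ i j : ZMod 5, k i = k j → j ≠ i → j ≠ i + 1 → i ≠ j + 1 →
      ∃ lam : ℝ, 0 < lam ∧ v (j + 1) - v j = -(lam • (v (i + 1) - v i)) := by
    intro i j h h1 h2 h3
    have hj := hk j
    rw [← h] at hj
    exact antipar hv (hk0 i) (hk i) hj h1 h2 h3
  have c1 : ∀ i : ZMod 5, i + 3 ≠ i ∧ i + 3 ≠ i + 1 ∧ i ≠ i + 3 + 1 := by decide
  have c2 : ∀ i : ZMod 5, i + 4 ≠ i + 1 ∧ i + 4 ≠ i + 1 + 1 ∧ i + 1 ≠ i + 4 + 1 := by decide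
  obtain ⟨a0, ha0, hu3⟩ := anti i0 (i0 + 3) h03 (c1 i0).1 (c1 i0).2.1 (c1 i0).2.2
  obtain ⟨a1, ha1, hu4⟩ := anti (i0 + 1) (i0 + 4) h14 (c2 i0).1 (c2 i0).2.1 (c2 i0).2.2
  have c3 : ∀ i : ZMod 5, i + 3 + 1 = 4 + i ∧ i + 3 = 3 + i ∧ i + 1 = 1 + i ∧ i = 0 + i ∧
      i + 4 + 1 = 0 + i ∧ i + 4 = 4 + i ∧ i + 1 + 1 = 2 + i := by decide
  obtain ⟨e1, e2, e3, e4, e5, e6, e7⟩ := c3 i0
  have g3 : (fun i => v (i + i0)) 4 - (fun i => v (i + i0)) 3 =
      -(a0 • ((fun i => v (i + i0)) 1 - (fun i => v (i + i0)) 0)) := by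
    show v (4 + i0) - v (3 + i0) = -(a0 • (v (1 + i0) - v (0 + i0)))
    rw [← e1, ← e2, ← e3, ← e4]; exact hu3
  have g4 : (fun i => v (i + i0)) 0 - (fun i => v (i + i0)) 4 =
      -(a1 • ((fun i => v (i + i0)) 2 - (fun i => v (i + i0)) 1)) := by
    show v (0 + i0) - v (4 + i0) = -(a1 • (v (2 + i0) - v (1 + i0)))
    rw [← e5, ← e6, ← e7, ← e3]; exact hu4
  obtain ⟨p, q, t, hp, hq, ht, haff⟩ := pent_norm0 (hv.shift i0) ha0 g3 g4
  exact ⟨p, q, t, hp, hq, ht, haff.of_shift i0⟩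

end SympB
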