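import Pool.Agent.W_MP_93b186_an_helper62.Chords

/-!
# The reduction step on the longest side pair

`l, p, q, r` with `l - p < p`; the reduced polygon has `l' = p`, `p' = 2p - l`, `q' = q`, `r' = r`.
-/

namespace SympB

/-- lifted `B` chords -/
def RB (l p r : ℝ) (A' B' : Set ℝ) : Set ℝ :=
  {b | (l - p ≤ b ∧ b - (l - p) ∈ B') ∨ (0 ≤ b ∧ b ≤ r ∧ r - b ∈ A') ∨
    (r ≤ b ∧ b ≤ l - p ∧ b ∈ A')}

/-- lifted `C` chords -/
def RC (l p r : ℝ) (A' C' : Set ℝ) : Set ℝ :=
  {c | (c ≤ p - r ∧ c ∈ C') ∨ (p ≤ c ∧ c ≤ l - r ∧ l - c ∈ A') ∨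
    (p - r ≤ c ∧ c ≤ p ∧ r - p + c ∈ A')}

section
variable {l p r : ℝ} {A' B' C' : Set ℝ}

theorem mem_RB_low {b : ℝ} (hr : r < l - p) (h0 : 0 ≤ b) (h1 : b < r) :
    b ∈ RB l p r A' B' ↔ r - b ∈ A' := by
  constructor
  · rintro (⟨h, _⟩ | ⟨_, _, h⟩ | ⟨h, _, _⟩)
    · exfalso; linarith
    · exact h
    · exfalso; linarith
  · intro h; exact Or.inr (Or.inl ⟨h0, h1.le, h⟩)

theorem mem_RB_mid {b : ℝ} (h0 : r < b) (h1 : b < l - p) :
    b ∈ RB l p r A' B' ↔ b ∈ A' := by
  constructor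
  · rintro (⟨h, _⟩ | ⟨_, h, _⟩ | ⟨_, _, h⟩)
    · exfalso; linarith
    · exfalso; linarith
    · exact h
  · intro h; exact Or.inr (Or.inr ⟨h0.le, h1.le, h⟩)

theorem mem_RB_high {b : ℝ} (hr : r < l - p) (h0 : l - p < b) :
    b ∈ RB l p r A' B' ↔ b - (l - p) ∈ B' := by
  constructor
  · rintro (⟨_, h⟩ | ⟨_, h, _⟩ | ⟨_, h, _⟩)
    · exact h
    · exfalso; linarith
    · exfalso; linarith
  · intro h; exact Or.inl ⟨h0.le, h⟩

theorem mem_RB_r (hr0 : 0 ≤ r) (hr : r < l - p) :
    r ∈ RB l p r A' B' ↔ (0 ∈ A' ∨ r ∈ A') := by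
  constructor
  · rintro (⟨h, _⟩ | ⟨_, _, h⟩ | ⟨_, _, h⟩)
    · exfalso; linarith
    · rw [sub_self] at h; exact Or.inl h
    · exact Or.inr h
  · rintro (h | h)
    · exact Or.inr (Or.inl ⟨hr0, le_rfl, by rw [sub_self]; exact h⟩)
    · exact Or.inr (Or.inr ⟨le_rfl, hr.le, h⟩)

theorem mem_RB_d (hr : r < l - p) :
    l - p ∈ RB l p r A' B' ↔ (0 ∈ B' ∨ l - p ∈ A') := by
  constructor
  · rintro (⟨_, h⟩ | ⟨_, h, _⟩ | ⟨_, _, h⟩)
    · rw [sub_self] at h; exact Or.inl h
    · exfalso; linarith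
    · exact Or.inr h
  · rintro (h | h)
    · exact Or.inl ⟨le_rfl, by rw [sub_self]; exact h⟩
    · exact Or.inr (Or.inr ⟨hr.le, le_rfl, h⟩)

theorem mem_RC_low {c : ℝ} (hr : 0 ≤ r) (h0 : c < p - r) :
    c ∈ RC l p r A' C' ↔ c ∈ C' := by
  constructor
  · rintro (⟨_, h⟩ | ⟨h, _⟩ | ⟨h, _, _⟩)
    · exact h
    · exfalso; linarith
    · exfalso; linarith
  · intro h; exact Or.inl ⟨h0.le, h⟩

theorem mem_RC_mid {c : ℝ} (h0 : p - r < c) (h1 : c < p) :
    c ∈ RC l p r A' C' ↔ r - p + c ∈ A' := by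
  constructor
  · rintro (⟨h, _⟩ | ⟨h, _⟩ | ⟨_, _, h⟩)
    · exfalso; linarith
    · exfalso; linarith
    · exact h
  · intro h; exact Or.inr (Or.inr ⟨h0.le, h1.le, h⟩)

theorem mem_RC_high {c : ℝ} (hr : 0 ≤ r) (h0 : p < c) (h1 : c ≤ l - r) :
    c ∈ RC l p r A' C' ↔ l - c ∈ A' := by
  constructor
  · rintro (⟨h, _⟩ | ⟨_, _, h⟩ | ⟨_, h, _⟩)
    · exfalso; linarith
    · exact h
    · exfalso; linarith
  · intro h; exact Or.inr (Or.inl ⟨h0.le, h1, h⟩)

end

/-- The reduction step preserves closedness (`Q` is the common truth value of the membership of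
the singular chords). -/
theorem Closed.R1 {l p q r : ℝ} {A' B' C' : Set ℝ} (hr : 0 ≤ r)
    (hd : q + r ≤ l - p) (hrd : r < l - p) (hp : l - p < p)
    (h : Closed p (2 * p - l) q r A' B' C') (Q : Prop)
    (q1 : (0 : ℝ) ∈ A' ↔ Q) (q2 : r ∈ A' ↔ Q) (q3 : (0 : ℝ) ∈ B' ↔ Q) (q4 : r ∈ B' ↔ Q)
    (q5 : 2 * p - l ∈ C' ↔ Q) (q6 : p - r ∈ C' ↔ Q) (q7 : l - p ∈ A' ↔ Q) :
    Closed l p q r A' (RB l p r A' B') (RC l p r A' C') where
  s1 := fun a h1 h2 => by
    rw [mem_RB_low hrd (by linarith) (by linarith), sub_sub_cancel]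
  s2 := fun a h1 h2 => by
    rw [mem_RC_high hr (by linarith) (by linarith), sub_sub_cancel]
  s3 := fun a h1 h2 => by
    rw [mem_RB_high hrd (by linarith), h.s3 a h1 (by linarith)]
    have : l - a - (l - p) = p - a := by ring
    rw [this]
  s4 := fun a h1 h2 => by
    rw [mem_RC_low hr (by linarith)]
    exact h.s4 a h1 h2
  s5 := fun b h1 h2 => by
    rcases lt_trichotomy b (l - p) with hb | hb | hb
    · rw [mem_RB_mid h1 hb, mem_RC_high hr (by linarith) (by linarith), sub_sub_cancel]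
    · subst hb
      rw [mem_RB_d hrd, q3, q7, or_self]
      have e : l - (l - p) = p := by ring
      rw [e]
      constructor
      · intro hQ
        exact Or.inr (Or.inl ⟨le_rfl, by linarith, q7.2 hQ⟩)
      · rintro (⟨h3, h4⟩ | ⟨_, _, h4⟩ | ⟨_, _, h4⟩)
        · have hr0 : r = 0 := by linarith
          subst hr0
          rw [sub_zero] at q6
          exact q6.1 h4
        · exact q7.1 h4
        · rw [sub_add_cancel] at h4
          exact q2.1 h4
    · rw [mem_RB_high hrd hb]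
      rcases lt_trichotomy b (l - p + r) with hb2 | hb2 | hb2
      · rw [mem_RC_mid (by linarith) (by linarith)]
        have := h.s1 (r - (b - (l - p))) (by linarith) (by linarith)
        rw [sub_sub_cancel] at this
        rw [← this]
        have e : r - p + (l - b) = r - (b - (l - p)) := by ring
        rw [e]
      · subst hb2
        have e1 : l - p + r - (l - p) = r := by ring
        have e2 : l - (l - p + r) = p - r := by ring
        rw [e1, e2, q4]
        constructor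
        · intro hQ
          exact Or.inl ⟨le_rfl, q6.2 hQ⟩
        · rintro (⟨_, h4⟩ | ⟨h3, h4⟩ | ⟨_, _, h4⟩)
          · exact q6.1 h4
          · exfalso; linarith
          · have e3 : r - p + (p - r) = 0 := by ring
            rw [e3] at h4
            exact q1.1 h4
      · rw [mem_RC_low hr (by linarith)]
        have := h.s5 (b - (l - p)) (by linarith) (by linarith)
        rw [this]
        have e : p - (b - (l - p)) = l - b := by ring
        rw [e]
  s6 := fun b h1 h2 => by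
    rcases lt_trichotomy b r with hb | hb | hb
    · rw [mem_RB_low hrd h1.le hb, mem_RC_mid (by linarith) (by linarith)]
      have e : r - p + (p - b) = r - b := by ring
      rw [e]
    · subst hb
      rw [mem_RB_r hr hrd, q1, q2, or_self]
      constructor
      · intro hQ
        exact Or.inl ⟨le_rfl, q6.2 hQ⟩
      · rintro (⟨_, h4⟩ | ⟨h3, h4⟩ | ⟨_, _, h4⟩)
        · exact q6.1 h4
        · exfalso; linarith
        · have e3 : b - p + (p - b) = 0 := by ring
          rw [e3] at h4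
          exact q1.1 h4
    · rcases lt_trichotomy b (l - p) with hb2 | hb2 | hb2
      · rw [mem_RB_mid hb hb2, mem_RC_low hr (by linarith)]
        exact h.s2 b hb (by linarith)
      · subst hb2
        rw [mem_RB_d hrd, q3, q7, or_self, mem_RC_low hr (by linarith)]
        have e : p - (l - p) = 2 * p - l := by ring
        rw [e, q5]
      · rw [mem_RB_high hrd hb2, mem_RC_low hr (by linarith)]
        have := h.s6 (b - (l - p)) (by linarith) (by linarith)
        rw [this]
        have e : 2 * p - l - (b - (l - p)) = p - b := by ring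
        rw [e]

theorem FinL.R1 {l p q r : ℝ} (hq : 0 ≤ q) (hr : 0 ≤ r)
    (hd : q + r ≤ l - p) (hrd : r < l - p) (hp : l - p < p)
    (h : FinL p (2 * p - l) q r) : FinL l p q r := by
  refine FinL.of_weak (by linarith) hq hr (by linarith) fun x => ?_
  obtain ⟨A', B', C', fA, fB, fC, hcl, iA, iB, iC⟩ :=
    h {x, x - (l - p), r - x, l - x, r - p + x, 0, r, 2 * p - l, p - r, l - p}
      (by simp)
  have mA : ∀ y, y ∈ ({x, x - (l - p), r - x, l - x, r - p + x, 0, r, 2 * p - l, p - r, l - p} :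
    Set ℝ) → y ∈ A' := fun y hy => iA hy
  have mB : ∀ y, y ∈ ({x, x - (l - p), r - x, l - x, r - p + x, 0, r, 2 * p - l, p - r, l - p} :
    Set ℝ) → y ∈ B' := fun y hy => iB hy
  have mC : ∀ y, y ∈ ({x, x - (l - p), r - x, l - x, r - p + x, 0, r, 2 * p - l, p - r, l - p} :
    Set ℝ) → y ∈ C' := fun y hy => iC hy
  refine ⟨A', RB l p r A' B', RC l p r A' C', fA, ?_, ?_, ?_, ?_, ?_, ?_⟩
  · refine (((fB.image (fun b => b + (l - p))).union (fA.image (fun a => r - a))).union fA).subset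
      ?_
    rintro b (⟨_, hb⟩ | ⟨_, _, hb⟩ | ⟨_, _, hb⟩)
    · exact Or.inl (Or.inl ⟨_, hb, by ring⟩)
    · exact Or.inl (Or.inr ⟨_, hb, by ring⟩)
    · exact Or.inr hb
  · refine ((fC.union (fA.image (fun a => l - a))).union (fA.image (fun a => a + p - r))).subset
      ?_
    rintro b (⟨_, hb⟩ | ⟨_, _, hb⟩ | ⟨_, _, hb⟩)
    · exact Or.inl (Or.inl hb)
    · exact Or.inl (Or.inr ⟨_, hb, by ring⟩)
    · exact Or.inr ⟨_, hb, by ring⟩
  · refine Closed.R1 hr hd hrd hp hcl True ?_ ?_ ?_ ?_ ?_ ?_ ?_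
    · exact iff_true_intro (mA _ (by simp))
    · exact iff_true_intro (mA _ (by simp))
    · exact iff_true_intro (mB _ (by simp))
    · exact iff_true_intro (mB _ (by simp))
    · exact iff_true_intro (mC _ (by simp))
    · exact iff_true_intro (mC _ (by simp))
    · exact iff_true_intro (mA _ (by simp))
  · intro _ _; exact mA _ (by simp)
  · intro h0 h1
    rcases le_total x r with hx | hx
    · exact Or.inr (Or.inl ⟨h0.le, hx, mA _ (by simp)⟩)
    · rcases le_total x (l - p) with hx2 | hx2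
      · exact Or.inr (Or.inr ⟨hx, hx2, mA _ (by simp)⟩)
      · exact Or.inl ⟨hx2, mB _ (by simp)⟩
  · intro h0 h1
    rcases le_total x (p - r) with hx | hx
    · exact Or.inl ⟨hx, mC _ (by simp)⟩
    · rcases le_total x p with hx2 | hx2
      · exact Or.inr (Or.inr ⟨hx, hx2, mA _ (by simp)⟩)
      · exact Or.inr (Or.inl ⟨hx2, by linarith, mA _ (by simp)⟩)

/-- Inverse reduction on finite closed families: same `A`, shifted `B`, same `C`. -/
theorem Closed.R1inv {l p q r : ℝ} {A B C : Set ℝ} (hq : 0 ≤ q) (hr : 0 ≤ r)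
    (hd : q + r ≤ l - p) (hp : l - p < p)
    (h : Closed l p q r A B C) :
    Closed p (2 * p - l) q r A {b | b + (l - p) ∈ B} C where
  s1 := fun a h1 h2 => by
    have e1 := h.s1 a h1 h2
    have e2 := h.s6 (r - a) (by linarith) (by linarith)
    have e3 := h.s5 (r - a + (l - p)) (by linarith) (by linarith)
    have e : l - (r - a + (l - p)) = p - (r - a) := by ring
    rw [e] at e3
    rw [e1, e2, ← e3]
    rfl
  s2 := fun a h1 h2 => by
    have e1 := h.s2 a h1 (by linarith)
    have e2 := h.s5 a h1 (by linarith)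
    have e3 := h.s6 a (by linarith) (by linarith)
    rw [e1, ← e2, e3]
  s3 := fun a h1 h2 => by
    rw [h.s3 a h1 (by linarith)]
    have e : l - a = p - a + (l - p) := by ring
    rw [e]
    rfl
  s4 := h.s4
  s5 := fun b h1 h2 => by
    have e1 := h.s5 (b + (l - p)) (by linarith) (by linarith)
    have e : l - (b + (l - p)) = p - b := by ring
    rw [e] at e1
    exact e1
  s6 := fun b h1 h2 => by
    have e1 := h.s6 (b + (l - p)) (by linarith) (by linarith)
    have e : p - (b + (l - p)) = 2 * p - l - b := by ring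
    rw [e] at e1
    exact e1

end SympB
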