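import Pool.Agent.W_MP_93b186_an_helper62.R1

/-!
# Reduced polygons: chord families generated by a set of values `S ⊆ [0,p]`
-/

namespace SympB

def redB (l p q r : ℝ) (S : Set ℝ) : Set ℝ :=
  {b | (0 ≤ b ∧ b ≤ r ∧ r - b ∈ S) ∨ (r ≤ b ∧ b ≤ p ∧ b ∈ S) ∨
    (l - p ≤ b ∧ b < l - q ∧ l - b ∈ S)}

/-- The reduced closedness condition on the set of values of `A` chords. -/
def HG (p q r : ℝ) (S : Set ℝ) : Prop :=
  ∀ b, 0 < b → b < p → (((b ≤ r ∧ r - b ∈ S) ∨ (r ≤ b ∧ b ∈ S)) ↔
    ((p - b ≤ q ∧ q - (p - b) ∈ S) ∨ (q ≤ p - b ∧ p - b ∈ S)))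

theorem Closed.red {l p q r : ℝ} {S : Set ℝ} (hqp : q ≤ p)
    (hrp : r ≤ p) (hpl : 2 * p ≤ l) (hS : ∀ x ∈ S, 0 ≤ x ∧ x ≤ p)
    (hG : HG p q r S) : Closed l p q r S (redB l p q r S) (redB l p r q S) where
  s1 := fun a h1 h2 => by
    constructor
    · intro h
      refine Or.inl ⟨by linarith, by linarith, by rw [sub_sub_cancel]; exact h⟩
    · rintro (⟨_, _, h⟩ | ⟨h, _, _⟩ | ⟨h, _, _⟩)
      · rw [sub_sub_cancel] at h; exact h
      · exfalso; linarith
      · exfalso; linarith
  s2 := fun a h1 h2 => by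
    constructor
    · intro h
      refine Or.inr (Or.inr ⟨by linarith [(hS a h).2], by linarith, ?_⟩)
      rw [sub_sub_cancel]; exact h
    · rintro (⟨_, h, _⟩ | ⟨_, h, _⟩ | ⟨_, _, h⟩)
      · exfalso; linarith
      · exfalso; linarith
      · rw [sub_sub_cancel] at h; exact h
  s3 := fun a h1 h2 => by
    constructor
    · intro h
      refine Or.inr (Or.inr ⟨by linarith [(hS a h).2], by linarith, ?_⟩)
      rw [sub_sub_cancel]; exact h
    · rintro (⟨_, h, _⟩ | ⟨_, h, _⟩ | ⟨_, _, h⟩)
      · exfalso; linarith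
      · exfalso; linarith
      · rw [sub_sub_cancel] at h; exact h
  s4 := fun a h1 h2 => by
    constructor
    · intro h
      refine Or.inl ⟨by linarith, by linarith, by rw [sub_sub_cancel]; exact h⟩
    · rintro (⟨_, _, h⟩ | ⟨h, _, _⟩ | ⟨h, _, _⟩)
      · rw [sub_sub_cancel] at h; exact h
      · exfalso; linarith
      · exfalso; linarith
  s5 := fun b h1 h2 => by
    constructor
    · rintro (⟨_, h, _⟩ | ⟨_, h, h'⟩ | ⟨h, _, h'⟩)
      · exfalso; linarith
      · refine Or.inr (Or.inr ⟨by linarith, by linarith, ?_⟩)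
        rw [sub_sub_cancel]; exact h'
      · refine Or.inr (Or.inl ⟨by linarith, by linarith, h'⟩)
    · rintro (⟨_, h, _⟩ | ⟨_, h, h'⟩ | ⟨h, _, h'⟩)
      · exfalso; linarith
      · refine Or.inr (Or.inr ⟨by linarith, by linarith, h'⟩)
      · rw [sub_sub_cancel] at h'
        refine Or.inr (Or.inl ⟨by linarith, by linarith, h'⟩)
  s6 := fun b h1 h2 => by
    have h := hG b h1 h2
    constructor
    · rintro (⟨_, h3, h4⟩ | ⟨h3, _, h4⟩ | ⟨h3, _, h4⟩)
      · rcases h.1 (Or.inl ⟨h3, h4⟩) with ⟨h5, h6⟩ | ⟨h5, h6⟩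
        · exact Or.inl ⟨by linarith, h5, h6⟩
        · exact Or.inr (Or.inl ⟨h5, by linarith, h6⟩)
      · rcases h.1 (Or.inr ⟨h3, h4⟩) with ⟨h5, h6⟩ | ⟨h5, h6⟩
        · exact Or.inl ⟨by linarith, h5, h6⟩
        · exact Or.inr (Or.inl ⟨h5, by linarith, h6⟩)
      · exfalso; linarith
    · rintro (⟨_, h3, h4⟩ | ⟨h3, _, h4⟩ | ⟨h3, _, h4⟩)
      · rcases h.2 (Or.inl ⟨h3, h4⟩) with ⟨h5, h6⟩ | ⟨h5, h6⟩
        · exact Or.inl ⟨by linarith, h5, h6⟩
        · exact Or.inr (Or.inl ⟨h5, by linarith, h6⟩)
      · rcases h.2 (Or.inr ⟨h3, h4⟩) with ⟨h5, h6⟩ | ⟨h5, h6⟩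
        · exact Or.inl ⟨by linarith, h5, h6⟩
        · exact Or.inr (Or.inl ⟨h5, by linarith, h6⟩)
      · exfalso; linarith

theorem finite_redB {l p q r : ℝ} {S : Set ℝ} (hS : S.Finite) : (redB l p q r S).Finite := by
  refine (((hS.image (fun x => r - x)).union hS).union (hS.image (fun x => l - x))).subset ?_
  rintro b (⟨_, _, h⟩ | ⟨_, _, h⟩ | ⟨_, _, h⟩)
  · exact Or.inl (Or.inl ⟨_, h, by ring⟩)
  · exact Or.inl (Or.inr h)
  · exact Or.inr ⟨_, h, by ring⟩

/-- In a reduced polygon, it is enough to find finite `HG`-closed sets of values in `[0,p]`. -/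
theorem FinL.red {l p q r : ℝ} (hq : 0 ≤ q) (hr : 0 ≤ r) (hqp : q ≤ p)
    (hrp : r ≤ p) (hpl : 2 * p ≤ l) (hl : p + q + r ≤ l)
    (h : ∀ F : Set ℝ, F.Finite → ∃ S : Set ℝ, S.Finite ∧ (∀ x ∈ S, 0 ≤ x ∧ x ≤ p) ∧
      HG p q r S ∧ ∀ x ∈ F, 0 ≤ x → x ≤ p → x ∈ S) : FinL l p q r := by
  refine FinL.of_weak (by linarith) hq hr hl fun x => ?_
  obtain ⟨S, fS, hS, hG, hF⟩ := h {x, r - x, q - x, l - x} (by simp)
  -- the central family
  have central : ∀ x, p < x → x < l - p →
      Closed l p q r ({x, l - x} : Set ℝ) ({x, l - x} : Set ℝ) ({x, l - x} : Set ℝ) := by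
    intro x hx1 hx2
    constructor
    · intro a h1 h2
      constructor
      · rintro (h | h)
        · exfalso; linarith
        · exfalso; have : a = l - x := h
          linarith
      · rintro (h | h)
        · exfalso; linarith
        · exfalso; have : r - a = l - x := h
          linarith
    · intro a h1 h2
      constructor
      · rintro (h | h)
        · exact Or.inr (show l - a = l - x by rw [h])
        · have : a = l - x := h
          exact Or.inl (show l - a = x by rw [this]; ring)
      · rintro (h | h)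
        · exact Or.inr (show a = l - x by rw [← h]; ring)
        · have : l - a = l - x := h
          exact Or.inl (show a = x by linarith)
    · intro a h1 h2
      constructor
      · rintro (h | h)
        · exact Or.inr (show l - a = l - x by rw [h])
        · have : a = l - x := h
          exact Or.inl (show l - a = x by rw [this]; ring)
      · rintro (h | h)
        · exact Or.inr (show a = l - x by rw [← h]; ring)
        · have : l - a = l - x := h
          exact Or.inl (show a = x by linarith)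
    · intro a h1 h2
      constructor
      · rintro (h | h)
        · exfalso; linarith
        · exfalso; have : a = l - x := h
          linarith
      · rintro (h | h)
        · exfalso; linarith
        · exfalso; have : q - a = l - x := h
          linarith
    · intro a h1 h2
      constructor
      · rintro (h | h)
        · exact Or.inr (show l - a = l - x by rw [h])
        · have : a = l - x := h
          exact Or.inl (show l - a = x by rw [this]; ring)
      · rintro (h | h)
        · exact Or.inr (show a = l - x by rw [← h]; ring)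
        · have : l - a = l - x := h
          exact Or.inl (show a = x by linarith)
    · intro a h1 h2
      constructor
      · rintro (h | h)
        · exfalso; linarith
        · exfalso; have : a = l - x := h
          linarith
      · rintro (h | h)
        · exfalso; linarith
        · exfalso; have : p - a = l - x := h
          linarith
  have hred := Closed.red hqp hrp hpl hS hG
  by_cases hx : p < x ∧ x < l - p
  · refine ⟨{x, l - x}, {x, l - x}, {x, l - x}, by simp, by simp, by simp,
      central x hx.1 hx.2, ?_, ?_, ?_⟩ <;> intro _ _ <;> exact Or.inl rfl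
  · refine ⟨S, redB l p q r S, redB l p r q S, fS, finite_redB fS, finite_redB fS, hred,
      ?_, ?_, ?_⟩
    · intro h0 h1
      rcases le_or_gt x p with hxp | hxp
      · exact hF x (by simp) h0.le hxp
      · exact absurd ⟨hxp, h1⟩ hx
    · intro h0 h1
      rcases le_or_gt x p with hxp | hxp
      · rcases le_total x r with hxr | hxr
        · exact Or.inl ⟨h0.le, hxr, hF _ (by simp) (by linarith) (by linarith)⟩
        · exact Or.inr (Or.inl ⟨hxr, hxp, hF _ (by simp) (by linarith) (by linarith)⟩)
      · rcases lt_or_ge x (l - p) with hxl | hxl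
        · exact absurd ⟨hxp, hxl⟩ hx
        · exact Or.inr (Or.inr ⟨hxl, h1, hF _ (by simp) (by linarith) (by linarith)⟩)
    · intro h0 h1
      rcases le_or_gt x p with hxp | hxp
      · rcases le_total x q with hxr | hxr
        · exact Or.inl ⟨h0.le, hxr, hF _ (by simp) (by linarith) (by linarith)⟩
        · exact Or.inr (Or.inl ⟨hxr, hxp, hF _ (by simp) (by linarith) (by linarith)⟩)
      · rcases lt_or_ge x (l - p) with hxl | hxl
        · exact absurd ⟨hxp, hxl⟩ hx
        · exact Or.inr (Or.inr ⟨hxl, h1, hF _ (by simp) (by linarith) (by linarith)⟩)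

end SympB
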